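import Mathlib

/-!
Module NTh.HashFam: small perfect hash families (difficulty: 1.8 h).

Proof.  (a) Hitting lemma: let `A` be a finset (of any type), `B` a finite nonempty type, `r : A → B →
Prop` and `δ ∈ [0, 1]` such that every `a ∈ A` has at least `δ |B|` elements `b` with `r a b`.  Then for
every `N` there is a list of length `N` such that at most `(1-δ)^N |A|` elements of `A` are related to no
member of the list (induction on `N`: by double counting some `b` is related to at least a fraction `δ`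
of the remaining elements).  If `(1-δ)^N |A| < 1` all are hit.
(b) If `n < q` one injection `Fin n → Fin q` does everything (the list `[h]`).
(c) If `q ≤ n` it is enough to treat `W` with exactly `q` elements (every smaller `W` is contained in
one).  The number of `h : Fin n → Fin q` that are injective (hence bijective) on `W` is
`q ! * q ^ (n - q)`, and `q ^ q / q ! ≤ exp q` (`Real.pow_div_factorial_le_exp`), so `δ = exp (-q)` is
allowed.  The number of `W` is `n.choose q ≤ n ^ q`.  Take `N = ⌈exp q * (q * log (n+1) + 1)⌉₊`: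
`(1-δ)^N n^q ≤ exp (-N exp (-q)) n ^ q ≤ exp (-1) < 1`.
-/

namespace Pool.Agent.Lib.NTh

open Classical in
/-- the hitting lemma -/
private theorem hashFam_hit {α β : Type*} [Fintype β] [Nonempty β] (r : α → β → Prop) (δ : ℝ)
    (hδ1 : δ ≤ 1) (A : Finset α)
    (hA : ∀ a ∈ A, δ * Fintype.card β ≤ ((Finset.univ.filter (fun b => r a b)).card : ℝ)) (N : ℕ) :
    ∃ l : List β, l.length = N ∧
      ((A.filter (fun a => ∀ b ∈ l, ¬ r a b)).card : ℝ) ≤ (1 - δ) ^ N * A.card := by
  induction N with
  | zero =>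
    refine ⟨[], rfl, ?_⟩
    simp
  | succ N ih =>
    obtain ⟨l, hl, hc⟩ := ih
    set R := A.filter (fun a => ∀ b ∈ l, ¬ r a b) with hR
    have hdc : ∑ b : β, ((R.filter (fun a => r a b)).card : ℝ)
        = ∑ a ∈ R, ((Finset.univ.filter (fun b => r a b)).card : ℝ) := by
      have h1 : ∑ b : β, (R.filter (fun a => r a b)).card
          = ∑ a ∈ R, (Finset.univ.filter (fun b => r a b)).card := by
        simp only [Finset.card_filter]
        exact Finset.sum_comm
      exact_mod_cast h1
    have hlow : ∑ b : β, (δ * (R.card : ℝ)) ≤ ∑ b : β, ((R.filter (fun a => r a b)).card : ℝ) := by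
      rw [hdc]
      calc ∑ b : β, (δ * (R.card : ℝ)) = ∑ a ∈ R, (δ * (Fintype.card β : ℝ)) := by
            rw [Finset.sum_const, Finset.sum_const, nsmul_eq_mul, nsmul_eq_mul, Finset.card_univ]
            ring
        _ ≤ _ := Finset.sum_le_sum fun a ha => hA a (Finset.mem_filter.1 ha).1
    obtain ⟨b, -, hb⟩ := Finset.exists_le_of_sum_le (Finset.univ_nonempty (α := β)) hlow
    refine ⟨b :: l, by rw [List.length_cons, hl], ?_⟩
    have hsplit : A.filter (fun a => ∀ b' ∈ b :: l, ¬ r a b') = R.filter (fun a => ¬ r a b) := by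
      ext a
      simp only [hR, Finset.mem_filter, List.mem_cons, forall_eq_or_imp]
      tauto
    rw [hsplit]
    have hcard : ((R.filter (fun a => r a b)).card : ℝ) + ((R.filter (fun a => ¬ r a b)).card : ℝ)
        = (R.card : ℝ) := by
      exact_mod_cast Finset.card_filter_add_card_filter_not (s := R) (fun a => r a b)
    have h3 : ((R.filter (fun a => ¬ r a b)).card : ℝ) ≤ (1 - δ) * (R.card : ℝ) := by linarith
    calc ((R.filter (fun a => ¬ r a b)).card : ℝ) ≤ (1 - δ) * (R.card : ℝ) := h3
      _ ≤ (1 - δ) * ((1 - δ) ^ N * A.card) := mul_le_mul_of_nonneg_left hc (by linarith)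
      _ = (1 - δ) ^ (N + 1) * A.card := by ring

/-- the hitting lemma, when the bound is less than one -/
private theorem hashFam_hit' {α β : Type*} [Fintype β] [Nonempty β] (r : α → β → Prop) (δ : ℝ)
    (hδ1 : δ ≤ 1) (A : Finset α)
    (hA : ∀ a ∈ A, ∃ S : Finset β, (∀ b ∈ S, r a b) ∧ δ * Fintype.card β ≤ (S.card : ℝ)) (N : ℕ)
    (hN : (1 - δ) ^ N * A.card < 1) :
    ∃ l : List β, l.length = N ∧ ∀ a ∈ A, ∃ b ∈ l, r a b := by
  classical
  obtain ⟨l, hl, hc⟩ := hashFam_hit r δ hδ1 A (by
    intro a ha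
    obtain ⟨S, hS, hc⟩ := hA a ha
    refine hc.trans ?_
    have : S.card ≤ (Finset.univ.filter (fun b => r a b)).card := by
      apply Finset.card_le_card
      intro b hb
      rw [Finset.mem_filter]
      exact ⟨Finset.mem_univ _, hS b hb⟩
    exact_mod_cast this) N
  refine ⟨l, hl, ?_⟩
  intro a ha
  by_contra hcon
  push Not at hcon
  have h1 : 1 ≤ (A.filter (fun a => ∀ b ∈ l, ¬ r a b)).card := by
    rw [Nat.one_le_iff_ne_zero, ← Nat.pos_iff_ne_zero, Finset.card_pos]
    exact ⟨a, Finset.mem_filter.2 ⟨ha, hcon⟩⟩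
  have h2 : (1 : ℝ) ≤ ((A.filter (fun a => ∀ b ∈ l, ¬ r a b)).card : ℝ) := by exact_mod_cast h1
  linarith

/-- the number of functions injective on a given set of `q` elements -/
private theorem hashFam_count (n q : ℕ) (W : Finset (Fin n)) (hW : W.card = q) :
    ∃ S : Finset (Fin n → Fin q), (∀ h ∈ S, Set.InjOn h W) ∧
      q.factorial * q ^ (n - q) ≤ S.card := by
  classical
  let F : ({x // x ∈ W} ↪ Fin q) × ({x // x ∉ W} → Fin q) → (Fin n → Fin q) :=
    fun eg x => if hx : x ∈ W then eg.1 ⟨x, hx⟩ else eg.2 ⟨x, hx⟩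
  have hcard : Fintype.card (({x // x ∈ W} ↪ Fin q) × ({x // x ∉ W} → Fin q))
      = q.factorial * q ^ (n - q) := by
    rw [Fintype.card_prod, Fintype.card_embedding_eq, Fintype.card_fun, Fintype.card_fin,
      Fintype.card_coe, hW, Nat.descFactorial_self]
    congr 2
    rw [Fintype.card_subtype_compl, Fintype.card_fin, Fintype.card_coe, hW]
  have hinj : Function.Injective F := by
    rintro ⟨e, g⟩ ⟨e', g'⟩ h
    have h1 : e = e' := by
      ext ⟨x, hx⟩
      have := congrFun h x
      simp only [F, dif_pos hx] at this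
      exact congrArg Fin.val this
    have h2 : g = g' := by
      ext ⟨x, hx⟩
      have := congrFun h x
      simp only [F, dif_neg hx] at this
      exact congrArg Fin.val this
    rw [h1, h2]
  refine ⟨Finset.univ.image F, ?_, ?_⟩
  · intro h hh
    obtain ⟨⟨e, g⟩, -, rfl⟩ := Finset.mem_image.1 hh
    intro x hx y hy hxy
    have hx' : x ∈ W := hx
    have hy' : y ∈ W := hy
    simp only [F, dif_pos hx', dif_pos hy'] at hxy
    have := e.injective hxy
    exact congrArg Subtype.val this
  · rw [Finset.card_image_of_injective _ hinj, Finset.card_univ, hcard]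

theorem hash_family (n q : ℕ) (hq : 1 ≤ q) : ∃ hs : List (Fin n → Fin q),
    (hs.length : ℝ) ≤ Real.exp q * (q * Real.log (n + 1) + 1) + 1 ∧
    ∀ W : Finset (Fin n), W.card ≤ q → ∃ h ∈ hs, Set.InjOn h W := by
  classical
  have hlog : 0 ≤ Real.log ((n : ℝ) + 1) := Real.log_nonneg (by linarith [Nat.cast_nonneg (α := ℝ) n])
  have hM : 0 ≤ Real.exp q * (q * Real.log (n + 1) + 1) := by positivity
  rcases Nat.lt_or_ge n q with hnq | hnq
  · refine ⟨[Fin.castLE hnq.le], ?_, ?_⟩
    · rw [List.length_singleton]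
      push_cast
      linarith
    · intro W _
      exact ⟨_, List.mem_singleton.2 rfl, (Fin.castLE_injective hnq.le).injOn⟩
  · have : Nonempty (Fin q) := ⟨⟨0, hq⟩⟩
    set N := ⌈Real.exp q * (q * Real.log (n + 1) + 1)⌉₊ with hN
    have hq0 : (0 : ℝ) < q := by exact_mod_cast hq
    have hfac : ((q : ℝ) ^ q) * Real.exp (-(q : ℝ)) ≤ (q.factorial : ℝ) := by
      have h1 := Real.pow_div_factorial_le_exp (q : ℝ) hq0.le q
      rw [div_le_iff₀ (by positivity)] at h1
      calc ((q : ℝ) ^ q) * Real.exp (-(q : ℝ))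
          ≤ (Real.exp q * (q.factorial : ℝ)) * Real.exp (-(q : ℝ)) :=
            mul_le_mul_of_nonneg_right h1 (Real.exp_pos _).le
        _ = (Real.exp q * Real.exp (-(q : ℝ))) * (q.factorial : ℝ) := by ring
        _ = (q.factorial : ℝ) := by rw [← Real.exp_add, add_neg_cancel, Real.exp_zero, one_mul]
    have hA : ∀ W ∈ Finset.powersetCard q (Finset.univ : Finset (Fin n)),
        ∃ S : Finset (Fin n → Fin q), (∀ h ∈ S, Set.InjOn h W) ∧
        Real.exp (-(q : ℝ)) * Fintype.card (Fin n → Fin q) ≤ (S.card : ℝ) := by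
      intro W hW
      have hWc := (Finset.mem_powersetCard.1 hW).2
      obtain ⟨S, hS, hSc⟩ := hashFam_count n q W hWc
      refine ⟨S, hS, ?_⟩
      have h2 : ((q.factorial * q ^ (n - q) : ℕ) : ℝ) ≤ (S.card : ℝ) := by
        exact_mod_cast hSc
      refine le_trans ?_ h2
      rw [Fintype.card_fun, Fintype.card_fin, Fintype.card_fin]
      push_cast
      calc Real.exp (-(q : ℝ)) * (q : ℝ) ^ n
          = (((q : ℝ) ^ q) * Real.exp (-(q : ℝ))) * (q : ℝ) ^ (n - q) := by
            conv_lhs => rw [← Nat.add_sub_cancel' hnq, pow_add]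
            ring
        _ ≤ (q.factorial : ℝ) * (q : ℝ) ^ (n - q) :=
            mul_le_mul_of_nonneg_right hfac (by positivity)
    have hexp1 : Real.exp (-(q : ℝ)) ≤ 1 := Real.exp_le_one_iff.2 (by linarith)
    have hpow : (1 - Real.exp (-(q : ℝ))) ^ N ≤ Real.exp (-((q : ℝ) * Real.log (n + 1) + 1)) := by
      have h1 : 1 - Real.exp (-(q : ℝ)) ≤ Real.exp (-Real.exp (-(q : ℝ))) :=
        Real.one_sub_le_exp_neg _
      have h0 : 0 ≤ 1 - Real.exp (-(q : ℝ)) := by linarith
      calc (1 - Real.exp (-(q : ℝ))) ^ N ≤ (Real.exp (-Real.exp (-(q : ℝ)))) ^ N :=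
            pow_le_pow_left₀ h0 h1 N
        _ = Real.exp (N * (-Real.exp (-(q : ℝ)))) := (Real.exp_nat_mul _ _).symm
        _ ≤ _ := by
          apply Real.exp_le_exp.2
          have h2 : Real.exp q * (q * Real.log (n + 1) + 1) ≤ N := Nat.le_ceil _
          have h3 := mul_le_mul_of_nonneg_left h2 (Real.exp_pos (-(q : ℝ))).le
          have h4 : Real.exp (-(q : ℝ)) * (Real.exp q * (q * Real.log (n + 1) + 1))
              = q * Real.log (n + 1) + 1 := by
            rw [← mul_assoc, ← Real.exp_add, neg_add_cancel, Real.exp_zero, one_mul]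
          rw [h4] at h3
          linarith
    have hAc : ((Finset.powersetCard q (Finset.univ : Finset (Fin n))).card : ℝ) ≤
        Real.exp ((q : ℝ) * Real.log (n + 1)) := by
      rw [Finset.card_powersetCard, Finset.card_univ, Fintype.card_fin]
      have h1 : (n.choose q : ℝ) ≤ ((n ^ q : ℕ) : ℝ) := by exact_mod_cast Nat.choose_le_pow n q
      have h2 : ((n ^ q : ℕ) : ℝ) ≤ ((n : ℝ) + 1) ^ q := by
        push_cast
        exact pow_le_pow_left₀ (Nat.cast_nonneg n) (by linarith) q
      have h3 : Real.exp ((q : ℝ) * Real.log (n + 1)) = ((n : ℝ) + 1) ^ q := by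
        rw [Real.exp_nat_mul, Real.exp_log (by positivity)]
      rw [h3]
      exact h1.trans h2
    have hlt : (1 - Real.exp (-(q : ℝ))) ^ N *
        ((Finset.powersetCard q (Finset.univ : Finset (Fin n))).card : ℝ) < 1 := by
      calc (1 - Real.exp (-(q : ℝ))) ^ N *
            ((Finset.powersetCard q (Finset.univ : Finset (Fin n))).card : ℝ)
          ≤ Real.exp (-((q : ℝ) * Real.log (n + 1) + 1)) *
            Real.exp ((q : ℝ) * Real.log (n + 1)) :=
            mul_le_mul hpow hAc (Nat.cast_nonneg _) (Real.exp_pos _).le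
        _ = Real.exp (-1) := by
            rw [← Real.exp_add]
            congr 1
            ring
        _ < 1 := by
            rw [Real.exp_lt_one_iff]
            norm_num
    obtain ⟨l, hl, hc⟩ := hashFam_hit' (fun (W : Finset (Fin n)) (h : Fin n → Fin q) =>
      Set.InjOn h (W : Set (Fin n))) (Real.exp (-(q : ℝ))) hexp1
      (Finset.powersetCard q (Finset.univ : Finset (Fin n))) hA N hlt
    refine ⟨l, ?_, ?_⟩
    · rw [hl]
      exact (Nat.ceil_lt_add_one hM).le
    · intro W hW
      obtain ⟨W', hWW, hW'⟩ := Finset.exists_superset_card_eq hW (by rw [Fintype.card_fin]; exact hnq)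
      obtain ⟨h, hh, hinj⟩ := hc W' (Finset.mem_powersetCard.2 ⟨Finset.subset_univ _, hW'⟩)
      exact ⟨h, hh, Set.InjOn.mono (by exact_mod_cast hWW) hinj⟩

end Pool.Agent.Lib.NTh
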