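import Pool.Agent.Lib.NTh.DFSMachine
import Pool.Agent.Lib.NTh.HashFam

/-!
Module NTh.Algo: a branching program for `t is reachable from s, or s reaches more than k vertices and
more than k vertices reach t` (difficulty: 1.2 h).

Proof.  `q = k + 1`, `hs` the family of `hash_family n q`, `M = (8 ^ q * (2 * (n + 1) ^ 2)) ^ 2`.
With `rev G = {e | (e.2, e.1) ∈ G}` (a `Projection`, so `BP.comap` applies), the property equals
`(∃ h ∈ hs, t ∈ dfsLog G h s) ∨ (∃ h ∈ hs, s ∈ dfsLog (rev G) h t) ∨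
 ((∃ h ∈ hs, k < (dfsLog G h s).length) ∧ (∃ h ∈ hs, k < (dfsLog (rev G) h t).length))`.
From right to left: `dfs_reach` (reachability in `rev G` from `t` is reachability to `t` in `G`), and the
log has no repetition (`dfs_nodup`) and consists of reachable vertices.  From left to right: if `t` is
reachable and `s` reaches at most `k` vertices, some `h ∈ hs` is injective on the set of these, and
`dfs_complete` gives `t ∈ dfsLog G h s`; the same for `rev G`; otherwise both numbers are `> k`, take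
the sets `W` of `dfs_big` (for `G` and for `rev G`), `W.card = k + 1 = q`, and `h ∈ hs` injective on `W`.
Size: four `BP.exists_list`.
-/

namespace Pool.Agent.Lib.NTh

open Pool.Agent.Lib.Pe46137 Pool.Agent.Lib.Pe46137X

/-- reachable, or more than `k` vertices are reachable from `s` and more than `k` vertices reach `t` -/
def ReachOrBig {n : ℕ} (k : ℕ) (s t : Fin n) (G : Set (Fin n × Fin n)) : Prop :=
  Reachable G s t ∨
    (k < {x | Reachable G s x}.ncard ∧ k < {x | Reachable G x t}.ncard)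

/-- the reversed digraph -/
def rev {V : Type} (G : Set (V × V)) : Set (V × V) := {e | (e.2, e.1) ∈ G}

theorem reachable_rev {V : Type} (G : Set (V × V)) (x y : V) :
    Reachable (rev G) x y ↔ Reachable G y x := by
  have h : (fun a b => (a, b) ∈ rev G) = Function.swap (fun a b => (a, b) ∈ G) := rfl
  unfold Reachable
  rw [h, Relation.reflTransGen_swap]

namespace AlgoAux

theorem projection_rev (n : ℕ) : Projection (fun G : Set (Fin n × Fin n) => rev G) := by
  intro e
  exact Or.inl ⟨(e.2, e.1), fun G => Iff.rfl⟩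

theorem log_le {n q : ℕ} (G : Set (Fin n × Fin n)) (h : Fin n → Fin q) (s : Fin n) :
    (dfsLog G h s).length ≤ {x | Reachable G s x}.ncard := by
  have h1 : (dfsLog G h s).Nodup := (dfs_nodup (G := G) (h := h) (s := s) (2 * n)).of_map h
  have h2 : ((dfsLog G h s).toFinset : Set (Fin n)) ⊆ {x | Reachable G s x} := by
    intro x hx
    rw [Finset.mem_coe, List.mem_toFinset] at hx
    exact dfs_reach (G := G) (h := h) (s := s) (2 * n) hx
  have h3 := Set.ncard_le_ncard h2 (Set.toFinite _)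
  rw [Set.ncard_coe_finset, List.toFinset_card_of_nodup h1] at h3
  exact h3

theorem log_mem {n q : ℕ} (G : Set (Fin n × Fin n)) (h : Fin n → Fin q) {s t : Fin n}
    (ht : t ∈ dfsLog G h s) : Reachable G s t :=
  dfs_reach (G := G) (h := h) (s := s) (2 * n) ht

/-- completeness of the family of colourings -/
theorem small {n k : ℕ} {hs : List (Fin n → Fin (k + 1))}
    (hinj : ∀ W : Finset (Fin n), W.card ≤ k + 1 → ∃ h ∈ hs, Set.InjOn h W)
    (G : Set (Fin n × Fin n)) {s t : Fin n} (hr : Reachable G s t)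
    (hsm : ¬ k < {x | Reachable G s x}.ncard) : ∃ h ∈ hs, t ∈ dfsLog G h s := by
  classical
  obtain ⟨h, hh, hi⟩ := hinj (Set.toFinite {x | Reachable G s x}).toFinset (by
    rw [← Set.ncard_eq_toFinset_card]
    omega)
  rw [Set.Finite.coe_toFinset] at hi
  exact ⟨h, hh, (dfs_complete hi t).2 hr⟩

theorem big {n k : ℕ} {hs : List (Fin n → Fin (k + 1))}
    (hinj : ∀ W : Finset (Fin n), W.card ≤ k + 1 → ∃ h ∈ hs, Set.InjOn h W)
    (G : Set (Fin n × Fin n)) {s : Fin n}
    (hbg : k < {x | Reachable G s x}.ncard) : ∃ h ∈ hs, k < (dfsLog G h s).length := by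
  obtain ⟨W, hW, hW2⟩ := dfs_big hbg
  obtain ⟨h, hh, hi⟩ := hinj W hW.le
  exact ⟨h, hh, hW2 _ h hi⟩

theorem main {n k : ℕ} {hs : List (Fin n → Fin (k + 1))}
    (hinj : ∀ W : Finset (Fin n), W.card ≤ k + 1 → ∃ h ∈ hs, Set.InjOn h W)
    (G : Set (Fin n × Fin n)) (s t : Fin n) :
    ((∃ h ∈ hs, t ∈ dfsLog G h s) ∨ ((∃ h ∈ hs, s ∈ dfsLog (rev G) h t) ∨
      ((∃ h ∈ hs, k < (dfsLog G h s).length) ∧ (∃ h ∈ hs, k < (dfsLog (rev G) h t).length)))) ↔
    ReachOrBig k s t G := by
  have hset : {x | Reachable G x t} = {x | Reachable (rev G) t x} := by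
    ext x
    exact (reachable_rev G t x).symm
  constructor
  · rintro (⟨h, _, h1⟩ | ⟨h, _, h1⟩ | ⟨⟨h, _, h1⟩, h', _, h2⟩)
    · exact Or.inl (log_mem G h h1)
    · exact Or.inl ((reachable_rev G t s).1 (log_mem (rev G) h h1))
    · refine Or.inr ⟨lt_of_lt_of_le h1 (log_le G h s), ?_⟩
      rw [hset]
      exact lt_of_lt_of_le h2 (log_le (rev G) h' t)
  · intro hR
    by_cases h1 : k < {x | Reachable G s x}.ncard
    · by_cases h2 : k < {x | Reachable G x t}.ncard
      · refine Or.inr (Or.inr ⟨big hinj G h1, big hinj (rev G) ?_⟩)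
        rw [← hset]
        exact h2
      · rcases hR with hR | hR
        · refine Or.inr (Or.inl (small hinj (rev G) ((reachable_rev G t s).2 hR) ?_))
          rw [← hset]
          exact h2
        · exact absurd hR.2 h2
    · rcases hR with hR | hR
      · exact Or.inl (small hinj G hR h1)
      · exact absurd hR.1 h1

end AlgoAux

open AlgoAux

theorem algo_bp {n : ℕ} (k : ℕ) {s t : Fin n} (hst : s ≠ t) :
    ∃ m : ℕ, BP m (ReachOrBig k s t) ∧
      (m : ℝ) ≤ 4 * (Real.exp (k + 1) * ((k + 1) * Real.log (n + 1) + 1) + 1) *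
        (8 ^ (k + 1) * (2 * ((n : ℝ) + 1) ^ 2)) ^ 2 := by
  obtain ⟨hs, hlen, hinj⟩ := hash_family n (k + 1) (by omega)
  have h1 : BP (hs.length * (8 ^ (k + 1) * (2 * (n + 1) ^ 2)) ^ 2)
      (fun G : Set (Fin n × Fin n) => ∃ h ∈ hs, t ∈ dfsLog G h s) :=
    BP.exists_list hs (fun h G => t ∈ dfsLog G h s) (fun h _ => dfs_mem_bp h hst)
  have h2 : BP (hs.length * (8 ^ (k + 1) * (2 * (n + 1) ^ 2)) ^ 2)
      (fun G : Set (Fin n × Fin n) => ∃ h ∈ hs, s ∈ dfsLog (rev G) h t) :=
    BP.exists_list hs (fun h G => s ∈ dfsLog (rev G) h t)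
      (fun h _ => (dfs_mem_bp h hst.symm).comap (projection_rev n))
  have h3 : BP (hs.length * (8 ^ (k + 1) * (2 * (n + 1) ^ 2)) ^ 2)
      (fun G : Set (Fin n × Fin n) => ∃ h ∈ hs, k < (dfsLog G h s).length) :=
    BP.exists_list hs (fun h G => k < (dfsLog G h s).length) (fun h _ => dfs_big_bp h s k)
  have h4 : BP (hs.length * (8 ^ (k + 1) * (2 * (n + 1) ^ 2)) ^ 2)
      (fun G : Set (Fin n × Fin n) => ∃ h ∈ hs, k < (dfsLog (rev G) h t).length) :=
    BP.exists_list hs (fun h G => k < (dfsLog (rev G) h t).length)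
      (fun h _ => (dfs_big_bp h t k).comap (projection_rev n))
  have h5 := h1.or (h2.or (h3.and h4))
  have h6 : (fun G : Set (Fin n × Fin n) => (∃ h ∈ hs, t ∈ dfsLog G h s) ∨
      ((∃ h ∈ hs, s ∈ dfsLog (rev G) h t) ∨
      ((∃ h ∈ hs, k < (dfsLog G h s).length) ∧
        (∃ h ∈ hs, k < (dfsLog (rev G) h t).length)))) = ReachOrBig k s t := by
    funext G
    exact propext (main hinj G s t)
  rw [h6] at h5
  refine ⟨_, h5, ?_⟩
  push_cast at hlen ⊢
  have hpos : (0 : ℝ) ≤ (8 ^ (k + 1) * (2 * ((n : ℝ) + 1) ^ 2)) ^ 2 := by positivity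
  nlinarith [mul_le_mul_of_nonneg_right hlen hpos]

end Pool.Agent.Lib.NTh
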