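import Pool.Agent.Lib.NTh.Algo

/-!
Module NTh.AlgoSize: for `k = ⌈K log n⌉` the program of `algo_bp` has polynomial size
(difficulty: 0.6 h).

Proof.  `k + 1 ≤ K log n + 2`, so `exp (k+1) ≤ e^2 n^K`, `8^(k+1) ≤ 64 n^(K log 8)`, `log (n+1) ≤ n`,
`k + 1 ≤ (K + 2) n`; everything is at most `n ^ K'` for large `n`.
-/

namespace Pool.Agent.Lib.NTh

open Pool.Agent.Lib.Pe46137 Pool.Agent.Lib.Pe46137X

namespace AlgoSizeAux

theorem bound (A n : ℕ) (k : ℕ) (hn : 768 * 9 ^ 8 ≤ n) (hk : (k : ℝ) ≤ A * Real.log n + 1) :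
    4 * (Real.exp (k + 1) * ((k + 1) * Real.log (n + 1) + 1) + 1) *
        (8 ^ (k + 1) * (2 * ((n : ℝ) + 1) ^ 2)) ^ 2 ≤ (n : ℝ) ^ (8 * A + 6) := by
  have hn1 : (1 : ℝ) ≤ n := by
    have : 1 ≤ n := le_trans (by norm_num) hn
    exact_mod_cast this
  have hn0 : (0 : ℝ) < n := by linarith
  set X : ℝ := Real.exp (k + 1) with hX
  have hX1 : 1 ≤ X := Real.one_le_exp (by positivity)
  have hXn : X ≤ 9 * (n : ℝ) ^ A := by
    have h1 : X ≤ Real.exp (A * Real.log n + 2) := Real.exp_le_exp.2 (by linarith)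
    have h2 : Real.exp (A * Real.log n + 2) = (n : ℝ) ^ A * (Real.exp 1) ^ 2 := by
      rw [Real.exp_add, Real.exp_nat_mul, Real.exp_log hn0, ← Real.exp_nat_mul]
      norm_num
    have h3 : (Real.exp 1) ^ 2 ≤ 9 := by
      have := Real.exp_one_lt_d9
      have h0 := Real.exp_pos 1
      nlinarith
    have h4 : (0 : ℝ) < (n : ℝ) ^ A := by positivity
    rw [h2] at h1
    nlinarith
  have hkX : (k : ℝ) + 1 ≤ X := by
    have := Real.add_one_le_exp ((k : ℝ) + 1)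
    linarith
  have h8 : (8 : ℝ) ^ (k + 1) ≤ X ^ 3 := by
    have h1 : (8 : ℝ) ≤ (Real.exp 1) ^ 3 := by
      have := Real.exp_one_gt_d9
      have h2 : (2 : ℝ) ≤ Real.exp 1 := by linarith
      calc (8 : ℝ) = 2 ^ 3 := by norm_num
        _ ≤ (Real.exp 1) ^ 3 := by gcongr
    calc (8 : ℝ) ^ (k + 1) ≤ ((Real.exp 1) ^ 3) ^ (k + 1) := by gcongr
      _ = X ^ 3 := by
        rw [hX, ← pow_mul, mul_comm, pow_mul, ← Real.exp_nat_mul]
        push_cast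
        ring_nf
  have hlog0 : 0 ≤ Real.log (n + 1) := Real.log_nonneg (by linarith)
  have hlog : Real.log (n + 1) ≤ n := by
    have := Real.log_le_sub_one_of_pos (x := (n : ℝ) + 1) (by linarith)
    linarith
  have hA : X * ((k + 1) * Real.log (n + 1) + 1) + 1 ≤ 3 * X ^ 2 * n := by
    have h1 : ((k : ℝ) + 1) * Real.log (n + 1) ≤ X * n :=
      mul_le_mul hkX hlog hlog0 (by linarith)
    have h2 : X * (((k : ℝ) + 1) * Real.log (n + 1) + 1) ≤ X * (X * n + 1) := by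
      apply mul_le_mul_of_nonneg_left _ (by linarith)
      linarith
    have h3 : X ≤ X ^ 2 * n := by nlinarith [mul_le_mul hX1 hn1 (by norm_num) (by linarith)]
    have h4 : 1 ≤ X ^ 2 * n := by linarith
    nlinarith
  have hB : 8 ^ (k + 1) * (2 * ((n : ℝ) + 1) ^ 2) ≤ X ^ 3 * (8 * (n : ℝ) ^ 2) := by
    have h1 : 2 * ((n : ℝ) + 1) ^ 2 ≤ 8 * (n : ℝ) ^ 2 := by nlinarith
    exact mul_le_mul h8 h1 (by positivity) (by positivity)
  have hB2 : (8 ^ (k + 1) * (2 * ((n : ℝ) + 1) ^ 2)) ^ 2 ≤ (X ^ 3 * (8 * (n : ℝ) ^ 2)) ^ 2 := by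
    gcongr
  have hA0 : 0 ≤ X * ((k + 1) * Real.log (n + 1) + 1) + 1 := by positivity
  calc 4 * (X * ((k + 1) * Real.log (n + 1) + 1) + 1) *
        (8 ^ (k + 1) * (2 * ((n : ℝ) + 1) ^ 2)) ^ 2
      ≤ 4 * (3 * X ^ 2 * n) * (X ^ 3 * (8 * (n : ℝ) ^ 2)) ^ 2 := by
        apply mul_le_mul _ hB2 (by positivity) (by positivity)
        linarith
    _ = 768 * X ^ 8 * (n : ℝ) ^ 5 := by ring
    _ ≤ 768 * (9 * (n : ℝ) ^ A) ^ 8 * (n : ℝ) ^ 5 := by gcongr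
    _ = (768 * 9 ^ 8) * (n : ℝ) ^ (8 * A + 5) := by ring
    _ ≤ n * (n : ℝ) ^ (8 * A + 5) := by
        apply mul_le_mul_of_nonneg_right _ (by positivity)
        exact_mod_cast hn
    _ = (n : ℝ) ^ (8 * A + 6) := by ring

end AlgoSizeAux

theorem algo_poly (K : ℝ) : ∃ K' N : ℕ, ∀ n ≥ N, ∀ s t : Fin n, s ≠ t →
    BP (n ^ K') (ReachOrBig ⌈K * Real.log n⌉₊ s t) := by
  refine ⟨8 * ⌈K⌉₊ + 6, 768 * 9 ^ 8, fun n hn s t hst => ?_⟩
  obtain ⟨m, hm, hle⟩ := algo_bp ⌈K * Real.log n⌉₊ hst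
  refine hm.mono ?_
  have hn1 : (1 : ℝ) ≤ n := by
    have : 1 ≤ n := le_trans (by norm_num) hn
    exact_mod_cast this
  have hlog : 0 ≤ Real.log n := Real.log_nonneg hn1
  have hk : ((⌈K * Real.log n⌉₊ : ℕ) : ℝ) ≤ (⌈K⌉₊ : ℕ) * Real.log n + 1 := by
    have h1 : K * Real.log n ≤ (⌈K⌉₊ : ℕ) * Real.log n :=
      mul_le_mul_of_nonneg_right (Nat.le_ceil K) hlog
    have h2 : ⌈K * Real.log n⌉₊ ≤ ⌈((⌈K⌉₊ : ℕ) : ℝ) * Real.log n⌉₊ := Nat.ceil_mono h1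
    have h3 := Nat.ceil_lt_add_one (a := ((⌈K⌉₊ : ℕ) : ℝ) * Real.log n) (by positivity)
    have h4 : ((⌈K * Real.log n⌉₊ : ℕ) : ℝ) ≤ (⌈((⌈K⌉₊ : ℕ) : ℝ) * Real.log n⌉₊ : ℕ) := by
      exact_mod_cast h2
    linarith
  have := AlgoSizeAux.bound ⌈K⌉₊ n ⌈K * Real.log n⌉₊ hn hk
  have h5 : (m : ℝ) ≤ (n : ℝ) ^ (8 * ⌈K⌉₊ + 6) := hle.trans this
  exact_mod_cast h5

end Pool.Agent.Lib.NTh
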