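import Pool.Agent.Lib.NTh.Defs

/-!
Module NTh.BPBasic: closure properties of branching programs (difficulty: 1.8 h).

`BP m f` means: some list `l` of at most `m` nodes (`Nodes l`) contains `f`, or `f` is constant.

Proofs.
* `Nodes` can be appended: if `Nodes l` and `Nodes l'` then `Nodes (l ++ l')` (induction on `l`;
  `Known` is monotone in the list).
* `ite`: let `lf, lg, lh` be node lists for `f, g, h`.  By induction on `lf`: for every `Nodes l` with
  `Known l g`, `Known l h` there is a list `l'` with `Nodes l'`, `l'.length ≤ lf.length + l.length`,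
  all members of `l` known in `l'`, and for every `u` with `Known lf u` the property
  `fun G => (u G ∧ g G) ∨ (¬ u G ∧ h G)` is known in `l'`.  Step: the node `u = [e ? g' : h']` of `lf`
  becomes the node `[e ? (g' ? g : h) : (h' ? g : h)]` (`funext`, `propext`, cases on `e ∈ G`).
  Start with `l = lg ++ lh`.
* `and`, `or`, `not` are `ite` with constants (`f ∧ g = ite f g False`, `f ∨ g = ite f True g`,
  `¬ f = ite f False True`).
* `maj f g h = ite f (g ∨ h) (g ∧ h)`.
* `exists_list`: induction on the list with `or`.
* `comap`: by induction on the node list `l` of `f` over `E`: there is a node list `l'` over `E'` with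
  `l'.length ≤ l.length` such that for all `u` with `Known l u` the property `fun G => u (Φ G)` is known
  in `l'`.  Step for a node reading `e`: if membership of `e` in `Φ G` is membership of `e'` in `G`, add
  the node reading `e'`; if it is always true (false) nothing is added, the property is `g (Φ G)`
  (`h (Φ G)`).
-/

namespace Pool.Agent.Lib.NTh

open Pool.Agent.Lib.Pe46137 Pool.Agent.Lib.Pe46137X

variable {E E' : Type}

/-- at least two of the three propositions hold -/
def Maj (p q r : Prop) : Prop := (p ∧ (q ∨ r)) ∨ (q ∧ r)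

/-- a map between inputs each of whose output bits is an input bit or constant -/
def Projection (Φ : Set E' → Set E) : Prop :=
  ∀ e, (∃ e', ∀ G, e ∈ Φ G ↔ e' ∈ G) ∨ (∀ G, e ∈ Φ G) ∨ ∀ G, e ∉ Φ G

namespace BPBasicAux

theorem known_mono {l l' : List (Set E → Prop)} {g : Set E → Prop} (h : Known l g)
    (hl : ∀ x ∈ l, x ∈ l') : Known l' g := by
  rcases h with h | h | h
  · exact Or.inl (hl g h)
  · exact Or.inr (Or.inl h)
  · exact Or.inr (Or.inr h)

theorem nodes_append {l l' : List (Set E → Prop)} (h : Nodes l) (h' : Nodes l') :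
    Nodes (l ++ l') := by
  induction h with
  | nil => exact h'
  | cons e g k _ hg hk ih =>
    exact Nodes.cons e g k ih (known_mono hg fun x hx => List.mem_append_left _ hx)
      (known_mono hk fun x hx => List.mem_append_left _ hx)

theorem known_const (l : List (Set E → Prop)) (p : Prop) : Known l (fun _ => p) := by
  by_cases hp : p
  · exact Or.inr (Or.inl (funext fun _ => propext ⟨fun _ => trivial, fun _ => hp⟩))
  · exact Or.inr (Or.inr (funext fun _ => propext ⟨fun h => (hp h).elim, fun h => h.elim⟩))

theorem ite_aux {lf : List (Set E → Prop)} (hf : Nodes lf) {g h : Set E → Prop}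
    {l : List (Set E → Prop)} (hl : Nodes l) (hg : Known l g) (hh : Known l h) :
    ∃ l', Nodes l' ∧ l'.length ≤ lf.length + l.length ∧
      ∀ u, Known lf u → Known l' (fun G => (u G ∧ g G) ∨ (¬ u G ∧ h G)) := by
  induction hf with
  | nil =>
    refine ⟨l, hl, by simp, fun u hu => ?_⟩
    rcases hu with hu | hu | hu
    · exact absurd hu List.not_mem_nil
    · subst hu
      simpa using hg
    · subst hu
      simpa using hh
  | @cons lf e g' h' _ hg' hh' ih =>
    obtain ⟨l', hl', hlen, hk⟩ := ih
    refine ⟨_, Nodes.cons e _ _ hl' (hk g' hg') (hk h' hh'), ?_, fun u hu => ?_⟩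
    · simp only [List.length_cons]
      omega
    · have hold : Known lf u → Known
          ((fun G => (e ∈ G ∧ ((g' G ∧ g G) ∨ (¬ g' G ∧ h G))) ∨
            (e ∉ G ∧ ((h' G ∧ g G) ∨ (¬ h' G ∧ h G)))) :: l')
          (fun G => (u G ∧ g G) ∨ (¬ u G ∧ h G)) := fun hu' =>
        known_mono (hk u hu') fun x hx => List.mem_cons_of_mem _ hx
      rcases hu with hu | hu | hu
      · rcases List.mem_cons.1 hu with hu' | hu'
        · refine Or.inl (List.mem_cons.2 (Or.inl ?_))
          subst hu'
          funext G
          refine propext ?_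
          by_cases he : e ∈ G <;> simp [he]
        · exact hold (Or.inl hu')
      · exact hold (Or.inr (Or.inl hu))
      · exact hold (Or.inr (Or.inr hu))

theorem comap_aux {Φ : Set E' → Set E} (hΦ : Projection Φ) {l : List (Set E → Prop)}
    (hl : Nodes l) : ∃ l', Nodes l' ∧ l'.length ≤ l.length ∧
      ∀ u, Known l u → Known l' (fun G => u (Φ G)) := by
  induction hl with
  | nil =>
    refine ⟨[], Nodes.nil, le_rfl, fun u hu => ?_⟩
    rcases hu with hu | hu | hu
    · exact absurd hu List.not_mem_nil
    · subst hu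
      exact Or.inr (Or.inl rfl)
    · subst hu
      exact Or.inr (Or.inr rfl)
  | @cons l e g h _ hg hh ih =>
    obtain ⟨l', hl', hlen, hk⟩ := ih
    rcases hΦ e with ⟨e', he⟩ | he | he
    · refine ⟨_, Nodes.cons e' _ _ hl' (hk g hg) (hk h hh), ?_, fun u hu => ?_⟩
      · simp only [List.length_cons]
        omega
      · have hold : Known l u → Known
            ((fun G => (e' ∈ G ∧ g (Φ G)) ∨ (e' ∉ G ∧ h (Φ G))) :: l')
            (fun G => u (Φ G)) := fun hu' =>
          known_mono (hk u hu') fun x hx => List.mem_cons_of_mem _ hx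
        rcases hu with hu | hu | hu
        · rcases List.mem_cons.1 hu with hu' | hu'
          · refine Or.inl (List.mem_cons.2 (Or.inl ?_))
            subst hu'
            funext G
            simp only [he G]
          · exact hold (Or.inl hu')
        · exact hold (Or.inr (Or.inl hu))
        · exact hold (Or.inr (Or.inr hu))
    · refine ⟨l', hl', by simp only [List.length_cons]; omega, fun u hu => ?_⟩
      rcases hu with hu | hu | hu
      · rcases List.mem_cons.1 hu with hu' | hu'
        · subst hu'
          have h1 : (fun G : Set E' => (e ∈ Φ G ∧ g (Φ G)) ∨ (e ∉ Φ G ∧ h (Φ G))) =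
              fun G => g (Φ G) := by
            funext G
            simp [he G]
          rw [h1]
          exact hk g hg
        · exact hk u (Or.inl hu')
      · exact hk u (Or.inr (Or.inl hu))
      · exact hk u (Or.inr (Or.inr hu))
    · refine ⟨l', hl', by simp only [List.length_cons]; omega, fun u hu => ?_⟩
      rcases hu with hu | hu | hu
      · rcases List.mem_cons.1 hu with hu' | hu'
        · subst hu'
          have h1 : (fun G : Set E' => (e ∈ Φ G ∧ g (Φ G)) ∨ (e ∉ Φ G ∧ h (Φ G))) =
              fun G => h (Φ G) := by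
            funext G
            simp [he G]
          rw [h1]
          exact hk h hh
        · exact hk u (Or.inl hu')
      · exact hk u (Or.inr (Or.inl hu))
      · exact hk u (Or.inr (Or.inr hu))

end BPBasicAux

open BPBasicAux

theorem BP.mono {m m' : ℕ} {f : Set E → Prop} (h : BP m f) (hm : m ≤ m') : BP m' f := by
  obtain ⟨l, h1, h2, h3⟩ := h
  exact ⟨l, h1, h2.trans hm, h3⟩

theorem BP.const (p : Prop) : BP 0 (fun _ : Set E => p) :=
  ⟨[], Nodes.nil, le_rfl, known_const [] p⟩

theorem BP.lit (e : E) : BP 1 (fun G : Set E => e ∈ G) := by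
  refine ⟨_, Nodes.cons e (fun _ => True) (fun _ => False) Nodes.nil (known_const _ _)
    (known_const _ _), le_rfl, Or.inl (List.mem_cons.2 (Or.inl ?_))⟩
  funext G
  simp

theorem BP.ite {a b c : ℕ} {f g h : Set E → Prop} (hf : BP a f) (hg : BP b g) (hh : BP c h) :
    BP (a + b + c) (fun G => (f G ∧ g G) ∨ (¬ f G ∧ h G)) := by
  obtain ⟨lf, hf1, hf2, hf3⟩ := hf
  obtain ⟨lg, hg1, hg2, hg3⟩ := hg
  obtain ⟨lh, hh1, hh2, hh3⟩ := hh
  obtain ⟨l', h1, h2, h3⟩ := ite_aux hf1 (nodes_append hg1 hh1)
    (known_mono hg3 fun x hx => List.mem_append_left _ hx)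
    (known_mono hh3 fun x hx => List.mem_append_right _ hx)
  refine ⟨l', h1, ?_, h3 f hf3⟩
  rw [List.length_append] at h2
  omega

theorem BP.not {a : ℕ} {f : Set E → Prop} (hf : BP a f) : BP a (fun G => ¬ f G) := by
  have h := BP.ite hf (BP.const False) (BP.const True)
  have h1 : (fun G => (f G ∧ False) ∨ (¬ f G ∧ True)) = fun G => ¬ f G := by
    funext G
    simp
  rw [h1] at h
  simpa using h

theorem BP.and {a b : ℕ} {f g : Set E → Prop} (hf : BP a f) (hg : BP b g) :
    BP (a + b) (fun G => f G ∧ g G) := by
  have h := BP.ite hf hg (BP.const False)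
  have h1 : (fun G => (f G ∧ g G) ∨ (¬ f G ∧ False)) = fun G => f G ∧ g G := by
    funext G
    simp
  rw [h1] at h
  simpa using h

theorem BP.or {a b : ℕ} {f g : Set E → Prop} (hf : BP a f) (hg : BP b g) :
    BP (a + b) (fun G => f G ∨ g G) := by
  have h := BP.ite hf (BP.const True) hg
  have h1 : (fun G => (f G ∧ True) ∨ (¬ f G ∧ g G)) = fun G => f G ∨ g G := by
    funext G
    refine propext ?_
    by_cases hfG : f G <;> simp [hfG]
  rw [h1] at h
  simpa using h

theorem BP.maj {a : ℕ} {f g h : Set E → Prop} (hf : BP a f) (hg : BP a g) (hh : BP a h) :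
    BP (5 * a) (fun G => Maj (f G) (g G) (h G)) := by
  have h2 := BP.ite hf (BP.or hg hh) (BP.and hg hh)
  have h1 : (fun G => (f G ∧ (g G ∨ h G)) ∨ (¬ f G ∧ (g G ∧ h G))) =
      fun G => Maj (f G) (g G) (h G) := by
    funext G
    refine propext ?_
    unfold Maj
    tauto
  rw [h1] at h2
  exact h2.mono (by omega)

theorem BP.exists_list {ι : Type} {m : ℕ} (l : List ι) (F : ι → Set E → Prop)
    (h : ∀ i ∈ l, BP m (F i)) : BP (l.length * m) (fun G => ∃ i ∈ l, F i G) := by
  induction l with
  | nil =>
    have h1 : (fun G : Set E => ∃ i ∈ ([] : List ι), F i G) = fun _ => False := by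
      funext G
      simp
    rw [h1]
    simpa using (BP.const (E := E) False)
  | cons a l ih =>
    have h2 := BP.or (h a List.mem_cons_self) (ih fun i hi => h i (List.mem_cons_of_mem _ hi))
    have h1 : (fun G => F a G ∨ ∃ i ∈ l, F i G) = fun G => ∃ i ∈ a :: l, F i G := by
      funext G
      simp
    rw [h1] at h2
    refine h2.mono (le_of_eq ?_)
    rw [List.length_cons]
    ring

theorem BP.comap {m : ℕ} {f : Set E → Prop} (hf : BP m f) {Φ : Set E' → Set E}
    (hΦ : Projection Φ) : BP m (fun G => f (Φ G)) := by
  obtain ⟨l, h1, h2, h3⟩ := hf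
  obtain ⟨l', h1', h2', h3'⟩ := comap_aux hΦ h1
  exact ⟨l', h1', h2'.trans h2, h3' f h3⟩

end Pool.Agent.Lib.NTh
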