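import Pool.Agent.Lib.NTh.Prob
import Pool.Agent.Lib.NTh.BPBasic

/-!
Module NTh.Amplify: amplification by recursive majorities of three (difficulty: 2 h).

`P a f` reads `f` has size at most `a`.

Proof.  Let `φ e = 3 e^2 - 2 e^3`, increasing on `[0,1]`.
(1) If the random `f` (weights `w` on a finite type `Ω`) errs at `x` with probability `e_x`, then
`Maj f f' f''` with three independent copies (type `Ω × Ω × Ω`, product weights) errs at `x` with
probability exactly `φ e_x` (if the target is true it errs iff at least two of the copies are false;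
expand the sum of products), and has size `B a`.
(2) So by induction on `j` there are for every `j` a finite type and weights with all members of size
at most `B^j a` and error `≤ φ^[j] e` at every `x`, if the error at the start is `≤ e` at every `x`.
(3) `φ (1/2 - d) = 1/2 - (3/2) d + 2 d^3 ≤ 1/2 - (11/8) d` for `0 ≤ d ≤ 1/4`; and `φ e ≤ 1/4` for `e ≤ 1/4`.
So after `J1` steps with `(11/8)^J1 δ ≥ 1/4` the error is `≤ 1/4` (as long as `(11/8)^j δ ≤ 1/4` it is at
most `1/2 - (11/8)^j δ`; afterwards it stays `≤ 1/4`).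
(4) `3 φ e ≤ (3 e)^2`, so after `J2` more steps `3 e ≤ (3/4)^(2^J2)`.
(5) `card X * error < 1`: the sum over `x` of the error probabilities is `< 1`, so some member errs
nowhere (`∑_ω w ω (number of errors of ω) < 1 = ∑_ω w ω`); it equals the target (`funext`, `propext`).
`amplify_prob`: `Ω = Finset E`, `w R = ∏_{e ∈ R} q e ∏_{e ∉ R} (1 - q e)`, sum `1` by `prob_true`.
-/

namespace Pool.Agent.Lib.NTh

open Pool.Agent.Lib.Pe46137 Pool.Agent.Lib.Pe46137X

namespace AmplifyAux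

/-- the error probability of the majority of three independent copies -/
noncomputable def ph (e : ℝ) : ℝ := 3 * e ^ 2 - 2 * e ^ 3

theorem ph_mono {e e' : ℝ} (h0 : 0 ≤ e) (h : e ≤ e') (h1 : e' ≤ 1) : ph e ≤ ph e' := by
  unfold ph
  have h2 : ph e' - ph e = (e' - e) * (e * (3 - 2 * e - e') + e' * (3 - 2 * e' - e)) := by
    unfold ph
    ring
  unfold ph at h2
  have h3 : 0 ≤ e * (3 - 2 * e - e') + e' * (3 - 2 * e' - e) := by
    have h4 : 0 ≤ e * (3 - 2 * e - e') := mul_nonneg h0 (by linarith)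
    have h5 : 0 ≤ e' * (3 - 2 * e' - e) := mul_nonneg (by linarith) (by linarith)
    linarith
  have h6 := mul_nonneg (sub_nonneg.2 h) h3
  linarith

theorem sum3 {Ω : Type} [Fintype Ω] (f g h : Ω → ℝ) :
    ∑ o : Ω × Ω × Ω, f o.1 * (g o.2.1 * h o.2.2) = (∑ o, f o) * ((∑ o, g o) * ∑ o, h o) := by
  rw [Fintype.sum_prod_type, Finset.sum_mul]
  refine Finset.sum_congr rfl fun o _ => ?_
  rw [Fintype.sum_prod_type, Finset.sum_mul, Finset.mul_sum]
  refine Finset.sum_congr rfl fun o' _ => ?_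
  rw [Finset.mul_sum, Finset.mul_sum]

/-- the error at `x` -/
noncomputable def er {X : Type} {Ω : Type} [Fintype Ω] (w : Ω → ℝ) (F : Ω → X → Prop)
    (target : X → Prop) (x : X) : ℝ :=
  ∑ ω, w ω * (open Classical in if (F ω x ↔ target x) then (0 : ℝ) else 1)

theorem er_nonneg {X : Type} {Ω : Type} [Fintype Ω] {w : Ω → ℝ} (hw : ∀ ω, 0 ≤ w ω)
    (F : Ω → X → Prop) (target : X → Prop) (x : X) : 0 ≤ er w F target x := by
  refine Finset.sum_nonneg fun ω _ => mul_nonneg (hw ω) ?_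
  split_ifs
  · exact le_refl 0
  · exact zero_le_one

theorem er_maj {X : Type} {Ω : Type} [Fintype Ω] {w : Ω → ℝ} (hw1 : ∑ ω, w ω = 1)
    (F : Ω → X → Prop) (target : X → Prop) (x : X) :
    er (fun o : Ω × Ω × Ω => w o.1 * (w o.2.1 * w o.2.2))
      (fun o x => Maj (F o.1 x) (F o.2.1 x) (F o.2.2 x)) target x = ph (er w F target x) := by
  classical
  set u : Ω → ℝ := fun ω => w ω * (if (F ω x ↔ target x) then (0 : ℝ) else 1) with hu
  have hue : ∑ ω, u ω = er w F target x := by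
    unfold er
    refine Finset.sum_congr rfl fun ω _ => ?_
    rw [hu]
  have hterm : ∀ o : Ω × Ω × Ω, (w o.1 * (w o.2.1 * w o.2.2)) *
      (if (Maj (F o.1 x) (F o.2.1 x) (F o.2.2 x) ↔ target x) then (0 : ℝ) else 1) =
      u o.1 * (u o.2.1 * w o.2.2) + u o.1 * (w o.2.1 * u o.2.2) + w o.1 * (u o.2.1 * u o.2.2)
        - 2 * (u o.1 * (u o.2.1 * u o.2.2)) := by
    rintro ⟨o1, o2, o3⟩
    simp only [hu]
    unfold Maj
    by_cases h1 : F o1 x <;> by_cases h2 : F o2 x <;> by_cases h3 : F o3 x <;>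
      by_cases h4 : target x <;> simp [h1, h2, h3, h4] <;> ring
  have hsum : er (fun o : Ω × Ω × Ω => w o.1 * (w o.2.1 * w o.2.2))
      (fun o x => Maj (F o.1 x) (F o.2.1 x) (F o.2.2 x)) target x =
      ∑ o : Ω × Ω × Ω, (u o.1 * (u o.2.1 * w o.2.2) + u o.1 * (w o.2.1 * u o.2.2)
        + w o.1 * (u o.2.1 * u o.2.2) - 2 * (u o.1 * (u o.2.1 * u o.2.2))) := by
    unfold er
    refine Finset.sum_congr rfl fun o _ => ?_
    rw [← hterm o]
  rw [hsum, Finset.sum_sub_distrib, Finset.sum_add_distrib, Finset.sum_add_distrib,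
    ← Finset.mul_sum, sum3, sum3, sum3, sum3, hue, hw1]
  unfold ph
  ring

/-- there is a random property of size at most `n` with error at most `e` everywhere -/
def Have {X : Type} (P : ℕ → (X → Prop) → Prop) (target : X → Prop) (n : ℕ) (e : ℝ) : Prop :=
  ∃ (Ω : Type) (_ : Fintype Ω) (w : Ω → ℝ) (F : Ω → X → Prop), (∀ ω, 0 ≤ w ω) ∧ ∑ ω, w ω = 1 ∧
    (∀ ω, P n (F ω)) ∧ ∀ x, er w F target x ≤ e

theorem Have.mono {X : Type} {P : ℕ → (X → Prop) → Prop} {target : X → Prop} {n : ℕ} {e e' : ℝ}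
    (h : Have P target n e) (he : e ≤ e') : Have P target n e' := by
  obtain ⟨Ω, i, w, F, h1, h2, h3, h4⟩ := h
  exact ⟨Ω, i, w, F, h1, h2, h3, fun x => (h4 x).trans he⟩

theorem Have.step {X : Type} {P : ℕ → (X → Prop) → Prop} {B : ℕ}
    (hP : ∀ a f g h, P a f → P a g → P a h → P (B * a) (fun x => Maj (f x) (g x) (h x)))
    {target : X → Prop} {n : ℕ} {e : ℝ} (he : e ≤ 1) (h : Have P target n e) :
    Have P target (B * n) (ph e) := by
  obtain ⟨Ω, i, w, F, h1, h2, h3, h4⟩ := h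
  refine ⟨Ω × Ω × Ω, inferInstance, fun o => w o.1 * (w o.2.1 * w o.2.2),
    fun o x => Maj (F o.1 x) (F o.2.1 x) (F o.2.2 x), ?_, ?_, ?_, ?_⟩
  · intro o
    exact mul_nonneg (h1 _) (mul_nonneg (h1 _) (h1 _))
  · rw [sum3, h2]
    norm_num
  · intro o
    exact hP _ _ _ _ (h3 _) (h3 _) (h3 _)
  · intro x
    rw [er_maj h2]
    exact ph_mono (er_nonneg h1 F target x) (h4 x) he

theorem have_one {X : Type} {P : ℕ → (X → Prop) → Prop} {B : ℕ}
    (hP : ∀ a f g h, P a f → P a g → P a h → P (B * a) (fun x => Maj (f x) (g x) (h x)))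
    {target : X → Prop} {a : ℕ} {δ : ℝ} (hδ : 0 < δ)
    (h : Have P target a (1 / 2 - δ)) (j : ℕ) :
    Have P target (B ^ j * a) (1 / 2 - min (1 / 4) ((11 / 8 : ℝ) ^ j * δ)) := by
  induction j with
  | zero =>
    rw [pow_zero, one_mul, pow_zero, one_mul]
    refine h.mono ?_
    have := min_le_right (1 / 4 : ℝ) δ
    linarith
  | succ j ih =>
    set d : ℝ := min (1 / 4) ((11 / 8 : ℝ) ^ j * δ) with hd
    have hpos : 0 < (11 / 8 : ℝ) ^ j * δ := by positivity
    have hd0 : 0 < d := lt_min (by norm_num) hpos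
    have hd1 : d ≤ 1 / 4 := min_le_left _ _
    have h1 := ih.step hP (by linarith)
    have e1 : B * (B ^ j * a) = B ^ (j + 1) * a := by ring
    rw [e1] at h1
    refine h1.mono ?_
    have e2 : ph (1 / 2 - d) = 1 / 2 - (3 / 2) * d + 2 * d ^ 3 := by
      unfold ph
      ring
    have e3 : 2 * d ^ 3 ≤ (1 / 8) * d := by
      have h5 : 0 ≤ d * ((1 / 4 - d) * (1 / 4 + d)) :=
        mul_nonneg hd0.le (mul_nonneg (by linarith) (by linarith))
      nlinarith [h5]
    have e4 : min (1 / 4) ((11 / 8 : ℝ) ^ (j + 1) * δ) ≤ (11 / 8) * d := by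
      rcases le_total (1 / 4 : ℝ) ((11 / 8 : ℝ) ^ j * δ) with h6 | h6
      · have : d = 1 / 4 := min_eq_left h6
        rw [this]
        exact (min_le_left _ _).trans (by norm_num)
      · have : d = (11 / 8 : ℝ) ^ j * δ := min_eq_right h6
        rw [this]
        refine (min_le_right _ _).trans (le_of_eq ?_)
        ring
    rw [e2]
    linarith

theorem have_two {X : Type} {P : ℕ → (X → Prop) → Prop} {B : ℕ}
    (hP : ∀ a f g h, P a f → P a g → P a h → P (B * a) (fun x => Maj (f x) (g x) (h x)))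
    {target : X → Prop} {a : ℕ} (h : Have P target a (1 / 4)) (j : ℕ) :
    Have P target (B ^ j * a) ((3 / 4 : ℝ) ^ (2 ^ j) / 3) := by
  induction j with
  | zero =>
    rw [pow_zero, one_mul, pow_zero, pow_one]
    exact h.mono (by norm_num)
  | succ j ih =>
    have hle : (3 / 4 : ℝ) ^ (2 ^ j) ≤ 1 := pow_le_one₀ (by norm_num) (by norm_num)
    have hpos : 0 < (3 / 4 : ℝ) ^ (2 ^ j) := by positivity
    have h1 := ih.step hP (by linarith)
    have e1 : B * (B ^ j * a) = B ^ (j + 1) * a := by ring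
    rw [e1] at h1
    refine h1.mono ?_
    have e2 : (3 / 4 : ℝ) ^ (2 ^ (j + 1)) = ((3 / 4 : ℝ) ^ (2 ^ j)) ^ 2 := by
      rw [← pow_mul, pow_succ 2 j]
    rw [e2]
    unfold ph
    set y := (3 / 4 : ℝ) ^ (2 ^ j) with hy
    have h3 : 0 < y ^ 3 := by positivity
    have e3 : 3 * (y / 3) ^ 2 - 2 * (y / 3) ^ 3 = y ^ 2 / 3 - 2 / 27 * y ^ 3 := by ring
    rw [e3]
    linarith

theorem final {X : Type} [Fintype X] {P : ℕ → (X → Prop) → Prop} {target : X → Prop} {n : ℕ}
    {e : ℝ} (h : Have P target n e) (he : (Fintype.card X : ℝ) * e < 1) : P n target := by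
  classical
  obtain ⟨Ω, i, w, F, h1, h2, h3, h4⟩ := h
  by_contra hc
  have hbad : ∀ ω, ∃ x, ¬ (F ω x ↔ target x) := by
    intro ω
    by_contra hno
    push Not at hno
    have : F ω = target := funext fun x => propext (by
      have := hno x
      tauto)
    exact hc (this ▸ h3 ω)
  have hge : ∀ ω, w ω ≤ ∑ x, w ω * (if (F ω x ↔ target x) then (0 : ℝ) else 1) := by
    intro ω
    obtain ⟨x, hx⟩ := hbad ω
    have hnn : ∀ y ∈ Finset.univ, 0 ≤ w ω * (if (F ω y ↔ target y) then (0 : ℝ) else 1) := by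
      intro y _
      refine mul_nonneg (h1 ω) ?_
      split_ifs
      · exact le_refl 0
      · exact zero_le_one
    have := Finset.single_le_sum hnn (Finset.mem_univ x)
    rw [if_neg hx, mul_one] at this
    exact this
  have hle : ∀ x, ∑ ω, w ω * (if (F ω x ↔ target x) then (0 : ℝ) else 1) ≤ e := by
    intro x
    refine le_trans (le_of_eq ?_) (h4 x)
    unfold er
    refine Finset.sum_congr rfl fun ω _ => ?_
    by_cases h : (F ω x ↔ target x)
    · rw [if_pos h]
    · rw [if_neg h]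
  have : (1 : ℝ) ≤ (Fintype.card X : ℝ) * e := by
    calc (1 : ℝ) = ∑ ω, w ω := h2.symm
      _ ≤ ∑ ω, ∑ x, w ω * (if (F ω x ↔ target x) then (0 : ℝ) else 1) :=
        Finset.sum_le_sum fun ω _ => hge ω
      _ = ∑ x, ∑ ω, w ω * (if (F ω x ↔ target x) then (0 : ℝ) else 1) := Finset.sum_comm
      _ ≤ ∑ _x : X, e := Finset.sum_le_sum fun x _ => hle x
      _ = (Fintype.card X : ℝ) * e := by
        rw [Finset.sum_const, Finset.card_univ, nsmul_eq_mul]
  linarith

end AmplifyAux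

open Classical in
theorem amplify {X : Type} [Fintype X] (P : ℕ → (X → Prop) → Prop) (B : ℕ)
    (hP : ∀ a f g h, P a f → P a g → P a h → P (B * a) (fun x => Maj (f x) (g x) (h x)))
    {Ω : Type} [Fintype Ω] (w : Ω → ℝ) (hw : ∀ ω, 0 ≤ w ω) (hw1 : ∑ ω, w ω = 1)
    (F : Ω → X → Prop) (a : ℕ) (hF : ∀ ω, P a (F ω)) (target : X → Prop) (δ : ℝ) (hδ : 0 < δ) (hδ1 : δ ≤ 1 / 2)
    (herr : ∀ x, ∑ ω, (if (F ω x ↔ target x) then 0 else w ω) ≤ 1 / 2 - δ) (J1 J2 : ℕ)
    (h1 : 1 / 4 ≤ (11 / 8 : ℝ) ^ J1 * δ)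
    (h2 : (Fintype.card X : ℝ) * (3 / 4) ^ (2 ^ J2) < 3) : P (B ^ (J1 + J2) * a) target := by
  have h0 : AmplifyAux.Have P target a (1 / 2 - δ) := by
    refine ⟨Ω, inferInstance, w, F, hw, hw1, hF, fun x => ?_⟩
    refine le_trans (le_of_eq ?_) (herr x)
    unfold AmplifyAux.er
    refine Finset.sum_congr rfl fun ω _ => ?_
    by_cases h : (F ω x ↔ target x)
    · rw [if_pos h, if_pos h, mul_zero]
    · rw [if_neg h, if_neg h, mul_one]
  have h3 := AmplifyAux.have_one hP hδ h0 J1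
  rw [min_eq_left h1] at h3
  have h4 := AmplifyAux.have_two hP (h3.mono (by norm_num)) J2
  have e1 : B ^ J2 * (B ^ J1 * a) = B ^ (J1 + J2) * a := by
    rw [pow_add]
    ring
  rw [e1] at h4
  refine AmplifyAux.final h4 ?_
  rw [← mul_div_assoc, div_lt_one (by norm_num)]
  exact h2

theorem amplify_prob {E X : Type} [Fintype E] [Fintype X] (P : ℕ → (X → Prop) → Prop) (B : ℕ)
    (hP : ∀ a f g h, P a f → P a g → P a h → P (B * a) (fun x => Maj (f x) (g x) (h x)))
    {q : E → ℝ} (hq : ∀ e, 0 ≤ q e) (hq1 : ∀ e, q e ≤ 1)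
    (F : Set E → X → Prop) (a : ℕ) (hF : ∀ R, P a (F R)) (target : X → Prop) (δ : ℝ) (hδ : 0 < δ) (hδ1 : δ ≤ 1 / 2)
    (herr : ∀ x, prob q (fun R => ¬ (F R x ↔ target x)) ≤ 1 / 2 - δ) (J1 J2 : ℕ)
    (h1 : 1 / 4 ≤ (11 / 8 : ℝ) ^ J1 * δ)
    (h2 : (Fintype.card X : ℝ) * (3 / 4) ^ (2 ^ J2) < 3) : P (B ^ (J1 + J2) * a) target := by
  classical
  set w : Finset E → ℝ := fun R => (∏ e ∈ R, q e) * ∏ e ∈ Rᶜ, (1 - q e) with hw
  have hprob : ∀ A : Set E → Prop, prob q A = ∑ R : Finset E, if A (R : Set E) then w R else 0 := by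
    intro A
    unfold prob
    refine Finset.sum_congr rfl fun R _ => ?_
    by_cases h : A (R : Set E)
    · rw [if_pos h]
    · rw [if_neg h]
  refine amplify P B hP w ?_ ?_ (fun R => F (R : Set E)) a (fun R => hF _) target δ hδ hδ1 ?_
    J1 J2 h1 h2
  · intro R
    refine mul_nonneg (Finset.prod_nonneg fun e _ => hq e) (Finset.prod_nonneg fun e _ => ?_)
    have := hq1 e
    linarith
  · have h3 := hprob (fun _ => True)
    rw [prob_true] at h3
    rw [h3]
    refine Finset.sum_congr rfl fun R _ => ?_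
    rw [if_pos trivial]
  · intro x
    refine le_trans (le_of_eq ?_) (herr x)
    rw [hprob]
    refine Finset.sum_congr rfl fun R _ => ?_
    by_cases h : (F (R : Set E) x ↔ target x)
    · rw [if_pos h, if_neg (not_not.2 h)]
    · rw [if_neg h, if_pos h]

end Pool.Agent.Lib.NTh
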