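import Pool.Agent.Lib.NTh.CritPath
import Pool.Agent.Lib.NTh.BPBasic

/-!
Module NTh.CritEmb: a small instance inside a large noisy digraph (difficulty: 1.8 h).

`ι : Fin m → Fin n` is injective, `emb ι G` the image of the digraph `G`.

Proofs.
* `emb_projection`: `e ∈ emb ι G ∪ R` is always true for `e ∈ R`, is `e' ∈ G` if `e ∉ R` is the image of
  `e'` (unique as `ι` is injective), and is always false otherwise.
* `emb_reachable`: if no two different vertices `u ≠ v` of the range of `ι` are joined in `R`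
  (`¬ Reachable R u v`), then `Reachable (emb ι G ∪ R) (ι s) (ι t) ↔ Reachable G s t`.  Right to left is
  clear.  Left to right: by induction along the walk, every vertex `x` reachable from `ι s` satisfies:
  there is `a` with `Reachable G s a` and `Reachable R (ι a) x`.  Step along an arc `x → y` of `R`: clear.
  Step along `x → y` in `emb ι G`: `x = ι b`, `y = ι b'`, `(b, b') ∈ G`; by hypothesis `ι a = ι b`, so
  `a = b` and `Reachable G s b'`.  At the end `x = ι t` gives `a = t`.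
* `noise_emb`: union bound over the at most `m^2` pairs.
* `noise_crit`: `path_prob` with `path_sum_crit` (`c = 1`) or `path_sum_sub` (`c < 1`): the bound is
  `m^2 * 3 / √n`, resp. `m^2 / ((1-c) n)`.  Choose `r` with `r (1/2 - b) ≥ 3` (resp. `r (1 - b) ≥ 3`) and
  `N` with `6 ≤ N` (resp. `2/(1-c) ≤ N`): for `n ≥ m^r` one has `n^(1/2-b) ≥ m^3 ≥ 6 m^2`, that is
  `3 m^2 n^(-1/2) ≤ n^(-b) / 2`; the other case is the same.  Take `r ≥ 1`.
-/

namespace Pool.Agent.Lib.NTh

open Pool.Agent.Lib.Pe46137 Pool.Agent.Lib.Pe46137X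

variable {m n : ℕ}

/-- the image of a digraph under a map of the vertices -/
def emb (ι : Fin m → Fin n) (G : Set (Fin m × Fin m)) : Set (Fin n × Fin n) :=
  (fun e => (ι e.1, ι e.2)) '' G

theorem emb_projection {ι : Fin m → Fin n} (hι : Function.Injective ι) (R : Set (Fin n × Fin n)) :
    Projection (fun G : Set (Fin m × Fin m) => emb ι G ∪ R) := by
  classical
  intro e
  by_cases he : e ∈ R
  · exact Or.inr (Or.inl fun G => Or.inr he)
  by_cases h : ∃ e' : Fin m × Fin m, (ι e'.1, ι e'.2) = e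
  · obtain ⟨e', he'⟩ := h
    refine Or.inl ⟨e', fun G => ⟨?_, fun h1 => Or.inl ⟨e', h1, he'⟩⟩⟩
    rintro (⟨x, hx, hxe⟩ | h1)
    · have h2 : (ι x.1, ι x.2) = (ι e'.1, ι e'.2) := hxe.trans he'.symm
      have h3 := Prod.mk.inj h2
      have h4 : x = e' := Prod.ext (hι h3.1) (hι h3.2)
      rw [← h4]
      exact hx
    · exact absurd h1 he
  · refine Or.inr (Or.inr fun G => ?_)
    rintro (⟨x, hx, hxe⟩ | h1)
    · exact h ⟨x, hxe⟩
    · exact he h1

theorem emb_reachable {ι : Fin m → Fin n} (hι : Function.Injective ι) (R : Set (Fin n × Fin n))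
    (hR : ∀ a b : Fin m, a ≠ b → ¬ Reachable R (ι a) (ι b)) (G : Set (Fin m × Fin m))
    (s t : Fin m) : Reachable (emb ι G ∪ R) (ι s) (ι t) ↔ Reachable G s t := by
  constructor
  · intro h
    have key : ∀ x, Reachable (emb ι G ∪ R) (ι s) x →
        ∃ a, Reachable G s a ∧ Reachable R (ι a) x := by
      intro x hx
      induction hx with
      | refl => exact ⟨s, Relation.ReflTransGen.refl, Relation.ReflTransGen.refl⟩
      | tail _ h2 ih =>
        obtain ⟨a, ha1, ha2⟩ := ih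
        rcases h2 with ⟨y, hy, hye⟩ | h2
        · have h3 := Prod.mk.inj hye
          have h4 : a = y.1 := by
            by_contra hne
            apply hR a y.1 hne
            rw [h3.1]
            exact ha2
          refine ⟨y.2, ?_, ?_⟩
          · rw [h4] at ha1
            exact Relation.ReflTransGen.tail ha1 hy
          · rw [h3.2]
            exact Relation.ReflTransGen.refl
        · exact ⟨a, ha1, Relation.ReflTransGen.tail ha2 h2⟩
    obtain ⟨a, ha1, ha2⟩ := key _ h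
    have h4 : a = t := by
      by_contra hne
      exact hR a t hne ha2
    rw [← h4]
    exact ha1
  · intro h
    have key : ∀ x, Reachable G s x → Reachable (emb ι G ∪ R) (ι s) (ι x) := by
      intro x hx
      induction hx with
      | refl => exact Relation.ReflTransGen.refl
      | tail _ h2 ih => exact Relation.ReflTransGen.tail ih (Or.inl ⟨_, h2, rfl⟩)
    exact key _ h

theorem noise_emb {ι : Fin m → Fin n} (hι : Function.Injective ι) {p β : ℝ} (hp : 0 ≤ p)
    (hp1 : p ≤ 1) (hβ0 : 0 ≤ β)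
    (hβ : ∀ u v : Fin n, u ≠ v → prob (fun _ : Fin n × Fin n => p) (fun R => Reachable R u v) ≤ β)
    (G : Set (Fin m × Fin m)) (s t : Fin m) :
    prob (fun _ : Fin n × Fin n => p)
      (fun R => ¬ (Reachable (emb ι G ∪ R) (ι s) (ι t) ↔ Reachable G s t)) ≤ (m : ℝ) ^ 2 * β := by
  classical
  have h0 : ∀ _ : Fin n × Fin n, 0 ≤ p := fun _ => hp
  have h1 : ∀ _ : Fin n × Fin n, p ≤ 1 := fun _ => hp1
  let s' : Finset (Fin m × Fin m) := Finset.univ.filter (fun q => q.1 ≠ q.2)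
  have e1 : prob (fun _ : Fin n × Fin n => p)
      (fun R => ¬ (Reachable (emb ι G ∪ R) (ι s) (ι t) ↔ Reachable G s t)) ≤
      prob (fun _ : Fin n × Fin n => p) (fun R => ∃ i ∈ s', Reachable R (ι i.1) (ι i.2)) := by
    apply prob_mono h0 h1
    intro R hR
    by_contra hcon
    apply hR
    apply emb_reachable hι
    intro a b hab h
    exact hcon ⟨(a, b), by simp [s', hab], h⟩
  have e2 : prob (fun _ : Fin n × Fin n => p)
      (fun R => ∃ i ∈ s', Reachable R (ι i.1) (ι i.2)) ≤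
      ∑ i ∈ s', prob (fun _ : Fin n × Fin n => p) (fun R => Reachable R (ι i.1) (ι i.2)) :=
    prob_exists_le s' (fun i R => Reachable R (ι i.1) (ι i.2)) h0 h1
  have e3 : (∑ i ∈ s', prob (fun _ : Fin n × Fin n => p) (fun R => Reachable R (ι i.1) (ι i.2))) ≤
      s'.card • β := by
    apply Finset.sum_le_card_nsmul
    intro i hi
    apply hβ
    intro e
    exact (Finset.mem_filter.1 hi).2 (hι e)
  have e4 : s'.card • β ≤ (m : ℝ) ^ 2 * β := by
    rw [nsmul_eq_mul]
    apply mul_le_mul_of_nonneg_right _ hβ0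
    have h2 : s'.card ≤ m * m := by
      calc s'.card ≤ (Finset.univ : Finset (Fin m × Fin m)).card := Finset.card_filter_le _ _
        _ = m * m := by simp
    calc (s'.card : ℝ) ≤ ((m * m : ℕ) : ℝ) := by exact_mod_cast h2
      _ = (m : ℝ) ^ 2 := by push_cast; ring
  exact e1.trans (e2.trans (e3.trans e4))

namespace CritEmbAux

theorem key {δ : ℝ} (hδ : 0 < δ) {r m n : ℕ} (hr : 3 ≤ (r : ℝ) * δ) (hm : 1 ≤ m)
    (h : m ^ r ≤ n) : (m : ℝ) ^ 3 ≤ (n : ℝ) ^ δ := by
  have h1 : (1 : ℝ) ≤ m := by exact_mod_cast hm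
  have h2 : ((m : ℝ) ^ r) ≤ n := by exact_mod_cast h
  calc (m : ℝ) ^ 3 = (m : ℝ) ^ (3 : ℝ) := by
        rw [← Real.rpow_natCast]
        norm_num
    _ ≤ (m : ℝ) ^ ((r : ℝ) * δ) := Real.rpow_le_rpow_of_exponent_le h1 hr
    _ = ((m : ℝ) ^ (r : ℝ)) ^ δ := Real.rpow_mul (by linarith) _ _
    _ = ((m : ℝ) ^ r) ^ δ := by rw [Real.rpow_natCast]
    _ ≤ (n : ℝ) ^ δ := Real.rpow_le_rpow (by positivity) h2 hδ.le

end CritEmbAux

theorem noise_crit {c b : ℝ} (hc : 0 ≤ c) (hb : 0 < b) (h : c < 1 ∧ b < 1 ∨ c = 1 ∧ b < 1 / 2) :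
    ∃ r N : ℕ, 1 ≤ r ∧ 1 ≤ N ∧ ∀ m n : ℕ, N ≤ m → m ^ r ≤ n →
      ∀ ι : Fin m → Fin n, Function.Injective ι → ∀ (G : Set (Fin m × Fin m)) (s t : Fin m),
      prob (fun _ : Fin n × Fin n => c / n)
        (fun R => ¬ (Reachable (emb ι G ∪ R) (ι s) (ι t) ↔ Reachable G s t)) ≤
        (1 / 2) * (n : ℝ) ^ (-b) := by
  rcases h with ⟨hc1, hb1⟩ | ⟨hc1, hb1⟩
  · have hδ : 0 < 1 - b := by linarith
    have hc' : 0 < 1 - c := by linarith
    obtain ⟨r, hr⟩ := exists_nat_ge (3 / (1 - b))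
    obtain ⟨N, hN⟩ := exists_nat_ge (2 / (1 - c))
    have hr' : 3 ≤ ((r + 1 : ℕ) : ℝ) * (1 - b) := by
      rw [div_le_iff₀ hδ] at hr
      push_cast
      nlinarith
    refine ⟨r + 1, N + 1, by omega, by omega, fun m n hm hmn ι hι G s t => ?_⟩
    have hm1 : 1 ≤ m := by omega
    have hn1 : 1 ≤ n := le_trans (Nat.one_le_pow _ _ (by omega)) hmn
    have hnR : (1 : ℝ) ≤ n := by exact_mod_cast hn1
    have hmR : (1 : ℝ) ≤ m := by exact_mod_cast hm1
    have hNm : (N : ℝ) + 1 ≤ m := by exact_mod_cast hm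
    have hk := CritEmbAux.key hδ hr' hm1 hmn
    have hp : 0 ≤ c / n := by positivity
    have hp1 : c / n ≤ 1 := by
      rw [div_le_one (by linarith)]
      linarith
    have h1 := noise_emb hι hp hp1 (β := 1 / ((1 - c) * n)) (by positivity)
      (fun u v huv => (path_prob hp hp1 huv).trans (path_sum_sub hn1 hc hc1)) G s t
    refine h1.trans ?_
    have h2 : (n : ℝ) ^ (-b) = (n : ℝ) ^ (1 - b) / n := by
      rw [show -b = (1 - b) - 1 by ring, Real.rpow_sub_one (by linarith)]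
    rw [h2]
    have h3 : 2 ≤ (m : ℝ) * (1 - c) := by
      rw [div_le_iff₀ hc'] at hN
      nlinarith
    have h4 : 2 * (m : ℝ) ^ 2 ≤ (1 - c) * (n : ℝ) ^ (1 - b) := by
      calc 2 * (m : ℝ) ^ 2 ≤ ((m : ℝ) * (1 - c)) * (m : ℝ) ^ 2 :=
            mul_le_mul_of_nonneg_right h3 (by positivity)
        _ = (1 - c) * (m : ℝ) ^ 3 := by ring
        _ ≤ (1 - c) * (n : ℝ) ^ (1 - b) := mul_le_mul_of_nonneg_left hk hc'.le
    have hnpos : (0 : ℝ) < n := by linarith
    rw [mul_one_div, div_le_iff₀ (by positivity)]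
    calc (m : ℝ) ^ 2 ≤ (1 - c) * (n : ℝ) ^ (1 - b) / 2 := by linarith
      _ = 1 / 2 * ((n : ℝ) ^ (1 - b) / n) * ((1 - c) * n) := by
        field_simp
  · have hδ : 0 < 1 / 2 - b := by linarith
    obtain ⟨r, hr⟩ := exists_nat_ge (3 / (1 / 2 - b))
    have hr' : 3 ≤ ((r + 1 : ℕ) : ℝ) * (1 / 2 - b) := by
      rw [div_le_iff₀ hδ] at hr
      push_cast
      nlinarith
    refine ⟨r + 1, 6, by omega, by omega, fun m n hm hmn ι hι G s t => ?_⟩
    have hm1 : 1 ≤ m := by omega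
    have hn1 : 1 ≤ n := le_trans (Nat.one_le_pow _ _ (by omega)) hmn
    have hnR : (1 : ℝ) ≤ n := by exact_mod_cast hn1
    have hmR : (6 : ℝ) ≤ m := by exact_mod_cast hm
    have hk := CritEmbAux.key hδ hr' hm1 hmn
    have hnpos : (0 : ℝ) < n := by linarith
    have hp : 0 ≤ c / n := by positivity
    have hp1 : c / n ≤ 1 := by
      rw [div_le_one hnpos]
      linarith
    have hsq : 0 < Real.sqrt n := Real.sqrt_pos.2 hnpos
    have h1 := noise_emb hι hp hp1 (β := 3 / Real.sqrt n) (by positivity)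
      (fun u v huv => (path_prob hp hp1 huv).trans
        (path_sum_crit hn1 hp (by rw [hc1]))) G s t
    refine h1.trans ?_
    have h2 : (n : ℝ) ^ (-b) = (n : ℝ) ^ (1 / 2 - b) / Real.sqrt n := by
      rw [show -b = (1 / 2 - b) - 1 / 2 by ring, Real.rpow_sub hnpos, Real.sqrt_eq_rpow]
    rw [h2]
    have h4 : 6 * (m : ℝ) ^ 2 ≤ (n : ℝ) ^ (1 / 2 - b) := by
      calc 6 * (m : ℝ) ^ 2 ≤ (m : ℝ) * (m : ℝ) ^ 2 :=
            mul_le_mul_of_nonneg_right hmR (by positivity)
        _ = (m : ℝ) ^ 3 := by ring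
        _ ≤ (n : ℝ) ^ (1 / 2 - b) := hk
    calc (m : ℝ) ^ 2 * (3 / Real.sqrt n) = (1 / 2) * (6 * (m : ℝ) ^ 2 / Real.sqrt n) := by ring
      _ ≤ (1 / 2) * ((n : ℝ) ^ (1 / 2 - b) / Real.sqrt n) := by
        apply mul_le_mul_of_nonneg_left _ (by norm_num)
        exact div_le_div_of_nonneg_right h4 hsq.le

end Pool.Agent.Lib.NTh
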