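import Pool.Agent.Lib.NTh.Prob

/-!
Module NTh.CritPath: at and below the critical noise two vertices are rarely joined by noise arcs
(difficulty: 2.2 h).

Proof.
* `path_prob`: if `v` is reachable from `u ≠ v` there is a path without repeated vertices
  `u, x_1, …, x_ℓ, v` (`ℓ + 2` distinct vertices, `ℓ < n`), all of whose `ℓ + 1` arcs are in `R`.  The arcs
  are distinct, so for a fixed sequence the probability is `p^(ℓ+1)` (`prob_subset`); the number of
  injective sequences `Fin ℓ → Fin n` is `n.descFactorial ℓ`.  Union bound (`prob_exists_le`).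
* `path_sum_crit`: `n.descFactorial ℓ / n^ℓ = ∏_{i<ℓ} (1 - i/n)`.  With `r = ⌈√n⌉₊` the terms `ℓ < r` are
  `≤ 1`, and for `ℓ = r + j` the product is `≤ (1 - r/n)^j ≤ (1 - 1/√n)^j`, with sum `≤ √n`.  Together
  `∑_ℓ ≤ (r + √n) / n ≤ 3 √n / n`.
* `path_sum_sub`: `n.descFactorial ℓ ≤ n^ℓ`, so the sum is `≤ (1/n) ∑_ℓ c^(ℓ+1) ≤ 1 / (n (1-c))`.
-/

namespace Pool.Agent.Lib.NTh

open Pool.Agent.Lib.Pe46137 Pool.Agent.Lib.Pe46137X

/-- a shortest walk is a path -/
theorem CritPathAux.short_path {n : ℕ} {R : Set (Fin n × Fin n)} {u v : Fin n}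
    (h : Reachable R u v) : ∃ (k : ℕ) (w : ℕ → Fin n), w 0 = u ∧ w k = v ∧
      (∀ j < k, (w j, w (j + 1)) ∈ R) ∧ ∀ i ≤ k, ∀ j ≤ k, w i = w j → i = j := by
  classical
  have hex : ∃ k : ℕ, ∃ w : ℕ → Fin n, w 0 = u ∧ w k = v ∧ ∀ j < k, (w j, w (j + 1)) ∈ R := by
    induction h with
    | refl => exact ⟨0, fun _ => u, rfl, rfl, fun j hj => by omega⟩
    | @tail b c _ hbc ih =>
      obtain ⟨k, w, h0, h1, h2⟩ := ih
      refine ⟨k + 1, fun i => if i ≤ k then w i else c, by simp [h0], by simp, ?_⟩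
      intro j hj
      simp only
      by_cases hjk : j < k
      · rw [if_pos (by omega), if_pos (by omega)]
        exact h2 j hjk
      · have hjk' : j = k := by omega
        rw [if_pos (by omega), if_neg (by omega), hjk', h1]
        exact hbc
  obtain ⟨w, h0, h1, h2⟩ := Nat.find_spec hex
  set m := Nat.find hex with hm
  refine ⟨m, w, h0, h1, h2, ?_⟩
  have key : ∀ i j, i < j → j ≤ m → w i = w j → False := by
    intro i j hij hjm hpp
    have hlt : m - (j - i) < m := by omega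
    refine Nat.find_min hex hlt ⟨fun r => if r ≤ i then w r else w (r + (j - i)), ?_, ?_, ?_⟩
    · simp [h0]
    · simp only
      split_ifs with h
      · have : j = m := by omega
        have hri : m - (j - i) = i := by omega
        rw [hri, hpp, this, h1]
      · rw [Nat.sub_add_cancel (by omega), h1]
    · intro r hr
      simp only
      by_cases hri : r < i
      · rw [if_pos (by omega), if_pos (by omega)]
        exact h2 r (by omega)
      · by_cases hri' : r = i
        · rw [if_pos (by omega), if_neg (by omega), hri', hpp]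
          have : i + 1 + (j - i) = j + 1 := by omega
          rw [this]
          exact h2 j (by omega)
        · rw [if_neg (by omega), if_neg (by omega)]
          have : r + 1 + (j - i) = r + (j - i) + 1 := by omega
          rw [this]
          exact h2 _ (by omega)
  intro i hi j hj hw
  rcases lt_trichotomy i j with h | h | h
  · exact (key i j h hj hw).elim
  · exact h
  · exact (key j i h hi hw.symm).elim

/-- the sequence `u, x_0, …, x_(ℓ-1), v, v, …` -/
def CritPathAux.pth {n ℓ : ℕ} (u v : Fin n) (x : Fin ℓ → Fin n) (j : ℕ) : Fin n :=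
  if j = 0 then u else if h : j - 1 < ℓ then x ⟨j - 1, h⟩ else v

/-- the arcs of this sequence -/
def CritPathAux.arcs {n ℓ : ℕ} (u v : Fin n) (x : Fin ℓ → Fin n) : Finset (Fin n × Fin n) :=
  (Finset.range (ℓ + 1)).image fun j => (CritPathAux.pth u v x j, CritPathAux.pth u v x (j + 1))

open CritPathAux in
theorem path_prob {n : ℕ} {p : ℝ} (hp : 0 ≤ p) (hp1 : p ≤ 1) {u v : Fin n} (huv : u ≠ v) :
    prob (fun _ : Fin n × Fin n => p) (fun R => Reachable R u v) ≤
      ∑ ℓ ∈ Finset.range n, (n.descFactorial ℓ : ℝ) * p ^ (ℓ + 1) := by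
  classical
  let I := (Finset.range n).sigma fun ℓ => (Finset.univ : Finset (Fin ℓ ↪ Fin n))
  let F : (Σ ℓ : ℕ, (Fin ℓ ↪ Fin n)) → Set (Fin n × Fin n) → Prop := fun i R =>
    (∀ a ≤ i.1 + 1, ∀ b ≤ i.1 + 1, pth u v i.2 a = pth u v i.2 b → a = b) ∧
      ((arcs u v i.2 : Finset (Fin n × Fin n)) : Set (Fin n × Fin n)) ⊆ R
  have h1 : prob (fun _ : Fin n × Fin n => p) (fun R => Reachable R u v) ≤
      prob (fun _ : Fin n × Fin n => p) (fun R => ∃ i ∈ I, F i R) := by
    refine prob_mono (fun _ => hp) (fun _ => hp1) ?_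
    intro R hR
    obtain ⟨k, w, h0, hk, hw, hinj⟩ := short_path hR
    obtain ⟨ℓ, rfl⟩ : ∃ ℓ, k = ℓ + 1 := by
      cases k with
      | zero => exact absurd (h0.symm.trans hk) huv
      | succ m => exact ⟨m, rfl⟩
    have hcard : ℓ + 2 ≤ n := by
      have hi : Set.InjOn w ((Finset.range (ℓ + 2) : Finset ℕ) : Set ℕ) := by
        intro a ha b hb hab
        have ha' := Finset.mem_range.1 (Finset.mem_coe.1 ha)
        have hb' := Finset.mem_range.1 (Finset.mem_coe.1 hb)
        exact hinj a (by omega) b (by omega) hab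
      have := Finset.card_le_card_of_injOn (s := Finset.range (ℓ + 2))
        (t := (Finset.univ : Finset (Fin n))) w (fun a _ => Finset.mem_univ _) hi
      rwa [Finset.card_range, Finset.card_univ, Fintype.card_fin] at this
    let x : Fin ℓ ↪ Fin n := ⟨fun i => w (i + 1), fun a b hab => by
      have := hinj (a + 1) (by omega) (b + 1) (by omega) hab
      exact Fin.ext (by omega)⟩
    have hpw : ∀ j ≤ ℓ + 1, pth u v x j = w j := by
      intro j hj
      unfold pth
      split_ifs with h2 h3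
      · rw [h2, h0]
      · show w (j - 1 + 1) = w j
        rw [Nat.sub_add_cancel (by omega)]
      · have : j = ℓ + 1 := by omega
        rw [this, hk]
    refine ⟨⟨ℓ, x⟩, ?_, ?_, ?_⟩
    · simp only [I, Finset.mem_sigma, Finset.mem_range, Finset.mem_univ, and_true]
      omega
    · intro a ha b hb hab
      have ha' : a ≤ ℓ + 1 := ha
      have hb' : b ≤ ℓ + 1 := hb
      have hab' : pth u v x a = pth u v x b := hab
      rw [hpw a ha', hpw b hb'] at hab'
      exact hinj a ha' b hb' hab'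
    · intro e he
      have he' : e ∈ arcs u v x := Finset.mem_coe.1 he
      unfold arcs at he'
      rw [Finset.mem_image] at he'
      obtain ⟨j, hj, rfl⟩ := he'
      have hj' := Finset.mem_range.1 hj
      rw [hpw j (by omega), hpw (j + 1) (by omega)]
      exact hw j hj'
  refine h1.trans ((prob_exists_le I F (fun _ => hp) (fun _ => hp1)).trans ?_)
  have h2 : ∀ i ∈ I, prob (fun _ : Fin n × Fin n => p) (F i) ≤ p ^ (i.1 + 1) := by
    rintro ⟨ℓ, x⟩ _
    by_cases hinj : ∀ a ≤ ℓ + 1, ∀ b ≤ ℓ + 1, pth u v x a = pth u v x b → a = b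
    · have hc : (arcs u v x).card = ℓ + 1 := by
        unfold arcs
        rw [Finset.card_image_of_injOn, Finset.card_range]
        intro a ha b hb hab
        have ha' := Finset.mem_range.1 (Finset.mem_coe.1 ha)
        have hb' := Finset.mem_range.1 (Finset.mem_coe.1 hb)
        exact hinj a (by omega) b (by omega) (congrArg Prod.fst hab)
      have h3 : prob (fun _ : Fin n × Fin n => p) (F ⟨ℓ, x⟩) =
          prob (fun _ : Fin n × Fin n => p)
            (fun R => ((arcs u v x : Finset (Fin n × Fin n)) : Set (Fin n × Fin n)) ⊆ R) :=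
        prob_congr fun R => ⟨fun h => h.2, fun h => ⟨hinj, h⟩⟩
      rw [h3, prob_subset, Finset.prod_const, hc]
    · have h3 : prob (fun _ : Fin n × Fin n => p) (F ⟨ℓ, x⟩) =
          prob (fun _ : Fin n × Fin n => p) (fun _ => False) :=
        prob_congr fun R => ⟨fun h => hinj h.1, fun h => h.elim⟩
      rw [h3, prob_false]
      positivity
  refine (Finset.sum_le_sum h2).trans (le_of_eq ?_)
  rw [Finset.sum_sigma]
  refine Finset.sum_congr rfl fun ℓ _ => ?_
  simp only [Finset.sum_const, Finset.card_univ, Fintype.card_embedding_eq, Fintype.card_fin,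
    nsmul_eq_mul]

theorem path_sum_crit {n : ℕ} (hn : 1 ≤ n) {p : ℝ} (hp : 0 ≤ p) (hpn : p ≤ 1 / n) :
    ∑ ℓ ∈ Finset.range n, (n.descFactorial ℓ : ℝ) * p ^ (ℓ + 1) ≤ 3 / Real.sqrt n := by
  have hn0 : (0 : ℝ) < n := by exact_mod_cast hn
  have hs0 : 0 < Real.sqrt n := Real.sqrt_pos.2 hn0
  have hs1 : 1 ≤ Real.sqrt n := by
    rw [Real.one_le_sqrt]
    exact_mod_cast hn
  have hss : Real.sqrt n * Real.sqrt n = n := Real.mul_self_sqrt hn0.le
  set a : ℕ → ℝ := fun ℓ => (n.descFactorial ℓ : ℝ) / (n : ℝ) ^ ℓ with ha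
  have ha0 : ∀ ℓ, 0 ≤ a ℓ := fun ℓ => by positivity
  have ha1 : ∀ ℓ, a ℓ ≤ 1 := by
    intro ℓ
    rw [ha, div_le_one (by positivity)]
    exact_mod_cast Nat.descFactorial_le_pow n ℓ
  have hrec : ∀ ℓ ≤ n, a ℓ * (ℓ / n) = a ℓ - a (ℓ + 1) := by
    intro ℓ hℓ
    simp only [ha]
    rw [Nat.descFactorial_succ, Nat.cast_mul, Nat.cast_sub hℓ, pow_succ]
    field_simp
    ring
  set r := ⌈Real.sqrt n⌉₊ with hr
  have hr1 : Real.sqrt n ≤ r := Nat.le_ceil _
  have hr2 : (r : ℝ) < Real.sqrt n + 1 := Nat.ceil_lt_add_one hs0.le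
  have hterm : ∀ ℓ ∈ Finset.range n, a ℓ ≤
      (if ℓ < r then (1 : ℝ) else 0) + Real.sqrt n * (a ℓ - a (ℓ + 1)) := by
    intro ℓ hℓ
    have hℓn := (Finset.mem_range.1 hℓ).le
    have h1 := hrec ℓ hℓn
    have h2 : 0 ≤ a ℓ * (ℓ / n) := mul_nonneg (ha0 ℓ) (by positivity)
    split_ifs with h
    · have h3 := ha1 ℓ
      have h4 : 0 ≤ Real.sqrt n * (a ℓ - a (ℓ + 1)) := by
        rw [← h1]; exact mul_nonneg hs0.le h2
      linarith
    · push Not at h
      have h5 : Real.sqrt n ≤ ℓ := hr1.trans (by exact_mod_cast h)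
      rw [zero_add, ← h1]
      have h6 : 1 ≤ Real.sqrt n * (ℓ / n) := by
        rw [← mul_div_assoc, le_div_iff₀ hn0, one_mul]
        calc (n : ℝ) = Real.sqrt n * Real.sqrt n := hss.symm
          _ ≤ Real.sqrt n * ℓ := mul_le_mul_of_nonneg_left h5 hs0.le
      calc a ℓ = a ℓ * 1 := (mul_one _).symm
        _ ≤ a ℓ * (Real.sqrt n * (ℓ / n)) := mul_le_mul_of_nonneg_left h6 (ha0 ℓ)
        _ = Real.sqrt n * (a ℓ * (ℓ / n)) := by ring
  have hsum : ∑ ℓ ∈ Finset.range n, a ℓ ≤ 3 * Real.sqrt n := by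
    refine (Finset.sum_le_sum hterm).trans ?_
    rw [Finset.sum_add_distrib, ← Finset.mul_sum, Finset.sum_range_sub']
    have h1 : ∑ ℓ ∈ Finset.range n, (if ℓ < r then (1 : ℝ) else 0) ≤ r := by
      rw [← Finset.sum_filter, Finset.sum_const, nsmul_eq_mul, mul_one]
      have : ((Finset.range n).filter (fun ℓ => ℓ < r)).card ≤ (Finset.range r).card :=
        Finset.card_le_card fun ℓ hℓ => Finset.mem_range.2 (Finset.mem_filter.1 hℓ).2
      rw [Finset.card_range] at this
      exact_mod_cast this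
    have h2 : a 0 - a n ≤ 1 := by
      have := ha1 0
      have := ha0 n
      linarith
    have h3 : Real.sqrt n * (a 0 - a n) ≤ Real.sqrt n := by
      calc Real.sqrt n * (a 0 - a n) ≤ Real.sqrt n * 1 := mul_le_mul_of_nonneg_left h2 hs0.le
        _ = Real.sqrt n := mul_one _
    linarith
  have hle : ∑ ℓ ∈ Finset.range n, (n.descFactorial ℓ : ℝ) * p ^ (ℓ + 1) ≤
      ∑ ℓ ∈ Finset.range n, a ℓ * (1 / n) := by
    refine Finset.sum_le_sum fun ℓ _ => ?_
    calc (n.descFactorial ℓ : ℝ) * p ^ (ℓ + 1)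
        ≤ (n.descFactorial ℓ : ℝ) * (1 / n) ^ (ℓ + 1) :=
          mul_le_mul_of_nonneg_left (pow_le_pow_left₀ hp hpn _) (by positivity)
      _ = a ℓ * (1 / n) := by
          simp only [ha]
          rw [pow_succ, one_div, inv_pow]
          ring
  refine hle.trans ?_
  rw [← Finset.sum_mul]
  calc (∑ ℓ ∈ Finset.range n, a ℓ) * (1 / n) ≤ 3 * Real.sqrt n * (1 / n) :=
        mul_le_mul_of_nonneg_right hsum (by positivity)
    _ = 3 / Real.sqrt n := by
        have h3 : Real.sqrt n ≠ 0 := hs0.ne'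
        rw [mul_one_div, div_eq_div_iff hn0.ne' h3, mul_assoc, hss]

theorem path_sum_sub {n : ℕ} (hn : 1 ≤ n) {c : ℝ} (hc : 0 ≤ c) (hc1 : c < 1) :
    ∑ ℓ ∈ Finset.range n, (n.descFactorial ℓ : ℝ) * (c / n) ^ (ℓ + 1) ≤ 1 / ((1 - c) * n) := by
  have hn0 : (0 : ℝ) < n := by exact_mod_cast hn
  have hc2 : 0 < 1 - c := by linarith
  have hle : ∑ ℓ ∈ Finset.range n, (n.descFactorial ℓ : ℝ) * (c / n) ^ (ℓ + 1) ≤
      ∑ ℓ ∈ Finset.range n, c ^ ℓ * (1 / n) := by
    refine Finset.sum_le_sum fun ℓ _ => ?_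
    calc (n.descFactorial ℓ : ℝ) * (c / n) ^ (ℓ + 1)
        ≤ (n : ℝ) ^ ℓ * (c / n) ^ (ℓ + 1) := by
          refine mul_le_mul_of_nonneg_right ?_ (by positivity)
          exact_mod_cast Nat.descFactorial_le_pow n ℓ
      _ = c ^ ℓ * (c / n) := by
          rw [pow_succ, div_pow]
          field_simp
      _ ≤ c ^ ℓ * (1 / n) :=
          mul_le_mul_of_nonneg_left (div_le_div_of_nonneg_right hc1.le hn0.le) (by positivity)
  refine hle.trans ?_
  rw [← Finset.sum_mul]
  have h1 : (1 - c) * ∑ ℓ ∈ Finset.range n, c ^ ℓ = 1 - c ^ n := mul_neg_geom_sum c n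
  have h2 : ∑ ℓ ∈ Finset.range n, c ^ ℓ ≤ 1 / (1 - c) := by
    rw [le_div_iff₀ hc2, mul_comm, h1]
    have : 0 ≤ c ^ n := by positivity
    linarith
  calc (∑ ℓ ∈ Finset.range n, c ^ ℓ) * (1 / n) ≤ 1 / (1 - c) * (1 / n) :=
        mul_le_mul_of_nonneg_right h2 (by positivity)
    _ = 1 / ((1 - c) * n) := by rw [div_mul_div_comm, one_mul]

end Pool.Agent.Lib.NTh
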