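import Pool.Agent.Lib.NTh.Defs

/-!
Module NTh.DFS: depth first search that recognises visited vertices only by their colour
(difficulty: 2.5 h).

`h : Fin n → C` is a colouring.  The state is `(stack, L)`, `L` the list of all vertices pushed so far
(latest first).  With `v` on top: push the first out-neighbour of `v` whose colour is not the colour
of a vertex in `L`; if there is none pop `v`.  Start `([s], [s])`.

Proofs.
* Every step of a nonempty stack lowers `2 (n - L.length) + stack.length` by one (`L` has no
  repetition, so `L.length ≤ n`), which is `2 n - 1` at the start: the stack is empty after `2 n` steps,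
  and then nothing changes.
* `dfs_nodup`, `dfs_reach`, `dfs_start_mem`, `dfs_sublist`: induction on `i`.
* `dfs_closed`: induction on `i`: every vertex of `L` is on the stack or all its out-neighbours have a
  colour in `L` (it was popped; `L` only grows).
* `dfs_first`: if the stack is `a ++ y :: v :: b` then `y` is the first out-neighbour of `v` with a colour
  among the colours of `a` and `y`.  Induction on `i` with the stronger invariant: moreover the
  out-neighbours `z < y` of `v` have a colour in `L` (true when `y` is pushed, when the colours of the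
  vertices `< y` are in `L`, and the later pushed vertices have colours not in `L`).
* `dfs_complete`: at the end the stack is empty, so all out-neighbours of vertices of `L` have a colour
  of a vertex of `L`; if `h` is injective on the vertices reachable from `s` they are themselves in `L`.
* `dfs_big`: let `W` be the set of the first `k + 1` vertices pushed by the search with the colouring
  `id` (it pushes all reachable vertices by `dfs_complete`, so at least `k + 1`; `L` grows by one
  vertex at a time).  If `h` is injective on `W`, then by induction on `i`, as long as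
  `(dfs G id s i).2.length ≤ k + 1`, the two searches are in the same state: a push of `y` for `id` is a
  push of `y` for `h` (`y ∈ W`, `L ⊆ W`, and `z < y` with `h z ∉ h(L)` would have `z ∉ L`), and a pop
  for `id` is a pop for `h`.  For the last push one needs `(dfs G id s (i+1)).2.length ≤ k + 1`.  The
  length of `L` is monotone in `i`, so at the end of the search with `h` it is at least `k + 1`.
-/

namespace Pool.Agent.Lib.NTh

open Pool.Agent.Lib.Pe46137 Pool.Agent.Lib.Pe46137X

variable {n : ℕ} {C : Type}

/-- `y` is the first out-neighbour of `v` with the property `P` -/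
def IsFirst (G : Set (Fin n × Fin n)) (v : Fin n) (P : Fin n → Prop) (y : Fin n) : Prop :=
  (v, y) ∈ G ∧ P y ∧ ∀ z < y, ¬ ((v, z) ∈ G ∧ P z)

open Classical in
/-- one step of the search -/
noncomputable def dfsStep (G : Set (Fin n × Fin n)) (h : Fin n → C) :
    List (Fin n) × List (Fin n) → List (Fin n) × List (Fin n)
  | ([], L) => ([], L)
  | (v :: r, L) =>
    if hy : ∃ y, IsFirst G v (fun y => h y ∉ L.map h) y then (hy.choose :: v :: r, hy.choose :: L)
    else (r, L)

/-- the state after `i` steps -/
noncomputable def dfs (G : Set (Fin n × Fin n)) (h : Fin n → C) (s : Fin n) (i : ℕ) :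
    List (Fin n) × List (Fin n) :=
  (dfsStep G h)^[i] ([s], [s])

/-- the list of all vertices pushed -/
noncomputable def dfsLog (G : Set (Fin n × Fin n)) (h : Fin n → C) (s : Fin n) : List (Fin n) :=
  (dfs G h s (2 * n)).2

variable {G : Set (Fin n × Fin n)} {h : Fin n → C} {s : Fin n}

theorem isFirst_unique {v : Fin n} {P : Fin n → Prop} {y z : Fin n} (hy : IsFirst G v P y)
    (hz : IsFirst G v P z) : y = z := by
  rcases lt_trichotomy y z with hlt | heq | hgt
  · exact absurd ⟨hy.1, hy.2.1⟩ (hz.2.2 y hlt)
  · exact heq
  · exact absurd ⟨hz.1, hz.2.1⟩ (hy.2.2 z hgt)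

theorem exists_isFirst {v : Fin n} {P : Fin n → Prop} (h : ∃ y, (v, y) ∈ G ∧ P y) :
    ∃ y, IsFirst G v P y := by
  classical
  have hne : (Finset.univ.filter fun y => (v, y) ∈ G ∧ P y).Nonempty := by
    obtain ⟨y, hy⟩ := h
    exact ⟨y, by simpa using hy⟩
  refine ⟨(Finset.univ.filter fun y => (v, y) ∈ G ∧ P y).min' hne, ?_, ?_, ?_⟩
  · exact ((Finset.mem_filter.1 (Finset.min'_mem _ hne)).2).1
  · exact ((Finset.mem_filter.1 (Finset.min'_mem _ hne)).2).2
  · intro z hz hc
    have := Finset.min'_le (Finset.univ.filter fun y => (v, y) ∈ G ∧ P y) z (by simpa using hc)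
    exact absurd hz (not_lt.2 this)

theorem dfs_zero : dfs G h s 0 = ([s], [s]) := rfl

theorem dfs_succ (i : ℕ) : dfs G h s (i + 1) = dfsStep G h (dfs G h s i) := by
  unfold dfs
  rw [Function.iterate_succ_apply']

namespace DFSAux

theorem step_nil (L : List (Fin n)) : dfsStep G h ([], L) = ([], L) := rfl

theorem step_push {v : Fin n} {r L : List (Fin n)} {y : Fin n}
    (hy : IsFirst G v (fun y => h y ∉ L.map h) y) :
    dfsStep G h (v :: r, L) = (y :: v :: r, y :: L) := by
  have hex : ∃ y, IsFirst G v (fun y => h y ∉ L.map h) y := ⟨y, hy⟩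
  have h1 : hex.choose = y := isFirst_unique hex.choose_spec hy
  simp only [dfsStep]
  rw [dif_pos hex, h1]

theorem step_pop {v : Fin n} {r L : List (Fin n)} (hy : ∀ y, (v, y) ∈ G → h y ∈ L.map h) :
    dfsStep G h (v :: r, L) = (r, L) := by
  have hex : ¬ ∃ y, IsFirst G v (fun y => h y ∉ L.map h) y := by
    rintro ⟨y, h1, h2, _⟩
    exact h2 (hy y h1)
  simp only [dfsStep]
  rw [dif_neg hex]

theorem step_cases (v : Fin n) (_r L : List (Fin n)) :
    (∃ y, IsFirst G v (fun y => h y ∉ L.map h) y) ∨ (∀ y, (v, y) ∈ G → h y ∈ L.map h) := by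
  by_cases hc : ∃ y, (v, y) ∈ G ∧ h y ∉ L.map h
  · exact Or.inl (exists_isFirst hc)
  · right
    intro y hy
    by_contra h1
    exact hc ⟨y, hy, h1⟩

/-- induction principle -/
theorem induct (P : List (Fin n) → List (Fin n) → Prop) (h0 : P [s] [s])
    (hpush : ∀ v r L y, P (v :: r) L → IsFirst G v (fun y => h y ∉ L.map h) y →
      P (y :: v :: r) (y :: L))
    (hpop : ∀ v r L, P (v :: r) L → (∀ y, (v, y) ∈ G → h y ∈ L.map h) → P r L) (i : ℕ) :
    P (dfs G h s i).1 (dfs G h s i).2 := by
  induction i with
  | zero => exact h0
  | succ i ih =>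
    rw [dfs_succ]
    rcases hst : dfs G h s i with ⟨st, L⟩
    rw [hst] at ih
    cases st with
    | nil => exact ih
    | cons v r =>
      rcases step_cases (G := G) (h := h) v r L with ⟨y, hy⟩ | hy
      · rw [step_push hy]
        exact hpush v r L y ih hy
      · rw [step_pop hy]
        exact hpop v r L ih hy

/-- one step -/
theorem step_len (st : List (Fin n) × List (Fin n)) :
    (dfsStep G h st).2 = st.2 ∨ ∃ y, (dfsStep G h st).2 = y :: st.2 := by
  obtain ⟨st, L⟩ := st
  cases st with
  | nil => exact Or.inl rfl
  | cons v r =>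
    rcases step_cases (G := G) (h := h) v r L with ⟨y, hy⟩ | hy
    · rw [step_push hy]
      exact Or.inr ⟨y, rfl⟩
    · rw [step_pop hy]
      exact Or.inl rfl

theorem suffix {i j : ℕ} (hij : i ≤ j) : (dfs G h s i).2 <:+ (dfs G h s j).2 := by
  induction j, hij using Nat.le_induction with
  | base => exact List.suffix_rfl
  | succ j _ ih =>
    rw [dfs_succ]
    rcases step_len (G := G) (h := h) (dfs G h s j) with h1 | ⟨y, h1⟩
    · rw [h1]; exact ih
    · rw [h1]; exact ih.trans (List.suffix_cons y _)

end DFSAux

open DFSAux

theorem dfs_nodup (i : ℕ) : ((dfs G h s i).2.map h).Nodup := by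
  refine induct (G := G) (h := h) (s := s) (fun _ L => (L.map h).Nodup) (by simp) ?_ ?_ i
  · intro v r L y ih hy
    rw [List.map_cons, List.nodup_cons]
    exact ⟨hy.2.1, ih⟩
  · intro v r L ih _
    exact ih

theorem dfs_stack_empty {i : ℕ} (hi : 2 * n ≤ i) : (dfs G h s i).1 = [] := by
  have key : ∀ i, (dfs G h s i).1 = [] ∨
      2 * (dfs G h s i).2.length = (dfs G h s i).1.length + 1 + i := by
    intro i
    induction i with
    | zero => right; simp [dfs_zero]
    | succ i ih =>
      rw [dfs_succ]
      rcases hst : dfs G h s i with ⟨st, L⟩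
      rw [hst] at ih
      cases st with
      | nil => exact Or.inl rfl
      | cons v r =>
        rcases ih with ih | ih
        · simp at ih
        · right
          simp only [List.length_cons] at ih
          rcases step_cases (G := G) (h := h) v r L with ⟨y, hy⟩ | hy
          · rw [step_push hy]
            simp only [List.length_cons]
            omega
          · rw [step_pop hy]
            simp only
            omega
  rcases key i with h1 | h1
  · exact h1
  · exfalso
    have h2 : (dfs G h s i).2.Nodup := List.Nodup.of_map _ (dfs_nodup i)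
    have h3 := h2.length_le_card
    rw [Fintype.card_fin] at h3
    omega

theorem dfs_stable {i j : ℕ} (hi : (dfs G h s i).1 = []) (hj : i ≤ j) : dfs G h s j = dfs G h s i := by
  induction j, hj using Nat.le_induction with
  | base => rfl
  | succ j _ ih =>
    rw [dfs_succ, ih]
    rcases hst : dfs G h s i with ⟨st, L⟩
    rw [hst] at hi
    simp only at hi
    subst hi
    rfl

theorem dfs_start_mem (i : ℕ) : s ∈ (dfs G h s i).2 := by
  refine induct (G := G) (h := h) (s := s) (fun _ L => s ∈ L) (by simp) ?_ ?_ i
  · intro v r L y ih _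
    exact List.mem_cons_of_mem _ ih
  · intro v r L ih _
    exact ih

theorem dfs_sublist (i : ℕ) : (dfs G h s i).1.Sublist (dfs G h s i).2 := by
  refine induct (G := G) (h := h) (s := s) (fun st L => st.Sublist L) (List.Sublist.refl _) ?_ ?_ i
  · intro v r L y ih _
    exact ih.cons_cons y
  · intro v r L ih _
    exact (List.sublist_cons_self v r).trans ih

theorem dfs_reach (i : ℕ) {x : Fin n} (hx : x ∈ (dfs G h s i).2) : Reachable G s x := by
  have key : (∀ x ∈ (dfs G h s i).1, x ∈ (dfs G h s i).2) ∧
      ∀ x ∈ (dfs G h s i).2, Reachable G s x := by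
    refine induct (G := G) (h := h) (s := s) (fun st L => (∀ x ∈ st, x ∈ L) ∧
      ∀ x ∈ L, Reachable G s x) ⟨by simp, ?_⟩ ?_ ?_ i
    · intro x hx
      rw [List.mem_singleton] at hx
      rw [hx]
      exact Relation.ReflTransGen.refl
    · intro v r L y ih hy
      refine ⟨?_, ?_⟩
      · intro x hx
        rw [List.mem_cons] at hx
        rcases hx with hx | hx
        · rw [hx]; exact List.mem_cons_self
        · exact List.mem_cons_of_mem _ (ih.1 x hx)
      · intro x hx
        rw [List.mem_cons] at hx
        rcases hx with hx | hx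
        · rw [hx]
          exact Relation.ReflTransGen.tail (ih.2 v (ih.1 v List.mem_cons_self)) hy.1
        · exact ih.2 x hx
    · intro v r L ih _
      exact ⟨fun x hx => ih.1 x (List.mem_cons_of_mem _ hx), ih.2⟩
  exact key.2 x hx

theorem dfs_last (i : ℕ) : (dfs G h s i).1 = [] ∨ (dfs G h s i).1.getLast? = some s := by
  refine induct (G := G) (h := h) (s := s) (fun st _ => st = [] ∨ st.getLast? = some s)
    (by simp) ?_ ?_ i
  · intro v r L y ih _
    right
    rcases ih with ih | ih
    · simp at ih
    · rw [List.getLast?_cons_cons]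
      exact ih
  · intro v r L ih _
    rcases ih with ih | ih
    · simp at ih
    · cases r with
      | nil => exact Or.inl rfl
      | cons w r' =>
        right
        rw [List.getLast?_cons_cons] at ih
        exact ih

/-- each vertex of the stack above the bottom is the first out-neighbour of the vertex below with a
colour among the colours from this vertex upwards -/
theorem dfs_first (i : ℕ) {a b : List (Fin n)} {y v : Fin n}
    (hst : (dfs G h s i).1 = a ++ y :: v :: b) :
    IsFirst G v (fun z => h z ∈ (a ++ [y]).map h) y := by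
  have key : ∀ (a b : List (Fin n)) (y v : Fin n), (dfs G h s i).1 = a ++ y :: v :: b →
      (v, y) ∈ G ∧ ∀ z < y, (v, z) ∈ G →
        h z ∈ (dfs G h s i).2.map h ∧ h z ∉ (a ++ [y]).map h := by
    refine induct (G := G) (h := h) (s := s) (fun st L => ∀ (a b : List (Fin n)) (y v : Fin n),
      st = a ++ y :: v :: b → (v, y) ∈ G ∧ ∀ z < y, (v, z) ∈ G →
        h z ∈ L.map h ∧ h z ∉ (a ++ [y]).map h) ?_ ?_ ?_ i
    · intro a b y v hst
      exfalso
      have := congrArg List.length hst
      simp at this
      omega
    · intro v0 r L y0 ih hy0 a b y v hst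
      cases a with
      | nil =>
        simp only [List.nil_append, List.cons.injEq] at hst
        obtain ⟨h1, h2, h3⟩ := hst
        subst h1 h2
        refine ⟨hy0.1, fun z hz hzG => ?_⟩
        have h4 : h z ∈ L.map h := by
          by_contra hc
          exact hy0.2.2 z hz ⟨hzG, hc⟩
        refine ⟨by rw [List.map_cons]; exact List.mem_cons_of_mem _ h4, ?_⟩
        intro hc
        simp only [List.nil_append, List.map_cons, List.map_nil, List.mem_singleton] at hc
        rw [hc] at h4
        exact hy0.2.1 h4
      | cons c a' =>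
        simp only [List.cons_append, List.cons.injEq] at hst
        obtain ⟨h1, h2⟩ := hst
        subst h1
        obtain ⟨h3, h4⟩ := ih a' b y v h2
        refine ⟨h3, fun z hz hzG => ?_⟩
        obtain ⟨h5, h6⟩ := h4 z hz hzG
        refine ⟨by rw [List.map_cons]; exact List.mem_cons_of_mem _ h5, ?_⟩
        intro hc
        rw [List.cons_append, List.map_cons, List.mem_cons] at hc
        rcases hc with hc | hc
        · rw [hc] at h5
          exact hy0.2.1 h5
        · exact h6 hc
    · intro v0 r L ih _ a b y v hst
      obtain ⟨h3, h4⟩ := ih (v0 :: a) b y v (by rw [hst]; rfl)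
      refine ⟨h3, fun z hz hzG => ?_⟩
      obtain ⟨h5, h6⟩ := h4 z hz hzG
      refine ⟨h5, fun hc => h6 ?_⟩
      rw [List.cons_append, List.map_cons]
      exact List.mem_cons_of_mem _ hc
  obtain ⟨h1, h2⟩ := key a b y v hst
  refine ⟨h1, by simp, fun z hz hc => (h2 z hz hc.1).2 hc.2⟩

theorem dfs_closed (i : ℕ) {v : Fin n} (hv : v ∈ (dfs G h s i).2) :
    v ∈ (dfs G h s i).1 ∨ ∀ y, (v, y) ∈ G → h y ∈ (dfs G h s i).2.map h := by
  have key : ∀ v ∈ (dfs G h s i).2,
      v ∈ (dfs G h s i).1 ∨ ∀ y, (v, y) ∈ G → h y ∈ (dfs G h s i).2.map h := by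
    refine induct (G := G) (h := h) (s := s) (fun st L => ∀ v ∈ L,
      v ∈ st ∨ ∀ y, (v, y) ∈ G → h y ∈ L.map h) ?_ ?_ ?_ i
    · intro v hv
      exact Or.inl hv
    · intro v0 r L y0 ih hy0 v hv
      rw [List.mem_cons] at hv
      rcases hv with hv | hv
      · left; rw [hv]; exact List.mem_cons_self
      · rcases ih v hv with h1 | h1
        · left; exact List.mem_cons_of_mem _ h1
        · right
          intro y hy
          rw [List.map_cons]
          exact List.mem_cons_of_mem _ (h1 y hy)
    · intro v0 r L ih hy0 v hv
      rcases ih v hv with h1 | h1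
      · rw [List.mem_cons] at h1
        rcases h1 with h1 | h1
        · right; rw [h1]; exact hy0
        · left; exact h1
      · right; exact h1
  exact key v hv

theorem dfs_complete (hh : Set.InjOn h {x | Reachable G s x}) (x : Fin n) :
    x ∈ dfsLog G h s ↔ Reachable G s x := by
  unfold dfsLog
  constructor
  · exact dfs_reach _
  · intro hx
    induction hx with
    | refl => exact dfs_start_mem _
    | tail hab hbc ih =>
      rename_i b c
      rcases dfs_closed _ ih with h1 | h1
      · rw [dfs_stack_empty le_rfl] at h1
        simp at h1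
      · have h2 := h1 c hbc
        rw [List.mem_map] at h2
        obtain ⟨z, hz, hzc⟩ := h2
        have h3 : z = c := hh (dfs_reach _ hz) (Relation.ReflTransGen.tail hab hbc) hzc
        rw [← h3]
        exact hz

theorem dfs_big {k : ℕ} (hk : k < {x | Reachable G s x}.ncard) :
    ∃ W : Finset (Fin n), W.card = k + 1 ∧ ∀ (C : Type) (h : Fin n → C), Set.InjOn h W →
      k < (dfsLog G h s).length := by
  classical
  set Ls : List (Fin n) := dfsLog G (id : Fin n → Fin n) s with hLs
  have hnd : Ls.Nodup := by
    have := dfs_nodup (G := G) (h := (id : Fin n → Fin n)) (s := s) (2 * n)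
    rwa [List.map_id] at this
  have hset : {x | Reachable G s x} = (Ls.toFinset : Set (Fin n)) := by
    ext x
    rw [Set.mem_setOf_eq, List.coe_toFinset, Set.mem_setOf_eq]
    exact (dfs_complete (Set.injOn_id _) x).symm
  rw [hset, Set.ncard_coe_finset, List.toFinset_card_of_nodup hnd] at hk
  set Wl : List (Fin n) := Ls.drop (Ls.length - (k + 1)) with hWl
  have hWlen : Wl.length = k + 1 := by
    rw [hWl, List.length_drop]; omega
  have hWsuf : Wl <:+ Ls := List.drop_suffix _ _
  have hWnd : Wl.Nodup := hnd.sublist hWsuf.sublist
  refine ⟨Wl.toFinset, by rw [List.toFinset_card_of_nodup hWnd, hWlen], ?_⟩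
  intro C h hinj
  -- all states are suffixes of the log
  have hsuf : ∀ i, (dfs G (id : Fin n → Fin n) s i).2 <:+ Ls := by
    intro i
    rcases le_total i (2 * n) with h1 | h1
    · exact suffix h1
    · rw [dfs_stable (dfs_stack_empty le_rfl) h1]
      exact List.suffix_rfl
  have hsub : ∀ i, (dfs G (id : Fin n → Fin n) s i).2.length ≤ k + 1 →
      ∀ x ∈ (dfs G (id : Fin n → Fin n) s i).2, x ∈ (Wl.toFinset : Set (Fin n)) := by
    intro i hi x hx
    have h1 : (dfs G (id : Fin n → Fin n) s i).2 <:+ Wl :=
      List.suffix_of_suffix_length_le (hsuf i) hWsuf (by rw [hWlen]; exact hi)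
    rw [List.coe_toFinset]
    exact h1.subset hx
  have hsame : ∀ i, (dfs G (id : Fin n → Fin n) s i).2.length ≤ k + 1 →
      dfs G h s i = dfs G (id : Fin n → Fin n) s i := by
    intro i
    induction i with
    | zero => intro _; rfl
    | succ i ih =>
      intro hi
      have hmono : (dfs G (id : Fin n → Fin n) s i).2.length ≤
        (dfs G (id : Fin n → Fin n) s (i + 1)).2.length := (suffix (Nat.le_succ i)).length_le
      have h1 := ih (hmono.trans hi)
      have h2 := hsub (i + 1) hi
      rw [dfs_succ, h1]
      rw [dfs_succ] at hi h2 ⊢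
      rcases hst : dfs G (id : Fin n → Fin n) s i with ⟨st, L⟩
      rw [hst] at hi h2
      cases st with
      | nil => rfl
      | cons v r =>
        rcases step_cases (G := G) (h := (id : Fin n → Fin n)) v r L with ⟨y, hy⟩ | hy
        · rw [step_push hy] at hi h2 ⊢
          have hy1 := hy
          simp only [List.map_id, id_eq] at hy1
          refine step_push ⟨hy.1, ?_, ?_⟩
          · intro hc
            rw [List.mem_map] at hc
            obtain ⟨z, hz, hzy⟩ := hc
            have h3 : z = y := hinj (h2 z (List.mem_cons_of_mem _ hz)) (h2 y List.mem_cons_self) hzy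
            rw [h3] at hz
            exact hy1.2.1 hz
          · intro z hz hc
            have h3 : z ∈ L := by
              by_contra h4
              exact hy1.2.2 z hz ⟨hc.1, h4⟩
            exact hc.2 (List.mem_map.2 ⟨z, h3, rfl⟩)
        · rw [step_pop hy]
          refine step_pop ?_
          intro y hyG
          have h3 := hy y hyG
          simp only [List.map_id, id_eq] at h3
          exact List.mem_map.2 ⟨y, h3, rfl⟩
  -- the first time with `k + 1` pushed vertices
  have hex : ∃ i, k + 1 ≤ (dfs G (id : Fin n → Fin n) s i).2.length := ⟨2 * n, hk⟩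
  have hi1 := Nat.find_spec hex
  set i := Nat.find hex with hi
  have hi2 : (dfs G (id : Fin n → Fin n) s i).2.length ≤ k + 1 := by
    rcases Nat.eq_zero_or_pos i with h0 | hpos
    · rw [h0]; simp [dfs_zero]
    · obtain ⟨j, hj⟩ := Nat.exists_eq_succ_of_ne_zero hpos.ne'
      have hlt : ¬ (k + 1 ≤ (dfs G (id : Fin n → Fin n) s j).2.length) :=
        Nat.find_min hex (by omega)
      rw [hj, dfs_succ]
      rcases step_len (G := G) (h := (id : Fin n → Fin n)) (dfs G id s j) with h1 | ⟨y, h1⟩
      · rw [h1]; omega
      · rw [h1, List.length_cons]; omega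
  have h3 := hsame i hi2
  have h4 : (dfs G h s i).2.length ≤ (dfsLog G h s).length := by
    unfold dfsLog
    rcases le_total i (2 * n) with h1 | h1
    · exact (suffix h1).length_le
    · rw [dfs_stable (dfs_stack_empty le_rfl) h1]
  rw [h3] at h4
  omega

end Pool.Agent.Lib.NTh
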