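import Pool.Agent.Lib.NTh.BPBasic

/-!
Module NTh.Machine: finite deterministic machines are branching programs (difficulty: 1.8 h).

A machine with finite state space `S`: in the state `x` it stops if `halt x`, and otherwise it reads
the variable `var x` and goes to `hi x` or `lo x`.

Proof.  Put `F 0 x = fun _ => halt x ∧ out x` and
`F (i+1) x = fun G => (halt x ∧ out x) ∨ (¬ halt x ∧ ((var x ∈ G ∧ F i (hi x) G) ∨ (var x ∉ G ∧ F i (lo x) G)))`.
(1) By induction on `i` there is a node list of length at most `i * card S` in which all `F i x` are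
known (for `halt x` the property `F i x` is constant; for the others add one node for each `x`, all
reading `F i`, which are known in the list made so far: induction over the list of all states).
(2) If `halt ((mstep G)^[t] x)` for some `t ≤ i` then `F i x G ↔ out ((mstep G)^[t] x)` (induction on
`i`; halting states are fixed by `mstep`).
(3) If the run from `x₀` on `G` ever halts then it halts within `card S` steps: let `t` be the first
halting time; the states at times `0, …, t` are pairwise distinct (a repetition `x_i = x_j`, `i < j ≤ t`,
gives `x_t = x_(t-(j-i))`, contradicting minimality), so `t + 1 ≤ card S`.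
Take `i = card S`; `f = F i x₀` by `funext`/`propext`.
-/

namespace Pool.Agent.Lib.NTh

open Pool.Agent.Lib.Pe46137 Pool.Agent.Lib.Pe46137X

variable {E S : Type}

open Classical in
/-- one step of the machine on the input `G` -/
noncomputable def mstep (var : S → E) (hi lo : S → S) (halt : S → Prop) (G : Set E) (x : S) : S :=
  if halt x then x else if var x ∈ G then hi x else lo x

namespace MachineAux

/-- the property decided from the state `x` within `i` steps -/
def FF (var : S → E) (hi lo : S → S) (halt out : S → Prop) : ℕ → S → Set E → Prop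
  | 0, x => fun _ => halt x ∧ out x
  | i + 1, x => fun G => (halt x ∧ out x) ∨ (¬ halt x ∧
      ((var x ∈ G ∧ FF var hi lo halt out i (hi x) G) ∨
        (var x ∉ G ∧ FF var hi lo halt out i (lo x) G)))

theorem known_const (l : List (Set E → Prop)) (p : Prop) : Known l (fun _ => p) := by
  by_cases hp : p
  · exact Or.inr (Or.inl (funext fun _ => propext (iff_true_intro hp)))
  · exact Or.inr (Or.inr (funext fun _ => propext (iff_false_intro hp)))

theorem known_cons {l : List (Set E → Prop)} {g : Set E → Prop} (u : Set E → Prop)
    (h : Known l g) : Known (u :: l) g := by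
  rcases h with h | h
  · exact Or.inl (List.mem_cons_of_mem _ h)
  · exact Or.inr h

theorem FF_halt (var : S → E) (hi lo : S → S) (halt out : S → Prop) (i : ℕ) {x : S} (hx : halt x) :
    FF var hi lo halt out i x = fun _ => out x := by
  funext G
  cases i with
  | zero =>
    change (halt x ∧ out x) = out x
    exact propext ⟨fun h => h.2, fun h => ⟨hx, h⟩⟩
  | succ i =>
    change ((halt x ∧ out x) ∨ (¬ halt x ∧ _)) = out x
    refine propext ⟨?_, fun h => Or.inl ⟨hx, h⟩⟩
    rintro (h | h)
    · exact h.2
    · exact absurd hx h.1

theorem FF_succ (var : S → E) (hi lo : S → S) (halt out : S → Prop) (i : ℕ) {x : S}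
    (hx : ¬ halt x) :
    FF var hi lo halt out (i + 1) x = fun G => (var x ∈ G ∧ FF var hi lo halt out i (hi x) G) ∨
        (var x ∉ G ∧ FF var hi lo halt out i (lo x) G) := by
  funext G
  change ((halt x ∧ out x) ∨ (¬ halt x ∧ _)) = _
  refine propext ⟨?_, fun h => Or.inr ⟨hx, h⟩⟩
  rintro (h | h)
  · exact absurd h.1 hx
  · exact h.2

theorem step_list (var : S → E) (hi lo : S → S) (halt out : S → Prop) (i : ℕ)
    {l : List (Set E → Prop)} (hl : Nodes l) (hk : ∀ x, Known l (FF var hi lo halt out i x))
    (L : List S) : ∃ l', Nodes l' ∧ l'.length ≤ l.length + L.length ∧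
      (∀ u, Known l u → Known l' u) ∧ ∀ x ∈ L, Known l' (FF var hi lo halt out (i + 1) x) := by
  induction L with
  | nil => exact ⟨l, hl, le_rfl, fun _ h => h, fun x hx => absurd hx List.not_mem_nil⟩
  | cons y L ih =>
    obtain ⟨l', h1, h2, h3, h4⟩ := ih
    by_cases hy : halt y
    · refine ⟨l', h1, by rw [List.length_cons]; omega, h3, ?_⟩
      intro x hx
      rcases List.mem_cons.1 hx with rfl | hx
      · rw [FF_halt var hi lo halt out (i + 1) hy]
        exact known_const l' _
      · exact h4 x hx
    · refine ⟨_, Nodes.cons (var y) _ _ h1 (h3 _ (hk (hi y))) (h3 _ (hk (lo y))), ?_,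
        fun u hu => known_cons _ (h3 u hu), ?_⟩
      · rw [List.length_cons, List.length_cons]
        omega
      · intro x hx
        rcases List.mem_cons.1 hx with rfl | hx
        · rw [FF_succ var hi lo halt out i hy]
          exact Or.inl List.mem_cons_self
        · exact known_cons _ (h4 x hx)

theorem all_list [Fintype S] (var : S → E) (hi lo : S → S) (halt out : S → Prop) (i : ℕ) :
    ∃ l, Nodes l ∧ l.length ≤ i * Fintype.card S ∧
      ∀ x, Known l (FF var hi lo halt out i x) := by
  induction i with
  | zero => exact ⟨[], Nodes.nil, by simp, fun x => known_const [] _⟩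
  | succ i ih =>
    obtain ⟨l, h1, h2, h3⟩ := ih
    obtain ⟨l', h4, h5, _, h6⟩ := step_list var hi lo halt out i h1 h3 (Finset.univ : Finset S).toList
    refine ⟨l', h4, ?_, fun x => h6 x (Finset.mem_toList.2 (Finset.mem_univ x))⟩
    rw [Finset.length_toList, Finset.card_univ] at h5
    rw [Nat.add_mul, Nat.one_mul]
    omega

theorem mstep_halt (var : S → E) (hi lo : S → S) {halt : S → Prop} (G : Set E) {x : S}
    (hx : halt x) : mstep var hi lo halt G x = x := by
  unfold mstep
  rw [if_pos hx]

theorem iter_halt (var : S → E) (hi lo : S → S) {halt : S → Prop} (G : Set E) {x : S}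
    (hx : halt x) (t : ℕ) : (mstep var hi lo halt G)^[t] x = x := by
  induction t with
  | zero => rfl
  | succ t ih => rw [Function.iterate_succ_apply, mstep_halt var hi lo G hx, ih]

theorem value (var : S → E) (hi lo : S → S) (halt out : S → Prop) (G : Set E) (i : ℕ) :
    ∀ (x : S) (t : ℕ), t ≤ i → halt ((mstep var hi lo halt G)^[t] x) →
      (FF var hi lo halt out i x G ↔ out ((mstep var hi lo halt G)^[t] x)) := by
  induction i with
  | zero =>
    intro x t ht hx
    obtain rfl : t = 0 := by omega
    have hx' : halt x := hx
    rw [FF_halt var hi lo halt out 0 hx']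
    exact Iff.rfl
  | succ i ih =>
    intro x t ht hx
    by_cases hh : halt x
    · rw [FF_halt var hi lo halt out (i + 1) hh, iter_halt var hi lo G hh t]
    · cases t with
      | zero => exact absurd hx hh
      | succ t =>
        rw [Function.iterate_succ_apply] at hx ⊢
        rw [← ih (mstep var hi lo halt G x) t (by omega) hx, FF_succ var hi lo halt out i hh]
        unfold mstep
        rw [if_neg hh]
        by_cases hv : var x ∈ G
        · rw [if_pos hv]
          constructor
          · rintro (h | h)
            · exact h.2
            · exact absurd hv h.1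
          · exact fun h => Or.inl ⟨hv, h⟩
        · rw [if_neg hv]
          constructor
          · rintro (h | h)
            · exact absurd h.1 hv
            · exact h.2
          · exact fun h => Or.inr ⟨hv, h⟩

theorem halt_time [Fintype S] (var : S → E) (hi lo : S → S) (halt : S → Prop) (G : Set E) (x : S)
    (h : ∃ t, halt ((mstep var hi lo halt G)^[t] x)) :
    ∃ t ≤ Fintype.card S, halt ((mstep var hi lo halt G)^[t] x) := by
  classical
  refine ⟨Nat.find h, ?_, Nat.find_spec h⟩
  by_contra hlt
  obtain ⟨a, b, hab, hEq⟩ := Fintype.exists_ne_map_eq_of_card_lt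
    (fun i : Fin (Nat.find h + 1) => (mstep var hi lo halt G)^[(i : ℕ)] x)
    (by rw [Fintype.card_fin]; omega)
  have key : ∀ i j : ℕ, i < j → j ≤ Nat.find h →
      (mstep var hi lo halt G)^[i] x = (mstep var hi lo halt G)^[j] x → False := by
    intro i j hij hj he
    have h1 := Nat.find_spec h
    have h2 : (mstep var hi lo halt G)^[Nat.find h] x =
        (mstep var hi lo halt G)^[Nat.find h - j + i] x := by
      rw [Function.iterate_add_apply, he, ← Function.iterate_add_apply]
      congr 1
      omega
    rw [h2] at h1
    exact Nat.find_min h (by omega) h1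
  have hne : (a : ℕ) ≠ (b : ℕ) := fun h' => hab (Fin.ext h')
  rcases Nat.lt_or_gt_of_ne hne with h3 | h3
  · exact key a b h3 (by have := b.2; omega) hEq
  · exact key b a h3 (by have := a.2; omega) hEq.symm

end MachineAux

open MachineAux

theorem BP.of_machine [Fintype S] (var : S → E) (hi lo : S → S) (halt out : S → Prop) (x₀ : S)
    (f : Set E → Prop)
    (h : ∀ G : Set E, ∃ t : ℕ, halt ((mstep var hi lo halt G)^[t] x₀) ∧
      (out ((mstep var hi lo halt G)^[t] x₀) ↔ f G)) :
    BP (Fintype.card S ^ 2) f := by
  obtain ⟨l, h1, h2, h3⟩ := all_list var hi lo halt out (Fintype.card S)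
  have hf : f = FF var hi lo halt out (Fintype.card S) x₀ := by
    funext G
    obtain ⟨t, ht, hft⟩ := h G
    obtain ⟨s, hs, hhs⟩ := halt_time var hi lo halt G x₀ ⟨t, ht⟩
    have hst : (mstep var hi lo halt G)^[t] x₀ = (mstep var hi lo halt G)^[s] x₀ := by
      rcases le_total s t with h4 | h4
      · obtain ⟨k, rfl⟩ := Nat.exists_eq_add_of_le' h4
        rw [Function.iterate_add_apply, iter_halt var hi lo G hhs]
      · obtain ⟨k, rfl⟩ := Nat.exists_eq_add_of_le' h4
        rw [Function.iterate_add_apply, iter_halt var hi lo G ht]
    refine propext ?_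
    rw [value var hi lo halt out G (Fintype.card S) x₀ s hs hhs, ← hst]
    exact hft.symm
  refine ⟨l, h1, ?_, ?_⟩
  · rw [sq]
    exact h2
  · rw [hf]
    exact h3 x₀

end Pool.Agent.Lib.NTh
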