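import Pool.Agent.Lib.NTh.DFS
import Pool.Agent.Lib.NTh.Machine

/-!
Module NTh.DFSMachine: the coloured depth first search is done by a machine with
`8 ^ q * (2 (n+1)^2)` states (difficulty: 3 h).

The machine does not store the stack.  It stores the set `Op` of the colours of the vertices on the
stack, the set `Vis` of the colours of all vertices pushed, a current vertex `u`, the set `P` of the
colours passed on the present walk, a pointer `j ≤ n` and a flag `fl` (was `t` pushed).  It always
walks from `s` up the stack: at `u` with `¬ Op ⊆ P` (walking) it scans the vertices `y = 0, 1, …` and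
moves to the first out-neighbour `y` of `u` with `h y ∈ Op \ P`; at `u` with `Op ⊆ P` (`u` is the top)
it scans for the first out-neighbour `y` with `h y ∉ Vis`, and pushes it (adds `h y` to `Op` and `Vis`,
restarts from `s`, sets the flag if `y = t`); if the scan ends without success (`j = n`) it pops: removes
`h u` from `Op`, and restarts from `s`, or stops (`cur = none`) if `Op` is now empty.

Suggested definitions are below (`DState`, `dvar`, `dlo`, `dhi`, `dhalt`); they may be changed, only
the two final theorems are used elsewhere.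

Proof.  Write `Code` for: the machine state `(Op, Vis, some s, {h s}, 0, fl)` codes the search state
`(stack, L)` if `Op` = colours of `stack`, `Vis` = colours of `L`, `fl = decide (t ∈ L)`, stack nonempty.
(1) Scan lemma: from `(Op, Vis, some u, P, 0, fl)` the machine reaches the state in which the pointer is
the first out-neighbour `y` of `u` with the wanted property, and then makes its move; or it reaches
`j = n` if there is none.  (Induction on the pointer.)
(2) Walk lemma: let the stack be `v_l, …, v_0 = s` (top first).  By `dfs_first` the first out-neighbour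
of `v_i` with colour in `{h v_(i+1), …, h v_l} = Op \ P_i`, `P_i = {h v_0, …, h v_i}` (colours on the stack
are pairwise distinct, `dfs_nodup` and `dfs_sublist`), is `v_(i+1)`.  So by (1) and induction on `i` the
machine reaches `(Op, Vis, some v_l, Op, 0, fl)`.
(3) At the top: the scan finds exactly the vertex that `dfsStep` pushes, or the machine pops as
`dfsStep` does; the result codes `dfs G h s (i+1)`, or is a halting state if the stack is empty.
Since `t ≠ s`, `fl` is right at the start (`L = [s]`), and it is set exactly when `t` is pushed.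
(4) By induction the machine reaches a halting state with `Vis` = colours of `dfsLog G h s` and
`fl = decide (t ∈ dfsLog G h s)` (`dfs_stack_empty`, `dfs_stable`; let `i` be the first time with empty
stack).  `Vis.card = (dfsLog G h s).length` by `dfs_nodup`.
Then `BP.of_machine` with `out x := x.fl = true`, resp. `out x := k < x.Vis.card`, and
`Fintype.card (DState n q) = 8 ^ q * (2 * (n + 1) ^ 2)`.
-/

namespace Pool.Agent.Lib.NTh

open Pool.Agent.Lib.Pe46137 Pool.Agent.Lib.Pe46137X

namespace DFSMachineAux

/-- `(Op, Vis, cur, P, pointer, flag)` -/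
abbrev DState (n q : ℕ) : Type :=
  Finset (Fin q) × Finset (Fin q) × Option (Fin n) × Finset (Fin q) × Fin (n + 1) × Bool

variable {n q : ℕ}

def dvar (s : Fin n) : DState n q → Fin n × Fin n
  | (_, _, some u, _, j, _) => if hj : j.val < n then (u, ⟨j.val, hj⟩) else (u, u)
  | (_, _, none, _, _, _) => (s, s)

/-- the pointer moves on; at the end of the row the top vertex is popped -/
def dlo (h : Fin n → Fin q) (s : Fin n) : DState n q → DState n q
  | (Op, Vis, some u, P, j, fl) =>
    if hj : j.val < n then (Op, Vis, some u, P, ⟨j.val + 1, by omega⟩, fl)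
    else if Op.erase (h u) = ∅ then (∅, Vis, none, ∅, 0, fl)
    else (Op.erase (h u), Vis, some s, {h s}, 0, fl)
  | x => x

/-- the arc from the current vertex to the vertex at the pointer is present -/
def dhi (h : Fin n → Fin q) (s t : Fin n) : DState n q → DState n q
  | (Op, Vis, some u, P, j, fl) =>
    if hj : j.val < n then
      if Op ⊆ P then
        if h ⟨j.val, hj⟩ ∈ Vis then dlo h s (Op, Vis, some u, P, j, fl)
        else (insert (h ⟨j.val, hj⟩) Op, insert (h ⟨j.val, hj⟩) Vis, some s, {h s}, 0,
          fl || decide ((⟨j.val, hj⟩ : Fin n) = t))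
      else
        if h ⟨j.val, hj⟩ ∈ Op ∧ h ⟨j.val, hj⟩ ∉ P then
          (Op, Vis, some ⟨j.val, hj⟩, insert (h ⟨j.val, hj⟩) P, 0, fl)
        else dlo h s (Op, Vis, some u, P, j, fl)
    else dlo h s (Op, Vis, some u, P, j, fl)
  | x => x

def dhalt : DState n q → Prop
  | (_, _, cur, _, _, _) => cur = none

/-- the property the scan looks for -/
def Want (h : Fin n → Fin q) (Op Vis P : Finset (Fin q)) (y : Fin n) : Prop :=
  if Op ⊆ P then h y ∉ Vis else h y ∈ Op ∧ h y ∉ P

/-- the move made when the scan is successful -/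
def move (h : Fin n → Fin q) (s t : Fin n) (Op Vis P : Finset (Fin q)) (fl : Bool) (y : Fin n) :
    DState n q :=
  if Op ⊆ P then (insert (h y) Op, insert (h y) Vis, some s, {h s}, 0, fl || decide (y = t))
  else (Op, Vis, some y, insert (h y) P, 0, fl)

/-- one step of our machine -/
noncomputable def stp (h : Fin n → Fin q) (s t : Fin n) (G : Set (Fin n × Fin n)) :
    DState n q → DState n q :=
  mstep (dvar s) (dhi h s t) (dlo h s) dhalt G

/-- reachability of states -/
def Run (h : Fin n → Fin q) (s t : Fin n) (G : Set (Fin n × Fin n)) (x y : DState n q) : Prop :=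
  ∃ i : ℕ, (stp h s t G)^[i] x = y

theorem Run.refl (h : Fin n → Fin q) (s t : Fin n) (G : Set (Fin n × Fin n)) (x : DState n q) :
    Run h s t G x x := ⟨0, rfl⟩

theorem Run.trans {h : Fin n → Fin q} {s t : Fin n} {G : Set (Fin n × Fin n)}
    {x y z : DState n q} (h1 : Run h s t G x y) (h2 : Run h s t G y z) : Run h s t G x z := by
  obtain ⟨i, hi⟩ := h1
  obtain ⟨j, hj⟩ := h2
  refine ⟨j + i, ?_⟩
  rw [Function.iterate_add_apply, hi, hj]

theorem Run.one {h : Fin n → Fin q} {s t : Fin n} {G : Set (Fin n × Fin n)}
    {x y : DState n q} (h1 : stp h s t G x = y) : Run h s t G x y := ⟨1, by simpa using h1⟩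

variable {h : Fin n → Fin q} {s t : Fin n} {G : Set (Fin n × Fin n)}

theorem stp_lt {Op Vis P : Finset (Fin q)} {u : Fin n} {fl : Bool} {y : Fin n} :
    ((u, y) ∈ G ∧ Want h Op Vis P y →
      stp h s t G (Op, Vis, some u, P, y.castSucc, fl) = move h s t Op Vis P fl y) ∧
    (¬ ((u, y) ∈ G ∧ Want h Op Vis P y) →
      stp h s t G (Op, Vis, some u, P, y.castSucc, fl) = (Op, Vis, some u, P, y.succ, fl)) := by
  have hy : (y.castSucc : Fin (n + 1)).val < n := by simp
  have hv : (⟨(y.castSucc : Fin (n + 1)).val, hy⟩ : Fin n) = y := by ext; simp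
  have hnh : ¬ dhalt (Op, Vis, some u, P, y.castSucc, fl) := by simp [dhalt]
  have hvar : dvar s ((Op, Vis, some u, P, y.castSucc, fl) : DState n q) = (u, y) := by
    simp [dvar]
  have hlo : dlo h s ((Op, Vis, some u, P, y.castSucc, fl) : DState n q)
      = (Op, Vis, some u, P, y.succ, fl) := by
    simp [dlo]
    rfl
  constructor
  · rintro ⟨hG, hW⟩
    unfold stp mstep
    rw [if_neg hnh, hvar, if_pos hG]
    unfold Want at hW
    unfold dhi move
    simp only [hy, dif_pos, hv]
    by_cases hOP : Op ⊆ P
    · simp only [hOP, if_true] at hW ⊢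
      simp [hW]
    · simp only [hOP, if_false] at hW ⊢
      simp [hW]
  · intro hne
    unfold stp mstep
    rw [if_neg hnh, hvar, hlo]
    by_cases hG : (u, y) ∈ G
    · rw [if_pos hG]
      have hW : ¬ Want h Op Vis P y := fun hW => hne ⟨hG, hW⟩
      unfold Want at hW
      unfold dhi
      simp only [hy, dif_pos, hv]
      by_cases hOP : Op ⊆ P
      · simp only [hOP, if_true, not_not] at hW ⊢
        rw [if_pos hW, hlo]
      · simp only [hOP, if_false] at hW ⊢
        rw [if_neg hW, hlo]
    · rw [if_neg hG]

theorem stp_last {Op Vis P : Finset (Fin q)} {u : Fin n} {fl : Bool} :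
    stp h s t G (Op, Vis, some u, P, Fin.last n, fl)
      = if Op.erase (h u) = ∅ then (∅, Vis, none, ∅, 0, fl)
        else (Op.erase (h u), Vis, some s, {h s}, 0, fl) := by
  have hnh : ¬ dhalt (Op, Vis, some u, P, Fin.last n, fl) := by simp [dhalt]
  have hn : ¬ ((Fin.last n : Fin (n + 1)).val < n) := by simp
  have h1 : dhi h s t ((Op, Vis, some u, P, Fin.last n, fl) : DState n q)
      = dlo h s ((Op, Vis, some u, P, Fin.last n, fl) : DState n q) := by
    conv_lhs => unfold dhi
    simp only [hn, dif_neg, not_false_eq_true]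
  have h2 : dlo h s ((Op, Vis, some u, P, Fin.last n, fl) : DState n q)
      = if Op.erase (h u) = ∅ then (∅, Vis, none, ∅, 0, fl)
        else (Op.erase (h u), Vis, some s, {h s}, 0, fl) := by
    unfold dlo
    simp only [hn, dif_neg, not_false_eq_true]
  unfold stp mstep
  rw [if_neg hnh, h1, h2]
  split_ifs <;> rfl

theorem scan_found {Op Vis P : Finset (Fin q)} {u : Fin n} {fl : Bool} {y : Fin n}
    (hG : (u, y) ∈ G) (hW : Want h Op Vis P y) :
    ∀ (d : ℕ) (j : Fin (n + 1)), j.val + d = y.val →
      (∀ z : Fin n, j.val ≤ z.val → z < y → ¬ ((u, z) ∈ G ∧ Want h Op Vis P z)) →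
      Run h s t G (Op, Vis, some u, P, j, fl) (move h s t Op Vis P fl y) := by
  intro d
  induction d with
  | zero =>
    intro j hj _
    have : j = y.castSucc := by ext; simpa using hj
    rw [this]
    exact Run.one (stp_lt.1 ⟨hG, hW⟩)
  | succ d ih =>
    intro j hj hmin
    have hjn : j.val < n := by have := y.isLt; omega
    have hjz : j = (⟨j.val, hjn⟩ : Fin n).castSucc := by ext; simp
    have h1 : ¬ ((u, (⟨j.val, hjn⟩ : Fin n)) ∈ G ∧ Want h Op Vis P ⟨j.val, hjn⟩) :=
      hmin _ le_rfl (by rw [Fin.lt_def]; simp; omega)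
    refine Run.trans (y := (Op, Vis, some u, P, (⟨j.val, hjn⟩ : Fin n).succ, fl)) ?_ (ih _ ?_ ?_)
    · apply Run.one
      conv_lhs => rw [hjz]
      exact stp_lt.2 h1
    · simp; omega
    · intro z hz hzy
      refine hmin z ?_ hzy
      simp at hz; omega

theorem scan_none {Op Vis P : Finset (Fin q)} {u : Fin n} {fl : Bool} :
    ∀ (d : ℕ) (j : Fin (n + 1)), j.val + d = n →
      (∀ z : Fin n, j.val ≤ z.val → ¬ ((u, z) ∈ G ∧ Want h Op Vis P z)) →
      Run h s t G (Op, Vis, some u, P, j, fl) (Op, Vis, some u, P, Fin.last n, fl) := by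
  intro d
  induction d with
  | zero =>
    intro j hj _
    have : j = Fin.last n := by ext; simpa using hj
    rw [this]
    exact Run.refl _ _ _ _ _
  | succ d ih =>
    intro j hj hmin
    have hjn : j.val < n := by omega
    have hjz : j = (⟨j.val, hjn⟩ : Fin n).castSucc := by ext; simp
    have h1 : ¬ ((u, (⟨j.val, hjn⟩ : Fin n)) ∈ G ∧ Want h Op Vis P ⟨j.val, hjn⟩) :=
      hmin _ le_rfl
    refine Run.trans (y := (Op, Vis, some u, P, (⟨j.val, hjn⟩ : Fin n).succ, fl)) ?_ (ih _ ?_ ?_)
    · apply Run.one
      conv_lhs => rw [hjz]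
      exact stp_lt.2 h1
    · simp; omega
    · intro z hz
      refine hmin z ?_
      simp at hz; omega

/-- the colours of a list of vertices -/
def cols (h : Fin n → Fin q) (l : List (Fin n)) : Finset (Fin q) := (l.map h).toFinset

theorem mem_cols {l : List (Fin n)} {c : Fin q} : c ∈ cols h l ↔ c ∈ l.map h := by
  simp [cols]

theorem cols_cons {l : List (Fin n)} {y : Fin n} : cols h (y :: l) = insert (h y) (cols h l) := by
  simp [cols]

/-- the walk up the stack -/
theorem walk {Vis : Finset (Fin q)} {fl : Bool} {st : List (Fin n)} (hnd : (st.map h).Nodup)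
    (hfirst : ∀ (a b : List (Fin n)) (y v : Fin n), st = a ++ y :: v :: b →
      IsFirst G v (fun z => h z ∈ (a ++ [y]).map h) y) {top : Fin n} {r : List (Fin n)}
    (htop : st = top :: r) :
    ∀ (m : ℕ) (a b : List (Fin n)) (v : Fin n), a.length = m → st = a ++ v :: b →
      Run h s t G (cols h st, Vis, some v, cols h (v :: b), 0, fl)
        (cols h st, Vis, some top, cols h st, 0, fl) := by
  intro m
  induction m with
  | zero =>
    intro a b v ha hst
    have : a = [] := List.length_eq_zero_iff.1 ha
    subst this
    simp only [List.nil_append] at hst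
    have hv : v = top := by rw [htop] at hst; exact (List.cons.inj hst).1.symm
    rw [← hst, ← hv]
    exact Run.refl _ _ _ _ _
  | succ m ih =>
    intro a b v ha hst
    have hane : a ≠ [] := by intro h0; subst h0; simp at ha
    obtain ⟨a', y, rfl⟩ : ∃ a' y, a = a' ++ [y] :=
      ⟨a.dropLast, a.getLast hane, (List.dropLast_append_getLast hane).symm⟩
    have hst' : st = a' ++ y :: v :: b := by rw [hst]; simp
    have hF := hfirst a' b y v hst'
    have hnd' : ((a' ++ [y]).map h ++ (v :: b).map h).Nodup := by
      have : st.map h = (a' ++ [y]).map h ++ (v :: b).map h := by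
        rw [hst', ← List.map_append]; simp
      rw [← this]; exact hnd
    have hdis := List.disjoint_of_nodup_append hnd'
    have hmem : ∀ c, c ∈ cols h st ↔ c ∈ (a' ++ [y]).map h ∨ c ∈ cols h (v :: b) := by
      intro c
      have : st.map h = (a' ++ [y]).map h ++ (v :: b).map h := by
        rw [hst', ← List.map_append]; simp
      rw [mem_cols, mem_cols, this, List.mem_append]
    have hyO : h y ∈ cols h st := (hmem _).2 (Or.inl (by simp))
    have hyP : h y ∉ cols h (v :: b) := by
      rw [mem_cols]
      intro hc
      exact hdis (by simp) hc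
    have hOP : ¬ cols h st ⊆ cols h (v :: b) := fun hs => hyP (hs hyO)
    have hW : ∀ z, Want h (cols h st) Vis (cols h (v :: b)) z ↔ h z ∈ (a' ++ [y]).map h := by
      intro z
      unfold Want
      rw [if_neg hOP]
      constructor
      · rintro ⟨h1, h2⟩
        rcases (hmem _).1 h1 with h3 | h3
        · exact h3
        · exact absurd h3 h2
      · intro h1
        refine ⟨(hmem _).2 (Or.inl h1), ?_⟩
        rw [mem_cols]
        exact fun h2 => hdis h1 h2
    have hrun := scan_found (h := h) (s := s) (t := t) (G := G) (Op := cols h st) (Vis := Vis)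
      (P := cols h (v :: b)) (u := v) (fl := fl) (y := y) hF.1 ((hW y).2 hF.2.1) y.val 0 (by simp)
      (by
        intro z _ hz hh
        exact hF.2.2 z hz ⟨hh.1, (hW z).1 hh.2⟩)
    have hmv : move h s t (cols h st) Vis (cols h (v :: b)) fl y
        = (cols h st, Vis, some y, cols h (y :: v :: b), 0, fl) := by
      unfold move
      rw [if_neg hOP, ← cols_cons]
    rw [hmv] at hrun
    refine hrun.trans (ih a' (v :: b) y ?_ hst')
    simp at ha; omega

/-- the machine state that codes a state of the search -/
def code (h : Fin n → Fin q) (s t : Fin n) (x : List (Fin n) × List (Fin n)) : DState n q :=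
  (cols h x.1, cols h x.2, some s, {h s}, 0, decide (t ∈ x.2))

/-- the halting state that codes the end of the search -/
def fin (h : Fin n → Fin q) (t : Fin n) (L : List (Fin n)) : DState n q :=
  (∅, cols h L, none, ∅, 0, decide (t ∈ L))

theorem step (i : ℕ) (hi : (dfs G h s i).1 ≠ []) :
    Run h s t G (code h s t (dfs G h s i))
      (if (dfs G h s (i + 1)).1 = [] then fin h t (dfs G h s (i + 1)).2
        else code h s t (dfs G h s (i + 1))) := by
  classical
  rcases hx : dfs G h s i with ⟨st, L⟩
  rw [hx] at hi
  simp only at hi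
  obtain ⟨top, r, rfl⟩ : ∃ top r, st = top :: r := List.exists_cons_of_ne_nil hi
  have hst1 : (dfs G h s i).1 = top :: r := by rw [hx]
  have hL1 : (dfs G h s i).2 = L := by rw [hx]
  have hndL : (L.map h).Nodup := by have := dfs_nodup (G := G) (h := h) (s := s) i; rwa [hL1] at this
  have hsub : (top :: r).Sublist L := by
    have := dfs_sublist (G := G) (h := h) (s := s) i
    rwa [hst1, hL1] at this
  have hnd : ((top :: r).map h).Nodup := (hsub.map h).nodup hndL
  have hlast : (top :: r).getLast? = some s := by
    rcases dfs_last (G := G) (h := h) (s := s) i with h0 | h0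
    · rw [hst1] at h0; exact absurd h0 (by simp)
    · rwa [hst1] at h0
  obtain ⟨a, ha⟩ : ∃ a, top :: r = a ++ [s] := by
    have h1 : (top :: r).getLast (by simp) = s := by
      rw [List.getLast?_eq_getLast_of_ne_nil (by simp)] at hlast
      exact Option.some.inj hlast
    refine ⟨(top :: r).dropLast, ?_⟩
    rw [← h1]
    exact (List.dropLast_append_getLast (by simp)).symm
  have hwalk := walk (h := h) (s := s) (t := t) (G := G) (Vis := cols h L)
    (fl := decide (t ∈ L)) (st := top :: r) hnd
    (fun a b y v hab => dfs_first (G := G) (h := h) (s := s) i (by rw [hst1]; exact hab))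
    (top := top) (r := r) rfl a.length a [] s rfl ha
  have hcode : code h s t (top :: r, L)
      = (cols h (top :: r), cols h L, some s, cols h [s], 0, decide (t ∈ L)) := by
    simp [code, cols]
  rw [hcode]
  refine hwalk.trans ?_
  have hW : ∀ z, Want h (cols h (top :: r)) (cols h L) (cols h (top :: r)) z
      ↔ h z ∉ L.map h := by
    intro z
    unfold Want
    rw [if_pos (Finset.Subset.refl _), mem_cols]
  have hsucc : dfs G h s (i + 1) = dfsStep G h (top :: r, L) := by rw [dfs_succ, hx]
  by_cases hy : ∃ y, IsFirst G top (fun y => h y ∉ L.map h) y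
  · have hF := hy.choose_spec
    set y := hy.choose with hydef
    have hs1 : dfs G h s (i + 1) = (y :: top :: r, y :: L) := by
      rw [hsucc, dfsStep, dif_pos hy]
    rw [hs1, if_neg (by simp)]
    have hrun := scan_found (h := h) (s := s) (t := t) (G := G) (Op := cols h (top :: r))
      (Vis := cols h L) (P := cols h (top :: r)) (u := top) (fl := decide (t ∈ L)) (y := y)
      hF.1 ((hW y).2 hF.2.1) y.val 0 (by simp)
      (by
        intro z _ hz hh
        exact hF.2.2 z hz ⟨hh.1, (hW z).1 hh.2⟩)
    have hmv : move h s t (cols h (top :: r)) (cols h L) (cols h (top :: r)) (decide (t ∈ L)) y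
        = code h s t (y :: top :: r, y :: L) := by
      unfold move code
      rw [if_pos (Finset.Subset.refl _)]
      simp only [cols_cons]
      congr 5
      by_cases h1 : y = t
      · simp [h1]
      · have h2 : ¬ t = y := fun h => h1 h.symm
        simp [h1, h2]
    rw [hmv] at hrun
    exact hrun
  · have hs1 : dfs G h s (i + 1) = (r, L) := by
      rw [hsucc, dfsStep, dif_neg hy]
    rw [hs1]
    have hnone : ∀ z : Fin n, ¬ ((top, z) ∈ G ∧
        Want h (cols h (top :: r)) (cols h L) (cols h (top :: r)) z) := by
      intro z hz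
      exact hy (exists_isFirst ⟨z, hz.1, (hW z).1 hz.2⟩)
    have hrun := scan_none (h := h) (s := s) (t := t) (G := G) (Op := cols h (top :: r))
      (Vis := cols h L) (P := cols h (top :: r)) (u := top) (fl := decide (t ∈ L)) n 0 (by simp)
      (fun z _ => hnone z)
    refine hrun.trans (Run.one ?_)
    rw [stp_last]
    have hnotin : h top ∉ cols h r := by
      rw [mem_cols]
      simp only [List.map_cons, List.nodup_cons] at hnd
      exact hnd.1
    have hera : (cols h (top :: r)).erase (h top) = cols h r := by
      rw [cols_cons, Finset.erase_insert hnotin]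
    rw [hera]
    have hiff : cols h r = ∅ ↔ r = [] := by
      simp [cols]
    by_cases hr : r = []
    · rw [if_pos (hiff.2 hr), if_pos hr]
      rfl
    · rw [if_neg (fun h0 => hr (hiff.1 h0)), if_neg hr]
      rfl

theorem run_to (i : ℕ) (hi : (dfs G h s i).1 ≠ []) :
    Run h s t G (code h s t ([s], [s])) (code h s t (dfs G h s i)) := by
  induction i with
  | zero => rw [dfs_zero]; exact Run.refl _ _ _ _ _
  | succ i ih =>
    have h1 : (dfs G h s i).1 ≠ [] := by
      intro h0
      rw [dfs_stable h0 (Nat.le_succ i)] at hi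
      exact hi h0
    have h2 := step (t := t) i h1
    rw [if_neg hi] at h2
    exact (ih h1).trans h2

theorem run_fin (G : Set (Fin n × Fin n)) (h : Fin n → Fin q) (s t : Fin n) :
    Run h s t G (code h s t ([s], [s])) (fin h t (dfsLog G h s)) := by
  have hex : ∃ i, (dfs G h s i).1 = [] := ⟨2 * n, dfs_stack_empty le_rfl⟩
  classical
  obtain ⟨i, hi⟩ : ∃ i, Nat.find hex = i + 1 := by
    rcases Nat.eq_zero_or_pos (Nat.find hex) with h0 | h0
    · exfalso
      have := Nat.find_spec hex
      rw [h0, dfs_zero] at this
      simp at this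
    · exact ⟨Nat.find hex - 1, by omega⟩
  have h1 : (dfs G h s (i + 1)).1 = [] := by rw [← hi]; exact Nat.find_spec hex
  have h2 : (dfs G h s i).1 ≠ [] := Nat.find_min hex (by omega)
  have h3 : i + 1 ≤ 2 * n := by rw [← hi]; exact Nat.find_min' hex (dfs_stack_empty le_rfl)
  have h4 : dfs G h s (2 * n) = dfs G h s (i + 1) := dfs_stable h1 h3
  have h5 := step (t := t) i h2
  rw [if_pos h1] at h5
  have h6 : dfsLog G h s = (dfs G h s (i + 1)).2 := by rw [dfsLog, h4]
  rw [h6]
  exact (run_to i h2).trans h5

theorem card_DState (n q : ℕ) : Fintype.card (DState n q) = 8 ^ q * (2 * (n + 1) ^ 2) := by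
  simp only [DState, Fintype.card_prod, Fintype.card_finset, Fintype.card_option,
    Fintype.card_fin, Fintype.card_bool]
  have : (8 : ℕ) ^ q = 2 ^ q * 2 ^ q * 2 ^ q := by
    rw [← mul_pow, ← mul_pow]
    norm_num
  rw [this]; ring

end DFSMachineAux

open DFSMachineAux in
theorem dfs_mem_bp {n q : ℕ} (h : Fin n → Fin q) {s t : Fin n} (hst : s ≠ t) :
    BP ((8 ^ q * (2 * (n + 1) ^ 2)) ^ 2)
      (fun G : Set (Fin n × Fin n) => t ∈ dfsLog G h s) := by
  rw [← card_DState]
  refine BP.of_machine (dvar s) (dhi h s t) (dlo h s) dhalt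
    (fun x => x.2.2.2.2.2 = true) (code h s t ([s], [s])) _ ?_
  intro G
  obtain ⟨i, hi⟩ := run_fin G h s t
  refine ⟨i, ?_⟩
  have hi' : (mstep (dvar s) (dhi h s t) (dlo h s) dhalt G)^[i] (code h s t ([s], [s]))
      = fin h t (dfsLog G h s) := hi
  rw [hi']
  constructor
  · simp [fin, dhalt]
  · simp [fin]

open DFSMachineAux in
theorem dfs_big_bp {n q : ℕ} (h : Fin n → Fin q) (s : Fin n) (k : ℕ) :
    BP ((8 ^ q * (2 * (n + 1) ^ 2)) ^ 2)
      (fun G : Set (Fin n × Fin n) => k < (dfsLog G h s).length) := by
  rw [← card_DState]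
  refine BP.of_machine (dvar s) (dhi h s s) (dlo h s) dhalt
    (fun x => k < x.2.1.card) (code h s s ([s], [s])) _ ?_
  intro G
  obtain ⟨i, hi⟩ := run_fin G h s s
  refine ⟨i, ?_⟩
  have hi' : (mstep (dvar s) (dhi h s s) (dlo h s) dhalt G)^[i] (code h s s ([s], [s]))
      = fin h s (dfsLog G h s) := hi
  rw [hi']
  constructor
  · simp [fin, dhalt]
  · have hnd : ((dfsLog G h s).map h).Nodup := dfs_nodup (2 * n)
    have : (cols h (dfsLog G h s)).card = (dfsLog G h s).length := by
      rw [cols, List.toFinset_card_of_nodup hnd, List.length_map]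
    simp [fin, this]

end Pool.Agent.Lib.NTh
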