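import Pool.Agent.Lib.Pe46137X.Defs

/-!
Branching programs, random digraphs and the two notions of the noise theorem.
-/

namespace Pool.Agent.Lib.NTh

open Pool.Agent.Lib.Pe46137 Pool.Agent.Lib.Pe46137X

/-- `g` is one of the properties in the list `l`, or constant -/
def Known {E : Type} (l : List (Set E → Prop)) (g : Set E → Prop) : Prop :=
  g ∈ l ∨ g = (fun _ => True) ∨ g = fun _ => False

/-- `l` lists the properties of the input (a set `G` of elements of `E`) that are decided at the
nodes of a deterministic branching program, last node first: a node reads a variable `e` and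
continues with `g` if `e ∈ G` and with `h` if `e ∉ G`, where `g` and `h` are earlier nodes or
constants -/
inductive Nodes {E : Type} : List (Set E → Prop) → Prop
  | nil : Nodes []
  | cons {l : List (Set E → Prop)} (e : E) (g h : Set E → Prop) :
      Nodes l → Known l g → Known l h → Nodes ((fun G => (e ∈ G ∧ g G) ∨ (e ∉ G ∧ h G)) :: l)

/-- `f` is decided by a deterministic branching program with at most `m` nodes -/
def BP {E : Type} (m : ℕ) (f : Set E → Prop) : Prop :=
  ∃ l, Nodes l ∧ l.length ≤ m ∧ Known l f

open Classical in
/-- the probability that `A` holds for the random set that contains each element `e` of the finite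
type `E` independently with probability `q e` -/
noncomputable def prob {E : Type} [Fintype E] (q : E → ℝ) (A : Set E → Prop) : ℝ :=
  ∑ R : Finset E, if A (R : Set E) then (∏ e ∈ R, q e) * ∏ e ∈ Rᶜ, (1 - q e) else 0

/-- `f` gives the wrong answer to the question whether `t` is reachable from `s` -/
def Wrong {V : Type} (f : Set (V × V) → Prop) (s t : V) (H : Set (V × V)) : Prop :=
  ¬ (f H ↔ Reachable H s t)

/-- there are branching programs of polynomial size that decide reachability exactly -/
def Exact : Prop :=
  ∃ K N : ℕ, ∀ n ≥ N, ∀ s t : Fin n, s ≠ t → ∃ f, BP (n ^ K) f ∧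
    ∀ G : Set (Fin n × Fin n), f G ↔ Reachable G s t

/-- there are branching programs of polynomial size that decide, for every digraph `G` on `n`
vertices, reachability in `G` with noise `c` (each of the `n ^ 2` ordered pairs is added as an arc
independently with probability `c / n`) with error probability at most `η n` -/
def Easy (c : ℝ) (η : ℕ → ℝ) : Prop :=
  ∃ K N : ℕ, ∀ n ≥ N, ∀ s t : Fin n, s ≠ t → ∃ f, BP (n ^ K) f ∧
    ∀ G : Set (Fin n × Fin n),
      prob (fun _ : Fin n × Fin n => c / n) (fun R => Wrong f s t (G ∪ R)) ≤ η n

end Pool.Agent.Lib.NTh
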