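import Pool.Agent.Lib.NTh.Defs

/-!
Module NTh.Expl: the exploration of the vertices reachable from `s` (difficulty: 2.2 h).

State `(D, X)`: discovered and processed vertices.  Step: if `D \ X` is nonempty take its least
element `v`, add the out-neighbours of `v` to `D` and `v` to `X`.

Proofs.
* `xpl_succ`, `xpl_succ'`: `Function.iterate_succ_apply`, `Function.iterate_succ_apply'`.
* `xpl_local`: induction on `i` with `xpl_succ` (the processed vertex is not in `X`).
* `xpl_outcome`: induction on `i` with `xpl_succ'`; the second components increase.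
* `xpl_reach`: induction on `i`.
* `xpl_alive`: along the run from `({s}, ∅)` the out-neighbours of the vertices of `X` are in `D`
  (induction).  If the second component of `xpl H (k+1)` has fewer than `k + 1` elements then at some
  step `i ≤ k` the set `D \ X` was empty (each step with `D \ X ≠ ∅` adds exactly one element to `X`),
  so `D = X` contains `s` and is closed under out-neighbours, hence contains all reachable vertices, and
  `X` has at most `k` elements: contradiction to `k < ncard`.
* `xpl_cases`: if the run is alive (`X.card = number of steps`) at step `k` but not at step `T`, let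
  `i` be the last step at which it is alive (`k ≤ i < T`); then `D \ X = ∅` at step `i`, so `D = X` and
  `D.card = i`.  For `T ≤ k` it is alive at step `T` (if `D \ X` is empty once, nothing changes any more).
-/

namespace Pool.Agent.Lib.NTh

open Pool.Agent.Lib.Pe46137 Pool.Agent.Lib.Pe46137X

variable {n : ℕ}

open Classical in
/-- the out-neighbours of `v` in the digraph `H` -/
noncomputable def nbr (H : Set (Fin n × Fin n)) (v : Fin n) : Finset (Fin n) :=
  Finset.univ.filter (fun w => (v, w) ∈ H)

/-- one step of the exploration -/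
noncomputable def xstep (H : Set (Fin n × Fin n)) (S : Finset (Fin n) × Finset (Fin n)) :
    Finset (Fin n) × Finset (Fin n) :=
  if h : (S.1 \ S.2).Nonempty then
    (S.1 ∪ nbr H ((S.1 \ S.2).min' h), insert ((S.1 \ S.2).min' h) S.2)
  else S

/-- the exploration -/
noncomputable def xpl (H : Set (Fin n × Fin n)) (i : ℕ) (S : Finset (Fin n) × Finset (Fin n)) :
    Finset (Fin n) × Finset (Fin n) :=
  (xstep H)^[i] S

variable {H H' : Set (Fin n × Fin n)} {S : Finset (Fin n) × Finset (Fin n)} {s : Fin n}

namespace ExplAux

theorem step_pos (h : (S.1 \ S.2).Nonempty) :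
    xstep H S = (S.1 ∪ nbr H ((S.1 \ S.2).min' h), insert ((S.1 \ S.2).min' h) S.2) := by
  unfold xstep
  rw [dif_pos h]

theorem step_neg (h : ¬ (S.1 \ S.2).Nonempty) : xstep H S = S := by
  unfold xstep
  rw [dif_neg h]

theorem step_fst : S.1 ⊆ (xstep H S).1 := by
  by_cases h : (S.1 \ S.2).Nonempty
  · rw [step_pos h]
    exact Finset.subset_union_left
  · rw [step_neg h]

theorem step_snd : S.2 ⊆ (xstep H S).2 := by
  by_cases h : (S.1 \ S.2).Nonempty
  · rw [step_pos h]
    exact Finset.subset_insert _ _
  · rw [step_neg h]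

theorem step_sub (hS : S.2 ⊆ S.1) : (xstep H S).2 ⊆ (xstep H S).1 := by
  by_cases h : (S.1 \ S.2).Nonempty
  · rw [step_pos h]
    have hm := Finset.min'_mem _ h
    rw [Finset.mem_sdiff] at hm
    intro x hx
    rw [Finset.mem_insert] at hx
    rcases hx with hx | hx
    · rw [hx]
      exact Finset.mem_union_left _ hm.1
    · exact Finset.mem_union_left _ (hS hx)
  · rw [step_neg h]
    exact hS

theorem step_card_pos (h : (S.1 \ S.2).Nonempty) : (xstep H S).2.card = S.2.card + 1 := by
  rw [step_pos h]
  have hm := Finset.min'_mem _ h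
  rw [Finset.mem_sdiff] at hm
  exact Finset.card_insert_of_notMem hm.2

theorem step_card : (xstep H S).2.card ≤ S.2.card + 1 := by
  by_cases h : (S.1 \ S.2).Nonempty
  · rw [step_card_pos h]
  · rw [step_neg h]
    omega

theorem nbr_congr {v : Fin n} (h : ∀ w, ((v, w) ∈ H ↔ (v, w) ∈ H')) : nbr H v = nbr H' v := by
  classical
  unfold nbr
  ext w
  simp only [Finset.mem_filter, Finset.mem_univ, true_and]
  exact h w

theorem mem_nbr {v w : Fin n} : w ∈ nbr H v ↔ (v, w) ∈ H := by
  classical
  unfold nbr
  simp

theorem step_congr (h : ∀ hne : (S.1 \ S.2).Nonempty, ∀ w,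
    (((S.1 \ S.2).min' hne, w) ∈ H ↔ ((S.1 \ S.2).min' hne, w) ∈ H')) :
    xstep H S = xstep H' S := by
  by_cases hne : (S.1 \ S.2).Nonempty
  · rw [step_pos hne, step_pos hne, nbr_congr (h hne)]
  · rw [step_neg hne, step_neg hne]

end ExplAux

open ExplAux

theorem xpl_zero : xpl H 0 S = S := by
  rfl

theorem xpl_succ (i : ℕ) : xpl H (i + 1) S = xpl H i (xstep H S) := by
  unfold xpl
  rw [Function.iterate_succ_apply]

theorem xpl_succ' (i : ℕ) : xpl H (i + 1) S = xstep H (xpl H i S) := by
  unfold xpl
  rw [Function.iterate_succ_apply']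

theorem xpl_fst (i : ℕ) : S.1 ⊆ (xpl H i S).1 := by
  induction i with
  | zero => exact subset_rfl
  | succ i ih =>
    rw [xpl_succ']
    exact ih.trans step_fst

theorem xpl_snd (i : ℕ) : S.2 ⊆ (xpl H i S).2 := by
  induction i with
  | zero => exact subset_rfl
  | succ i ih =>
    rw [xpl_succ']
    exact ih.trans step_snd

theorem xpl_subset (hS : S.2 ⊆ S.1) (i : ℕ) : (xpl H i S).2 ⊆ (xpl H i S).1 := by
  induction i with
  | zero => exact hS
  | succ i ih =>
    rw [xpl_succ']
    exact step_sub ih

theorem xpl_card_le (i : ℕ) : (xpl H i S).2.card ≤ S.2.card + i := by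
  induction i with
  | zero => exact le_rfl
  | succ i ih =>
    rw [xpl_succ']
    have := step_card (H := H) (S := xpl H i S)
    omega

/-- only the rows of unprocessed vertices matter -/
theorem xpl_local (i : ℕ) (h : ∀ v w, v ∉ S.2 → ((v, w) ∈ H ↔ (v, w) ∈ H')) :
    xpl H i S = xpl H' i S := by
  induction i generalizing S with
  | zero => rfl
  | succ i ih =>
    rw [xpl_succ, xpl_succ]
    have h1 : xstep H S = xstep H' S := by
      refine step_congr fun hne w => h _ w ?_
      have hm := Finset.min'_mem _ hne
      rw [Finset.mem_sdiff] at hm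
      exact hm.2
    rw [← h1]
    exact ih fun v w hv => h v w fun hv' => hv (step_snd hv')

/-- only the rows of the vertices processed in the run matter -/
theorem xpl_outcome (i : ℕ) (h : ∀ v w, v ∈ (xpl H i S).2 → ((v, w) ∈ H ↔ (v, w) ∈ H')) :
    xpl H' i S = xpl H i S := by
  induction i with
  | zero => rfl
  | succ i ih =>
    have h1 : xpl H' i S = xpl H i S := by
      refine ih fun v w hv => h v w ?_
      rw [xpl_succ']
      exact step_snd hv
    rw [xpl_succ', xpl_succ', h1]
    symm
    refine step_congr fun hne w => h _ w ?_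
    rw [xpl_succ', step_pos hne]
    exact Finset.mem_insert_self _ _

theorem xpl_reach (i : ℕ) {x : Fin n} (hx : x ∈ (xpl H i ({s}, ∅)).1) : Reachable H s x := by
  induction i generalizing x with
  | zero =>
    have hx' : x ∈ ({s} : Finset (Fin n)) := hx
    rw [Finset.mem_singleton] at hx'
    rw [hx']
    exact Relation.ReflTransGen.refl
  | succ i ih =>
    rw [xpl_succ'] at hx
    by_cases hne : ((xpl H i ({s}, ∅)).1 \ (xpl H i ({s}, ∅)).2).Nonempty
    · rw [step_pos hne] at hx
      rw [Finset.mem_union] at hx
      rcases hx with hx | hx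
      · exact ih hx
      · have hm := Finset.min'_mem _ hne
        rw [Finset.mem_sdiff] at hm
        exact Relation.ReflTransGen.tail (ih hm.1) (mem_nbr.1 hx)
    · rw [step_neg hne] at hx
      exact ih hx

theorem xpl_alive {k : ℕ} (hk : k < {x | Reachable H s x}.ncard) :
    (xpl H (k + 1) ({s}, ∅)).2.card = k + 1 := by
  have hclos : ∀ i, ∀ v ∈ (xpl H i ({s}, ∅)).2, ∀ w, (v, w) ∈ H → w ∈ (xpl H i ({s}, ∅)).1 := by
    intro i
    induction i with
    | zero =>
      intro v hv
      have hv' : v ∈ (∅ : Finset (Fin n)) := hv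
      simp at hv'
    | succ i ih =>
      intro v hv w hw
      rw [xpl_succ'] at hv ⊢
      by_cases hne : ((xpl H i ({s}, ∅)).1 \ (xpl H i ({s}, ∅)).2).Nonempty
      · rw [step_pos hne] at hv ⊢
        rw [Finset.mem_insert] at hv
        rcases hv with hv | hv
        · refine Finset.mem_union_right _ (mem_nbr.2 ?_)
          rw [← hv]
          exact hw
        · exact Finset.mem_union_left _ (ih v hv w hw)
      · rw [step_neg hne] at hv ⊢
        exact ih v hv w hw
  have key : ∀ i, i ≤ k + 1 → (xpl H i ({s}, ∅)).2.card = i := by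
    intro i
    induction i with
    | zero =>
      intro _
      change (∅ : Finset (Fin n)).card = 0
      exact Finset.card_empty
    | succ i ih =>
      intro hi
      have h1 := ih (by omega)
      by_cases hne : ((xpl H i ({s}, ∅)).1 \ (xpl H i ({s}, ∅)).2).Nonempty
      · rw [xpl_succ', step_card_pos hne, h1]
      · exfalso
        rw [Finset.not_nonempty_iff_eq_empty, Finset.sdiff_eq_empty_iff_subset] at hne
        have hsub : {x | Reachable H s x} ⊆ ((xpl H i ({s}, ∅)).1 : Set (Fin n)) := by
          intro x hx
          have hx' : Relation.ReflTransGen (fun a b => (a, b) ∈ H) s x := hx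
          induction hx' with
          | refl =>
            exact Finset.mem_coe.2 (xpl_fst i (Finset.mem_singleton_self s))
          | tail hab hbc ih2 =>
            exact Finset.mem_coe.2 (hclos i _ (hne (Finset.mem_coe.1 (ih2 hab))) _ hbc)
        have h2 := Set.ncard_le_ncard hsub (Finset.finite_toSet _)
        rw [Set.ncard_coe_finset] at h2
        have h3 := Finset.card_le_card hne
        omega
  exact key (k + 1) le_rfl

theorem xpl_cases {k : ℕ} (hk : (xpl H k ({s}, ∅)).2.card = k) (T : ℕ) :
    (xpl H T ({s}, ∅)).2.card = T ∨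
      ∃ i, k ≤ i ∧ i < T ∧ (xpl H i ({s}, ∅)).2.card = i ∧ (xpl H i ({s}, ∅)).1.card = i := by
  have hadd : ∀ i j, xpl H (i + j) ({s}, ∅) = xpl H j (xpl H i ({s}, ∅)) := by
    intro i j
    unfold xpl
    rw [Nat.add_comm, Function.iterate_add_apply]
  have hmono : ∀ i, i ≤ k → (xpl H i ({s}, ∅)).2.card = i := by
    intro i hi
    have h1 : (xpl H i ({s}, ∅)).2.card ≤ (∅ : Finset (Fin n)).card + i :=
      xpl_card_le (H := H) (S := ({s}, ∅)) i
    rw [Finset.card_empty] at h1
    have h2 := xpl_card_le (H := H) (S := xpl H i ({s}, ∅)) (k - i)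
    rw [← hadd, Nat.add_sub_cancel' hi, hk] at h2
    omega
  induction T with
  | zero =>
    left
    change (∅ : Finset (Fin n)).card = 0
    exact Finset.card_empty
  | succ T ih =>
    rcases ih with ih | ⟨i, h1, h2, h3⟩
    · by_cases hne : ((xpl H T ({s}, ∅)).1 \ (xpl H T ({s}, ∅)).2).Nonempty
      · left
        rw [xpl_succ', step_card_pos hne, ih]
      · by_cases hkT : k ≤ T
        · right
          refine ⟨T, hkT, Nat.lt_succ_self T, ih, ?_⟩
          rw [Finset.not_nonempty_iff_eq_empty, Finset.sdiff_eq_empty_iff_subset] at hne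
          have hsub := xpl_subset (H := H) (S := ({s}, ∅)) (Finset.empty_subset _) T
          rw [Finset.Subset.antisymm hne hsub, ih]
        · left
          exact hmono (T + 1) (by omega)
    · right
      exact ⟨i, h1, by omega, h3⟩

end Pool.Agent.Lib.NTh
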