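import Pool.Agent.Lib.NTh.Prob
import Pool.Agent.Lib.NTh.Expl

/-!
Module NTh.ExplProb: the exploration grows (difficulty: 2.2 h).

Proof of `xpl_prob` by induction on `i`, for all `(D, X)`.  Let
`E_i(D,X) = [(xpl H i (D,X)).2.card = X.card + i and (xpl H i (D,X)).1.card ≤ M]`.
* If `M < D.card` the probability is `0` (`xpl_fst`), and the right side is nonnegative.
* `i = 0`, `D.card ≤ M`: `θ^M ≤ θ^D.card`.
* `i + 1`, `D.card ≤ M`: if `D \ X = ∅` the probability is `0` (the state does not change, the card of the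
  second component stays `X.card`).  Otherwise let `v` be the least element of `D \ X`,
  `B = {(v, w) | w}` (a finset of pairs).  By `prob_resample` with `S = B`:
  `prob E_(i+1)(D,X) = ∑_{N ⊆ B} w(N) prob (fun R => E_(i+1)(D,X) ((R \ B) ∪ N))`, and for
  `H = (R \ B) ∪ N` one has `nbr H v = N' := {w | (v,w) ∈ N}` and, by `xpl_succ` and `xpl_local`
  (with `X ∪ {v}` as processed set), `E_(i+1)(D,X)(H) ↔ E_i(D ∪ N', insert v X)(R)`
  (`(insert v X).card = X.card + 1` as `v ∉ X`).  Induction hypothesis: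
  `θ^M prob E_i(D ∪ N', insert v X) ≤ θ^(D ∪ N').card ρ^i`, `ρ = (1 - (1-θ) p)^(n-M)`, and
  `∑_{N ⊆ B} w(N) θ^(D ∪ N').card = θ^D.card ∏_{w} (q (v,w) * (if w ∈ D then 1 else θ) + 1 - q (v,w))
   ≤ θ^D.card (1 - (1-θ) p)^(n - D.card) ≤ θ^D.card ρ` (`Finset.prod_add`; all factors are in `[0,1]`,
  and `n - M ≤ n - D.card`).
-/

namespace Pool.Agent.Lib.NTh

open Pool.Agent.Lib.Pe46137 Pool.Agent.Lib.Pe46137X

namespace ExplProbAux

variable {n : ℕ}

/-- the row of `v` -/
def emb (v : Fin n) : Fin n ↪ Fin n × Fin n :=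
  ⟨fun w => (v, w), fun _ _ h => (Prod.mk.inj h).2⟩

theorem mem_row {u v w : Fin n} {N : Finset (Fin n)} :
    (u, w) ∈ N.map (emb v) ↔ u = v ∧ w ∈ N := by
  rw [Finset.mem_map]
  constructor
  · rintro ⟨a, ha, h⟩
    have h1 : (v, a) = (u, w) := h
    rw [Prod.mk.injEq] at h1
    exact ⟨h1.1.symm, h1.2 ▸ ha⟩
  · rintro ⟨rfl, h⟩
    exact ⟨w, h, rfl⟩

/-- resampling of one row -/
theorem resample_row {q : Fin n × Fin n → ℝ} (v : Fin n) (A : Set (Fin n × Fin n) → Prop) :
    prob q A = ∑ N ∈ (Finset.univ : Finset (Fin n)).powerset,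
      ((∏ w ∈ N, q (v, w)) * ∏ w ∈ Finset.univ \ N, (1 - q (v, w))) *
      prob q (fun R => A ((R \ ((Finset.univ.map (emb v) : Finset (Fin n × Fin n)) :
        Set (Fin n × Fin n))) ∪ ((N.map (emb v) : Finset (Fin n × Fin n)) :
        Set (Fin n × Fin n)))) := by
  classical
  rw [prob_resample (Finset.univ.map (emb v)) A]
  symm
  refine Finset.sum_nbij' (fun N => N.map (emb v))
    (fun N => Finset.univ.filter (fun w => (v, w) ∈ N)) ?_ ?_ ?_ ?_ ?_
  · intro N _
    rw [Finset.mem_powerset]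
    exact Finset.map_subset_map.2 (Finset.subset_univ N)
  · intro N _
    rw [Finset.mem_powerset]
    exact Finset.subset_univ _
  · intro N _
    ext w
    simp only [Finset.mem_filter, Finset.mem_univ, true_and, mem_row]
  · intro N hN
    rw [Finset.mem_powerset] at hN
    ext e
    simp only [Finset.mem_map, Finset.mem_filter, Finset.mem_univ, true_and]
    constructor
    · rintro ⟨w, hw, rfl⟩
      exact hw
    · intro he
      obtain ⟨w, _, rfl⟩ := Finset.mem_map.1 (hN he)
      exact ⟨w, he, rfl⟩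
  · intro N _
    rw [← Finset.map_sdiff, Finset.prod_map, Finset.prod_map]
    rfl

theorem nbr_row (v : Fin n) (N : Finset (Fin n)) (R : Set (Fin n × Fin n)) :
    nbr ((R \ ((Finset.univ.map (emb v) : Finset (Fin n × Fin n)) : Set (Fin n × Fin n))) ∪
      ((N.map (emb v) : Finset (Fin n × Fin n)) : Set (Fin n × Fin n))) v = N := by
  ext w
  simp only [nbr, Finset.mem_filter, Finset.mem_univ, true_and, Set.mem_union, Set.mem_sdiff,
    Finset.mem_coe, mem_row, and_true, not_true_eq_false, and_false, false_or]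

theorem sum_row {q : Fin n × Fin n → ℝ} (v : Fin n) (D : Finset (Fin n)) (θ : ℝ) :
    ∑ N ∈ (Finset.univ : Finset (Fin n)).powerset,
      ((∏ w ∈ N, q (v, w)) * ∏ w ∈ Finset.univ \ N, (1 - q (v, w))) * θ ^ (D ∪ N).card =
    θ ^ D.card * ∏ w, (q (v, w) * (if w ∈ D then 1 else θ) + (1 - q (v, w))) := by
  rw [Finset.prod_add, Finset.mul_sum]
  refine Finset.sum_congr rfl fun N _ => ?_
  have h1 : (D ∪ N).card = D.card + (N \ D).card := by
    rw [← Finset.union_sdiff_self_eq_union, Finset.card_union_of_disjoint Finset.disjoint_sdiff]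
  have h2 : ∏ w ∈ N, (if w ∈ D then (1 : ℝ) else θ) = θ ^ (N \ D).card := by
    rw [Finset.prod_ite, Finset.prod_const_one, one_mul, Finset.prod_const,
      Finset.sdiff_eq_filter]
  rw [h1, pow_add, Finset.prod_mul_distrib, h2]
  ring

theorem prod_row_le {q : Fin n × Fin n → ℝ} {p θ : ℝ} (hp : 0 ≤ p) (hq : ∀ e, p ≤ q e)
    (hq1 : ∀ e, q e ≤ 1) (hθ : 0 < θ) (hθ1 : θ ≤ 1) (v : Fin n) (D : Finset (Fin n)) {M : ℕ}
    (hDM : D.card ≤ M) :
    ∏ w, (q (v, w) * (if w ∈ D then 1 else θ) + (1 - q (v, w))) ≤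
      (1 - (1 - θ) * p) ^ (n - M) := by
  have hp1 : p ≤ 1 := (hq (v, v)).trans (hq1 _)
  have hr0 : 0 ≤ 1 - (1 - θ) * p := by nlinarith
  have hr1 : 1 - (1 - θ) * p ≤ 1 := by
    have := mul_nonneg (sub_nonneg.2 hθ1) hp
    linarith
  calc ∏ w, (q (v, w) * (if w ∈ D then 1 else θ) + (1 - q (v, w)))
      ≤ ∏ w : Fin n, (if w ∈ D then (1 : ℝ) else (1 - (1 - θ) * p)) := by
        refine Finset.prod_le_prod (fun w _ => ?_) (fun w _ => ?_)
        · have h1 := hq1 (v, w)
          have h2 := hp.trans (hq (v, w))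
          split_ifs
          · linarith
          · have := mul_nonneg h2 hθ.le
            linarith
        · have h1 := hq1 (v, w)
          have h2 := hq (v, w)
          split_ifs
          · linarith
          · have := mul_le_mul_of_nonneg_left h2 (sub_nonneg.2 hθ1)
            nlinarith
    _ = (1 - (1 - θ) * p) ^ (n - D.card) := by
        rw [Finset.prod_ite, Finset.prod_const_one, one_mul, Finset.prod_const]
        congr 1
        rw [← Finset.sdiff_eq_filter, Finset.card_sdiff_of_subset (Finset.subset_univ D),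
          Finset.card_univ, Fintype.card_fin]
    _ ≤ (1 - (1 - θ) * p) ^ (n - M) := pow_le_pow_of_le_one hr0 hr1 (by omega)

end ExplProbAux

open ExplProbAux

theorem xpl_prob {n : ℕ} {q : Fin n × Fin n → ℝ} {p θ : ℝ} (hp : 0 ≤ p) (hq : ∀ e, p ≤ q e)
    (hq1 : ∀ e, q e ≤ 1) (hθ : 0 < θ) (hθ1 : θ ≤ 1) (M i : ℕ) (D X : Finset (Fin n))
    (hXD : X ⊆ D) :
    θ ^ M * prob q (fun H => (xpl H i (D, X)).2.card = X.card + i ∧ (xpl H i (D, X)).1.card ≤ M) ≤
      θ ^ D.card * ((1 - (1 - θ) * p) ^ (n - M)) ^ i := by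
  have hq0 : ∀ e, 0 ≤ q e := fun e => hp.trans (hq e)
  have hρ : 0 ≤ (1 - (1 - θ) * p) ^ (n - M) := by
    rcases Nat.eq_zero_or_pos n with rfl | hn
    · simp
    · have hp1 : p ≤ 1 := (hq (⟨0, hn⟩, ⟨0, hn⟩)).trans (hq1 _)
      exact pow_nonneg (by nlinarith) _
  have hRHS : ∀ (D' : Finset (Fin n)) (j : ℕ),
      0 ≤ θ ^ D'.card * ((1 - (1 - θ) * p) ^ (n - M)) ^ j := fun D' j =>
    mul_nonneg (pow_nonneg hθ.le _) (pow_nonneg hρ _)
  induction i generalizing D X with
  | zero =>
    by_cases hDM : D.card ≤ M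
    · rw [pow_zero, mul_one]
      calc θ ^ M * prob q _ ≤ θ ^ M * 1 :=
            mul_le_mul_of_nonneg_left (prob_le_one hq0 hq1) (pow_nonneg hθ.le _)
        _ ≤ θ ^ D.card := by
            rw [mul_one]
            exact pow_le_pow_of_le_one hθ.le hθ1 hDM
    · rw [prob_congr (B := fun _ => False) (fun R => ⟨fun h => ?_, False.elim⟩), prob_false,
        mul_zero]
      · exact hRHS D 0
      · exact hDM (le_trans (Finset.card_le_card (xpl_fst (S := (D, X)) (H := R) 0)) h.2)
  | succ i ih =>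
    by_cases hDM : D.card ≤ M
    swap
    · rw [prob_congr (B := fun _ => False) (fun R => ⟨fun h => ?_, False.elim⟩), prob_false,
        mul_zero]
      · exact hRHS D (i + 1)
      · exact hDM (le_trans (Finset.card_le_card (xpl_fst (S := (D, X)) (H := R) (i + 1))) h.2)
    by_cases hne : (D \ X).Nonempty
    swap
    · rw [prob_congr (B := fun _ => False) (fun R => ⟨fun h => ?_, False.elim⟩), prob_false,
        mul_zero]
      · exact hRHS D (i + 1)
      · have h1 : xstep R (D, X) = (D, X) := by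
          unfold xstep
          rw [dif_neg hne]
        have h2 := h.1
        rw [xpl_succ, h1] at h2
        have h3 := xpl_card_le (H := R) (S := (D, X)) i
        simp only at h3
        omega
    · set v := (D \ X).min' hne with hv
      have hvm : v ∈ D \ X := Finset.min'_mem _ hne
      rw [Finset.mem_sdiff] at hvm
      have hstep : ∀ H : Set (Fin n × Fin n),
          xpl H (i + 1) (D, X) = xpl H i (D ∪ nbr H v, insert v X) := by
        intro H
        rw [xpl_succ]
        unfold xstep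
        rw [dif_pos hne]
      rw [resample_row v, Finset.mul_sum]
      have hterm : ∀ N ∈ (Finset.univ : Finset (Fin n)).powerset,
          θ ^ M * (((∏ w ∈ N, q (v, w)) * ∏ w ∈ Finset.univ \ N, (1 - q (v, w))) *
            prob q (fun R => (fun H => (xpl H (i + 1) (D, X)).2.card = X.card + (i + 1) ∧
              (xpl H (i + 1) (D, X)).1.card ≤ M) ((R \ ((Finset.univ.map (emb v) :
              Finset (Fin n × Fin n)) : Set (Fin n × Fin n))) ∪ ((N.map (emb v) :
              Finset (Fin n × Fin n)) : Set (Fin n × Fin n))))) ≤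
          (((∏ w ∈ N, q (v, w)) * ∏ w ∈ Finset.univ \ N, (1 - q (v, w))) *
            θ ^ (D ∪ N).card) * ((1 - (1 - θ) * p) ^ (n - M)) ^ i := by
        intro N _
        have hw : 0 ≤ (∏ w ∈ N, q (v, w)) * ∏ w ∈ Finset.univ \ N, (1 - q (v, w)) :=
          mul_nonneg (Finset.prod_nonneg fun w _ => hq0 _)
            (Finset.prod_nonneg fun w _ => sub_nonneg.2 (hq1 _))
        have hcg : prob q (fun R => (fun H => (xpl H (i + 1) (D, X)).2.card = X.card + (i + 1) ∧
              (xpl H (i + 1) (D, X)).1.card ≤ M) ((R \ ((Finset.univ.map (emb v) :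
              Finset (Fin n × Fin n)) : Set (Fin n × Fin n))) ∪ ((N.map (emb v) :
              Finset (Fin n × Fin n)) : Set (Fin n × Fin n)))) =
            prob q (fun H => (xpl H i (D ∪ N, insert v X)).2.card = (insert v X).card + i ∧
              (xpl H i (D ∪ N, insert v X)).1.card ≤ M) := by
          refine prob_congr fun R => ?_
          simp only
          rw [hstep, nbr_row, Finset.card_insert_of_notMem hvm.2,
            xpl_local (H' := R) i ?_]
          · rw [show X.card + (i + 1) = X.card + 1 + i by ring]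
          · intro u w hu
            simp only [Finset.mem_insert, not_or] at hu
            have huv : u ≠ v := hu.1
            simp only [Set.mem_union, Set.mem_sdiff, Finset.mem_coe, mem_row, huv, false_and,
              not_false_eq_true, and_true, or_false]
        rw [hcg]
        have h2 := ih (D ∪ N) (insert v X)
          (Finset.insert_subset (Finset.mem_union_left _ hvm.1)
            (hXD.trans Finset.subset_union_left))
        calc θ ^ M * (((∏ w ∈ N, q (v, w)) * ∏ w ∈ Finset.univ \ N, (1 - q (v, w))) *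
              prob q (fun H => (xpl H i (D ∪ N, insert v X)).2.card = (insert v X).card + i ∧
              (xpl H i (D ∪ N, insert v X)).1.card ≤ M))
            = ((∏ w ∈ N, q (v, w)) * ∏ w ∈ Finset.univ \ N, (1 - q (v, w))) * (θ ^ M *
              prob q (fun H => (xpl H i (D ∪ N, insert v X)).2.card = (insert v X).card + i ∧
              (xpl H i (D ∪ N, insert v X)).1.card ≤ M)) := by ring
          _ ≤ ((∏ w ∈ N, q (v, w)) * ∏ w ∈ Finset.univ \ N, (1 - q (v, w))) *
              (θ ^ (D ∪ N).card * ((1 - (1 - θ) * p) ^ (n - M)) ^ i) :=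
              mul_le_mul_of_nonneg_left h2 hw
          _ = _ := by ring
      refine (Finset.sum_le_sum hterm).trans ?_
      rw [← Finset.sum_mul, sum_row, pow_succ]
      have h3 := prod_row_le hp hq hq1 hθ hθ1 v D hDM
      calc θ ^ D.card * (∏ w, (q (v, w) * (if w ∈ D then 1 else θ) + (1 - q (v, w)))) *
            ((1 - (1 - θ) * p) ^ (n - M)) ^ i
          ≤ θ ^ D.card * ((1 - (1 - θ) * p) ^ (n - M)) *
            ((1 - (1 - θ) * p) ^ (n - M)) ^ i := by
            apply mul_le_mul_of_nonneg_right _ (pow_nonneg hρ _)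
            exact mul_le_mul_of_nonneg_left h3 (pow_nonneg hθ.le _)
        _ = _ := by ring

/-- the case of the start `({s}, ∅)` -/
theorem xpl_prob_start {n : ℕ} {q : Fin n × Fin n → ℝ} {p θ : ℝ} (hp : 0 ≤ p)
    (hq : ∀ e, p ≤ q e) (hq1 : ∀ e, q e ≤ 1) (hθ : 0 < θ) (hθ1 : θ ≤ 1) (M i : ℕ) (s : Fin n) :
    θ ^ M * prob q (fun H => (xpl H i ({s}, ∅)).2.card = i ∧ (xpl H i ({s}, ∅)).1.card ≤ M) ≤
      ((1 - (1 - θ) * p) ^ (n - M)) ^ i := by
  have h := xpl_prob hp hq hq1 hθ hθ1 M i {s} ∅ (Finset.empty_subset _)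
  rw [Finset.card_empty, Finset.card_singleton, pow_one] at h
  simp only [zero_add] at h
  have hρ : 0 ≤ ((1 - (1 - θ) * p) ^ (n - M)) ^ i := by
    have hp1 : p ≤ 1 := (hq (s, s)).trans (hq1 _)
    exact pow_nonneg (pow_nonneg (by nlinarith) _) _
  refine h.trans ?_
  calc θ * ((1 - (1 - θ) * p) ^ (n - M)) ^ i ≤ 1 * ((1 - (1 - θ) * p) ^ (n - M)) ^ i :=
        mul_le_mul_of_nonneg_right hθ1 hρ
    _ = _ := one_mul _

end Pool.Agent.Lib.NTh
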