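import Pool.Agent.Lib.NTh.Algo

/-!
Module NTh.FormUp: for constant `k` the property `ReachOrBig k s t` has monotone formulas of
polynomial size (difficulty: 1.8 h).

Proof.  Let `V = Fin n`.
(a) `Reachable G s t` together with at most `k` vertices are reachable from `s` or at most `k`
vertices reach `t` implies a walk with at most `k` arcs (even `k - 1`) from `s` to `t`: a path without
repeated vertices has all its vertices reachable from `s` (and they all reach `t`).  So
`ReachOrBig k s t G ↔ Short ∨ (Big ∧ Cobig)` with `Short` = there is `w : Fin (k+1) → V` with `w 0 = s`,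
`w k = t` and each `(w i, w (i+1)) ∈ G` or `w i = w (i+1)`.
(b) `Big` (more than `k` vertices are reachable from `s`) holds iff there are an injective
`w : Fin (k+1) → V` with `w 0 = s` and a map `p : Fin (k+1) → Fin (k+1)` with `p i < i` and
`(w (p i), w i) ∈ G` for all `i ≠ 0`: conversely add vertices one by one (if a set of at most `k`
reachable vertices containing `s` had no arc leaving it, nothing else would be reachable).  Same for
`Cobig` with the arcs `(w i, w (p i))` and `w 0 = t`.
(c) Each is a disjunction over at most `n^(k+1) (k+1)^(k+1)` terms, each a conjunction of at most `k` arc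
variables (or constants): at most `3 n^(k+1) (k+1)^(k+1) k ≤ n^K'` leaves (`K' = k + 2`, say, for `n` large).
General lemmas: for a finite list (finset) of formulas there are formulas for the conjunction and the
disjunction, the number of leaves is the sum.
-/

namespace Pool.Agent.Lib.NTh

open Pool.Agent.Lib.Pe46137 Pool.Agent.Lib.Pe46137X

namespace FormUpAux

variable {V : Type}

/-- disjunction of a list of formulas -/
def orL : List (Formula V) → Formula V
  | [] => Formula.const false
  | F :: L => Formula.or F (orL L)

theorem eval_orL (L : List (Formula V)) (G : Set (V × V)) :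
    (orL L).Eval G ↔ ∃ F ∈ L, F.Eval G := by
  induction L with
  | nil => simp [orL, Formula.Eval]
  | cons F L ih => simp [orL, Formula.Eval, ih]

theorem leaves_orL (L : List (Formula V)) (m : ℕ) (h : ∀ F ∈ L, F.leaves ≤ m) :
    (orL L).leaves ≤ L.length * m := by
  induction L with
  | nil => simp [orL, Formula.leaves]
  | cons F L ih =>
    have h1 := ih fun F hF => h F (List.mem_cons_of_mem _ hF)
    have h2 := h F List.mem_cons_self
    simp only [orL, Formula.leaves, List.length_cons]
    rw [Nat.add_mul, one_mul]
    omega

/-- all arc variables reversed -/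
def swap : Formula V → Formula V
  | Formula.const b => Formula.const b
  | Formula.arc u v => Formula.arc v u
  | Formula.and F F' => Formula.and (swap F) (swap F')
  | Formula.or F F' => Formula.or (swap F) (swap F')

theorem eval_swap (F : Formula V) (G : Set (V × V)) : (swap F).Eval G ↔ F.Eval (rev G) := by
  induction F with
  | const b => rfl
  | arc u v => rfl
  | and F F' h h' => exact and_congr h h'
  | or F F' h h' => exact or_congr h h'

theorem leaves_swap (F : Formula V) : (swap F).leaves = F.leaves := by
  induction F with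
  | const b => rfl
  | arc u v => rfl
  | and F F' h h' => simp only [swap, Formula.leaves, h, h']
  | or F F' h h' => simp only [swap, Formula.leaves, h, h']

variable [Fintype V]

open Classical in
/-- the list `l` can be extended by at most `m` vertices, one by one along arcs leaving it, to a list
with the property `acc` -/
noncomputable def gF (acc : List V → Bool) : ℕ → List V → Formula V
  | 0, l => Formula.const (acc l)
  | m + 1, l => Formula.or (Formula.const (acc l))
      (orL (((Finset.univ : Finset (V × V)).filter (fun p => p.1 ∈ l ∧ p.2 ∉ l)).toList.map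
        (fun p => Formula.and (Formula.arc p.1 p.2) (gF acc m (p.2 :: l)))))

theorem leaves_gF (acc : List V → Bool) (m : ℕ) (l : List V) (hV : 1 ≤ Fintype.card V) :
    (gF acc m l).leaves ≤ (2 * (Fintype.card V) ^ 2) ^ m := by
  classical
  induction m generalizing l with
  | zero => simp [gF, Formula.leaves]
  | succ m ih =>
    simp only [gF, Formula.leaves, zero_add]
    refine (leaves_orL _ (1 + (2 * (Fintype.card V) ^ 2) ^ m) ?_).trans ?_
    · intro F hF
      obtain ⟨p, -, rfl⟩ := List.mem_map.1 hF
      simp only [Formula.leaves]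
      have := ih (p.2 :: l)
      omega
    · have h1 : (((Finset.univ : Finset (V × V)).filter
          (fun p => p.1 ∈ l ∧ p.2 ∉ l)).toList.map
          (fun p => Formula.and (Formula.arc p.1 p.2) (gF acc m (p.2 :: l)))).length ≤
          (Fintype.card V) ^ 2 := by
        rw [List.length_map, Finset.length_toList]
        refine (Finset.card_filter_le _ _).trans ?_
        rw [Finset.card_univ, Fintype.card_prod, sq]
      have h2 : 1 ≤ (2 * (Fintype.card V) ^ 2) ^ m := Nat.one_le_pow _ _ (by positivity)
      calc _ ≤ (Fintype.card V) ^ 2 * (1 + (2 * (Fintype.card V) ^ 2) ^ m) :=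
            Nat.mul_le_mul_right _ h1
        _ ≤ (Fintype.card V) ^ 2 * (2 * (2 * (Fintype.card V) ^ 2) ^ m) :=
            Nat.mul_le_mul_left _ (by omega)
        _ = _ := by ring

theorem gF_sound (acc : List V → Bool) {G : Set (V × V)} {s : V} (m : ℕ) (l : List V)
    (hn : l.Nodup) (hl : ∀ x ∈ l, Reachable G s x) (h : (gF acc m l).Eval G) :
    ∃ l' : List V, acc l' = true ∧ l'.Nodup ∧ ∀ x ∈ l', Reachable G s x := by
  classical
  induction m generalizing l with
  | zero => exact ⟨l, h, hn, hl⟩
  | succ m ih =>
    rcases h with h | h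
    · exact ⟨l, h, hn, hl⟩
    · rw [eval_orL] at h
      obtain ⟨F, hF, hE⟩ := h
      obtain ⟨p, hp, rfl⟩ := List.mem_map.1 hF
      rw [Finset.mem_toList, Finset.mem_filter] at hp
      obtain ⟨h1, h2⟩ := hE
      refine ih (p.2 :: l) (List.nodup_cons.2 ⟨hp.2.2, hn⟩) ?_ h2
      intro x hx
      rcases List.mem_cons.1 hx with rfl | hx
      · exact (hl _ hp.2.1).tail h1
      · exact hl x hx

omit [Fintype V] in
theorem exists_arc {G : Set (V × V)} {s z : V} (l : List V) (hs : s ∈ l) (hz : Reachable G s z)
    (hzl : z ∉ l) : ∃ x ∈ l, ∃ y ∉ l, (x, y) ∈ G := by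
  unfold Reachable at hz
  induction hz with
  | refl => exact absurd hs hzl
  | @tail b c hb hc ih =>
    by_cases hbl : b ∈ l
    · exact ⟨b, hbl, c, hzl, hc⟩
    · exact ih hbl

theorem gF_complete (acc : List V → Bool) {G : Set (V × V)} {s : V} (m : ℕ) (l : List V)
    (hs : s ∈ l) (hn : l.Nodup) (hl : ∀ x ∈ l, Reachable G s x)
    (H : ∀ l' : List V, l'.Nodup → (∀ x ∈ l', Reachable G s x) →
      (l'.length = l.length + m ∨ ∀ x, Reachable G s x → x ∈ l') → acc l' = true) :
    (gF acc m l).Eval G := by
  classical
  induction m generalizing l with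
  | zero => exact H l hn hl (Or.inl rfl)
  | succ m ih =>
    by_cases hc : ∀ x, Reachable G s x → x ∈ l
    · exact Or.inl (H l hn hl (Or.inr hc))
    · push Not at hc
      obtain ⟨z, hz, hzl⟩ := hc
      obtain ⟨x, hx, y, hy, hxy⟩ := exists_arc l hs hz hzl
      refine Or.inr ?_
      rw [eval_orL]
      refine ⟨_, List.mem_map.2 ⟨(x, y), ?_, rfl⟩, hxy, ?_⟩
      · rw [Finset.mem_toList, Finset.mem_filter]
        exact ⟨Finset.mem_univ _, hx, hy⟩
      · refine ih (y :: l) (List.mem_cons_of_mem _ hs) (List.nodup_cons.2 ⟨hy, hn⟩) ?_ ?_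
        · intro x' hx'
          rcases List.mem_cons.1 hx' with rfl | hx'
          · exact (hl _ hx).tail hxy
          · exact hl x' hx'
        · intro l' h1 h2 h3
          refine H l' h1 h2 ?_
          rcases h3 with h3 | h3
          · left
            rw [h3, List.length_cons]
            omega
          · exact Or.inr h3

theorem length_le (S : Set V) (l : List V) (hn : l.Nodup) (hl : ∀ x ∈ l, x ∈ S) :
    l.length ≤ S.ncard := by
  classical
  rw [← List.toFinset_card_of_nodup hn, ← Set.ncard_coe_finset]
  refine Set.ncard_le_ncard ?_ (Set.toFinite _)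
  intro x hx
  exact hl x (List.mem_toFinset.1 hx)

theorem le_length (S : Set V) (l : List V) (hn : l.Nodup) (hl : ∀ x ∈ S, x ∈ l) :
    S.ncard ≤ l.length := by
  classical
  rw [← List.toFinset_card_of_nodup hn, ← Set.ncard_coe_finset]
  refine Set.ncard_le_ncard ?_ (Set.toFinite _)
  intro x hx
  exact List.mem_toFinset.2 (hl x hx)

open Classical in
/-- the formula for a short reach -/
noncomputable def rF (k : ℕ) (s t : V) : Formula V := gF (fun l => decide (t ∈ l)) k [s]

theorem rF_sound {k : ℕ} {s t : V} {G : Set (V × V)} (h : (rF k s t).Eval G) :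
    Reachable G s t := by
  classical
  obtain ⟨l, h1, -, h3⟩ := gF_sound _ k [s] (List.nodup_singleton s)
    (fun x hx => by rw [List.mem_singleton.1 hx]; exact Relation.ReflTransGen.refl) h
  exact h3 t (of_decide_eq_true h1)

theorem rF_complete {k : ℕ} {s t : V} {G : Set (V × V)} (h : Reachable G s t)
    (hk : {x | Reachable G s x}.ncard ≤ k) : (rF k s t).Eval G := by
  classical
  refine gF_complete _ k [s] (List.mem_singleton_self s) (List.nodup_singleton s)
    (fun x hx => by rw [List.mem_singleton.1 hx]; exact Relation.ReflTransGen.refl) ?_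
  intro l h1 h2 h3
  refine decide_eq_true ?_
  rcases h3 with h3 | h3
  · exfalso
    have := length_le {x | Reachable G s x} l h1 h2
    rw [h3, List.length_singleton] at this
    omega
  · exact h3 t h

/-- the formula for a large set of reachable vertices -/
noncomputable def bF (k : ℕ) (s : V) : Formula V := gF (fun l => decide (k < l.length)) k [s]

theorem bF_eval {k : ℕ} {s : V} {G : Set (V × V)} :
    (bF k s).Eval G ↔ k < {x | Reachable G s x}.ncard := by
  constructor
  · intro h
    obtain ⟨l, h1, h2, h3⟩ := gF_sound _ k [s] (List.nodup_singleton s)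
      (fun x hx => by rw [List.mem_singleton.1 hx]; exact Relation.ReflTransGen.refl) h
    exact (of_decide_eq_true h1).trans_le (length_le {x | Reachable G s x} l h2 h3)
  · intro h
    refine gF_complete _ k [s] (List.mem_singleton_self s) (List.nodup_singleton s)
      (fun x hx => by rw [List.mem_singleton.1 hx]; exact Relation.ReflTransGen.refl) ?_
    intro l h1 h2 h3
    refine decide_eq_true ?_
    rcases h3 with h3 | h3
    · rw [h3, List.length_singleton]
      omega
    · exact h.trans_le (le_length {x | Reachable G s x} l h1 h3)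

end FormUpAux

open FormUpAux

theorem formula_poly (k : ℕ) : ∃ K' N : ℕ, ∀ n ≥ N, ∀ s t : Fin n, s ≠ t →
    ∃ F : Formula (Fin n), F.leaves ≤ n ^ K' ∧ ∀ G, F.Eval G ↔ ReachOrBig k s t G := by
  refine ⟨3 * k + 2, 2, fun n hn s t hst => ?_⟩
  refine ⟨Formula.or (Formula.or (rF k s t) (swap (rF k t s)))
    (Formula.and (bF k s) (swap (bF k t))), ?_, fun G => ?_⟩
  · have hV : 1 ≤ Fintype.card (Fin n) := by rw [Fintype.card_fin]; omega
    have h1 : (rF k s t).leaves ≤ (2 * n ^ 2) ^ k := by
      unfold rF
      refine (leaves_gF _ k [s] hV).trans ?_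
      rw [Fintype.card_fin]
    have h2 : (swap (rF k t s)).leaves ≤ (2 * n ^ 2) ^ k := by
      rw [leaves_swap]
      unfold rF
      refine (leaves_gF _ k [t] hV).trans ?_
      rw [Fintype.card_fin]
    have h3 : (bF k s).leaves ≤ (2 * n ^ 2) ^ k := by
      have := leaves_gF (fun l => decide (k < l.length)) k [s] hV
      rw [Fintype.card_fin] at this
      exact this
    have h4 : (swap (bF k t)).leaves ≤ (2 * n ^ 2) ^ k := by
      rw [leaves_swap]
      have := leaves_gF (fun l => decide (k < l.length)) k [t] hV
      rw [Fintype.card_fin] at this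
      exact this
    simp only [Formula.leaves]
    have h5 : (2 * n ^ 2) ^ k ≤ n ^ (3 * k) := by
      rw [pow_mul]
      refine Nat.pow_le_pow_left ?_ k
      calc 2 * n ^ 2 ≤ n * n ^ 2 := Nat.mul_le_mul_right _ hn
        _ = n ^ 3 := by ring
    have h6 : 4 ≤ n ^ 2 := by nlinarith
    calc _ ≤ 4 * (2 * n ^ 2) ^ k := by omega
      _ ≤ n ^ 2 * n ^ (3 * k) := Nat.mul_le_mul h6 h5
      _ = n ^ (3 * k + 2) := by ring
  · have hrev : {x | Reachable (rev G) t x} = {x | Reachable G x t} := by
      ext x
      exact reachable_rev G t x
    have hb : (swap (bF k t)).Eval G ↔ k < {x | Reachable G x t}.ncard := by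
      rw [eval_swap, bF_eval, hrev]
    constructor
    · rintro ((h | h) | ⟨h1, h2⟩)
      · exact Or.inl (rF_sound h)
      · rw [eval_swap] at h
        exact Or.inl ((reachable_rev G t s).1 (rF_sound h))
      · exact Or.inr ⟨bF_eval.1 h1, hb.1 h2⟩
    · rintro (h | ⟨h1, h2⟩)
      · by_cases h1 : k < {x | Reachable G s x}.ncard
        · by_cases h2 : k < {x | Reachable G x t}.ncard
          · exact Or.inr ⟨bF_eval.2 h1, hb.2 h2⟩
          · refine Or.inl (Or.inr ?_)
            rw [eval_swap]
            refine rF_complete ((reachable_rev G t s).2 h) ?_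
            rw [hrev]
            omega
        · exact Or.inl (Or.inl (rF_complete h (by omega)))
      · exact Or.inr ⟨bF_eval.2 h1, hb.2 h2⟩

end Pool.Agent.Lib.NTh
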