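import Pool.Agent.Lib.NTh.LowerAbs

/-!
Module NTh.LowerBP: the two equivalences with exact polynomial size branching programs
(difficulty: 1.8 h).

Proofs.
* `easy_of_exact`: the exact program never errs: `Wrong f s t H` is false, `prob_false`.
* `exact_of_easy`: `lower_abstract` for the model `P k a f := BP a f` (`BP.maj`, factor 5, and
  `BP.comap`).  Let `K₀, N₀` be given by `Easy`.  For `m ≥ max N N₀ 1` put `n = m^r ≥ m` and
  `ι = Fin.castLE`; the program for `ι s`, `ι t` has size `n^K₀` and we get an exact program of size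
  `a' ≤ n^K * n^K₀ = m^(r (K + K₀))` (`BP.mono`).
* `exact_of_easy_exp`: choose `r ≥ 1` with `r a ≥ 3`, `n = m^r`, so `n^a ≥ m^3`.  `p = c/n ≤ 1/2` for large
  `m`.  Let `B` be the set of all pairs one of whose members is in the range of `ι`:
  `B.card ≤ 2 m n`.  `prob (∀ e ∈ B, e ∉ R) = (1-p)^B.card ≥ exp (-2 p * 2 m n) = exp (-4 c m)`
  (`prob_off` with `A` always true; `1 - p ≥ exp (-2p)` for `0 ≤ p ≤ 1/2`).  The sum over the `2^(m^2)`
  digraphs `G` on `Fin m` of `prob (Wrong f (ι s) (ι t) (emb ι G ∪ R))` is at most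
  `2^(m^2) exp (-m^3) < exp (-4 c m)` for large `m`.  So there is `R` without elements in `B` for which `f`
  is right on all `emb ι G ∪ R` (`exists_of_prob_pos`, `prob_exists_le`), and then no two different
  vertices of the range of `ι` are joined in `R` (no arc of `R` starts there), so by `emb_reachable`
  `f (emb ι G ∪ R) ↔ Reachable G s t`.  Size `n^K = m^(r K)` by `BP.comap`.
-/

namespace Pool.Agent.Lib.NTh

open Pool.Agent.Lib.Pe46137 Pool.Agent.Lib.Pe46137X

theorem easy_of_exact (c : ℝ) (η : ℕ → ℝ) (hη : ∃ N : ℕ, ∀ n ≥ N, 0 ≤ η n) (h : Exact) :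
    Easy c η := by
  obtain ⟨K, N, hKN⟩ := h
  obtain ⟨N', hN'⟩ := hη
  refine ⟨K, max N N', fun n hn s t hst => ?_⟩
  obtain ⟨f, hf, hG⟩ := hKN n (le_trans (le_max_left _ _) hn) s t hst
  refine ⟨f, hf, fun G => ?_⟩
  have h1 : prob (fun _ : Fin n × Fin n => c / n) (fun R => Wrong f s t (G ∪ R)) =
      prob (fun _ : Fin n × Fin n => c / n) (fun _ => False) :=
    prob_congr fun R => ⟨fun hw => hw (hG _), fun hw => hw.elim⟩
  rw [h1, prob_false]
  exact hN' n (le_trans (le_max_right _ _) hn)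

theorem exact_of_easy {c b : ℝ} (hc : 0 ≤ c) (hb : 0 < b)
    (h : c < 1 ∧ b < 1 ∨ c = 1 ∧ b < 1 / 2)
    (he : Easy c (fun n => 1 / 2 - (n : ℝ) ^ (-b))) : Exact := by
  obtain ⟨K₀, N₀, he⟩ := he
  obtain ⟨r, K, N, hr, hL⟩ := lower_abstract hc hb h (fun k a f => BP (E := Fin k × Fin k) a f) 5
    (fun k a f g h hf hg hh => BP.maj hf hg hh) (fun k l a f Φ hf hΦ => BP.comap hf hΦ)
  refine ⟨r * (K + K₀), max N (max N₀ 1), fun m hm s t hst => ?_⟩
  have hm1 : 1 ≤ m := le_trans (le_trans (le_max_right _ _) (le_max_right _ _)) hm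
  have hm2 : N₀ ≤ m := le_trans (le_trans (le_max_left _ _) (le_max_right _ _)) hm
  have hm3 : N ≤ m := le_trans (le_max_left _ _) hm
  have hmn : m ≤ m ^ r := Nat.le_self_pow (by omega) m
  have hι : Function.Injective (Fin.castLE hmn) := Fin.castLE_injective hmn
  obtain ⟨f, hf, hG⟩ := he (m ^ r) (le_trans hm2 hmn) (Fin.castLE hmn s) (Fin.castLE hmn t)
    (fun hh => hst (hι hh))
  obtain ⟨a', ha', hP⟩ := hL m (m ^ r) hm3 le_rfl (Fin.castLE hmn) hι s t hst _ f hf hG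
  refine ⟨fun G => Reachable G s t, BP.mono hP ?_, fun G => Iff.rfl⟩
  calc a' ≤ (m ^ r) ^ K * (m ^ r) ^ K₀ := ha'
    _ = m ^ (r * (K + K₀)) := by rw [← pow_add, ← pow_mul]

theorem exact_of_easy_exp {c a : ℝ} (hc : 0 ≤ c) (ha : 0 < a)
    (he : Easy c (fun n => Real.exp (-(n : ℝ) ^ a))) : Exact := by
  classical
  obtain ⟨K, N, he⟩ := he
  obtain ⟨r, hr1, hr⟩ : ∃ r : ℕ, 1 ≤ r ∧ 3 ≤ (r : ℝ) * a := by
    refine ⟨⌈3 / a⌉₊ + 1, by omega, ?_⟩
    have h1 : 3 / a ≤ (⌈3 / a⌉₊ : ℝ) := Nat.le_ceil _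
    rw [div_le_iff₀ ha] at h1
    push_cast
    nlinarith
  refine ⟨r * K, max N ⌈2 + 2 * c⌉₊, fun m hm s t hst => ?_⟩
  have hmN : N ≤ m := le_trans (le_max_left _ _) hm
  have hmc : 2 + 2 * c ≤ (m : ℝ) :=
    le_trans (Nat.le_ceil _) (by exact_mod_cast le_trans (le_max_right _ _) hm)
  have hm2 : (2 : ℝ) ≤ m := by linarith
  have hm1 : (1 : ℝ) ≤ m := by linarith
  obtain ⟨n, hn⟩ : ∃ n, n = m ^ r := ⟨_, rfl⟩
  have hmn : m ≤ n := by
    rw [hn]
    exact Nat.le_self_pow (by omega) m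
  obtain ⟨ι, hι⟩ : ∃ ι : Fin m → Fin n, Function.Injective ι :=
    ⟨Fin.castLE hmn, Fin.castLE_injective hmn⟩
  obtain ⟨f, hf, hG⟩ := he n (le_trans hmN hmn) (ι s) (ι t) (fun hh => hst (hι hh))
  have hmn' : (m : ℝ) ≤ n := by exact_mod_cast hmn
  have hn0 : (0 : ℝ) < n := by linarith
  have hp0 : 0 ≤ c / (n : ℝ) := div_nonneg hc hn0.le
  have hp2 : c / (n : ℝ) ≤ 1 / 2 := by
    rw [div_le_iff₀ hn0]
    linarith
  have hp1 : c / (n : ℝ) ≤ 1 := by linarith
  -- the pairs that start in the range of `ι`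
  set B : Finset (Fin n × Fin n) :=
    (Finset.univ : Finset (Fin m × Fin n)).image (fun x => (ι x.1, x.2)) with hB
  have hBc : B.card ≤ m * n := by
    refine le_trans Finset.card_image_le ?_
    rw [Finset.card_univ, Fintype.card_prod, Fintype.card_fin, Fintype.card_fin]
  have h1 : Real.exp (-(2 * c * m)) ≤ prob (fun _ : Fin n × Fin n => c / (n : ℝ))
      (fun R => ∀ e ∈ B, e ∉ R) := by
    have h2 := prob_off (q := fun _ : Fin n × Fin n => c / (n : ℝ)) (A := fun _ => True) B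
      (fun _ _ _ => Iff.rfl)
    rw [prob_true, one_mul, Finset.prod_const] at h2
    have h3 : prob (fun _ : Fin n × Fin n => c / (n : ℝ)) (fun R => ∀ e ∈ B, e ∉ R) =
        prob (fun _ : Fin n × Fin n => c / (n : ℝ)) (fun R => True ∧ ∀ e ∈ B, e ∉ R) :=
      prob_congr fun R => ⟨fun hx => ⟨trivial, hx⟩, fun hx => hx.2⟩
    rw [h3, h2]
    have h4 : (1 - c / (n : ℝ)) ^ (m * n) ≤ (1 - c / (n : ℝ)) ^ B.card :=
      pow_le_pow_of_le_one (by linarith) (by linarith) hBc
    refine le_trans ?_ h4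
    have h5 : Real.exp (-(2 * (c / (n : ℝ)))) ≤ 1 - c / (n : ℝ) := by
      have h6 := Real.add_one_le_exp (2 * (c / (n : ℝ)))
      have h7 : 0 < Real.exp (2 * (c / (n : ℝ))) := Real.exp_pos _
      rw [Real.exp_neg, inv_le_iff_one_le_mul₀ h7]
      have h8 : 0 ≤ 1 - c / (n : ℝ) := by linarith
      nlinarith [mul_le_mul_of_nonneg_left h6 h8, mul_nonneg hp0 (by linarith : (0 : ℝ) ≤ 1 - 2 * (c / (n : ℝ)))]
    have h6 : Real.exp (-(2 * c * m)) = Real.exp (-(2 * (c / (n : ℝ)))) ^ (m * n) := by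
      rw [← Real.exp_nat_mul]
      congr 1
      push_cast
      field_simp
    rw [h6]
    exact pow_le_pow_left₀ (Real.exp_pos _).le h5 _
  have h2 : prob (fun _ : Fin n × Fin n => c / (n : ℝ))
      (fun R => ∃ G ∈ (Finset.univ : Finset (Finset (Fin m × Fin m))),
        Wrong f (ι s) (ι t) (emb ι (G : Set (Fin m × Fin m)) ∪ R)) ≤
      2 ^ (m * m) * Real.exp (-(n : ℝ) ^ a) := by
    refine le_trans (prob_exists_le _ _ (fun _ => hp0) (fun _ => hp1)) ?_
    refine le_trans (Finset.sum_le_sum fun G _ => hG (emb ι (G : Set (Fin m × Fin m)))) ?_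
    rw [Finset.sum_const, nsmul_eq_mul, Finset.card_univ, Fintype.card_finset, Fintype.card_prod,
      Fintype.card_fin]
    push_cast
    exact le_rfl
  have h3 : (2 : ℝ) ^ (m * m) * Real.exp (-(n : ℝ) ^ a) < Real.exp (-(2 * c * m)) := by
    have h4 : (m : ℝ) ^ (3 : ℕ) ≤ (n : ℝ) ^ a := by
      have h5 : (n : ℝ) ^ a = (m : ℝ) ^ ((r : ℝ) * a) := by
        rw [hn]
        push_cast
        rw [← Real.rpow_natCast, ← Real.rpow_mul (by linarith)]
      rw [h5, ← Real.rpow_natCast]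
      exact Real.rpow_le_rpow_of_exponent_le hm1 (by push_cast; exact hr)
    have h5 : (2 : ℝ) ^ (m * m) ≤ Real.exp ((m : ℝ) * m) := by
      have h6 : (2 : ℝ) ≤ Real.exp 1 := by
        have := Real.add_one_le_exp (1 : ℝ)
        linarith
      have h7 : Real.exp ((m : ℝ) * m) = Real.exp 1 ^ (m * m) := by
        rw [← Real.exp_nat_mul]
        congr 1
        push_cast
        ring
      rw [h7]
      exact pow_le_pow_left₀ (by norm_num) h6 _
    calc (2 : ℝ) ^ (m * m) * Real.exp (-(n : ℝ) ^ a)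
        ≤ Real.exp ((m : ℝ) * m) * Real.exp (-(m : ℝ) ^ (3 : ℕ)) :=
          mul_le_mul h5 (Real.exp_le_exp.2 (by linarith)) (Real.exp_pos _).le (Real.exp_pos _).le
      _ = Real.exp ((m : ℝ) * m - (m : ℝ) ^ (3 : ℕ)) := by
          rw [← Real.exp_add]
          congr 1
      _ < Real.exp (-(2 * c * m)) := by
          apply Real.exp_lt_exp.2
          have h6 : 0 < (m : ℝ) * m := by nlinarith
          have h7 : (m : ℝ) ^ (3 : ℕ) = m * (m * m) := by ring
          rw [h7]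
          have h8 : (2 + 2 * c) * ((m : ℝ) * m) ≤ m * (m * m) :=
            mul_le_mul_of_nonneg_right hmc h6.le
          have h9 : 2 * c * (m : ℝ) ≤ 2 * c * (m * m) :=
            mul_le_mul_of_nonneg_left (by nlinarith) (by linarith)
          nlinarith
  -- a good noise set
  have h4 : prob (fun _ : Fin n × Fin n => c / (n : ℝ)) (fun R => ∀ e ∈ B, e ∉ R) ≤
      prob (fun _ : Fin n × Fin n => c / (n : ℝ)) (fun R => (∀ e ∈ B, e ∉ R) ∧
        ¬ ∃ G ∈ (Finset.univ : Finset (Finset (Fin m × Fin m))),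
          Wrong f (ι s) (ι t) (emb ι (G : Set (Fin m × Fin m)) ∪ R)) +
      prob (fun _ : Fin n × Fin n => c / (n : ℝ))
      (fun R => ∃ G ∈ (Finset.univ : Finset (Finset (Fin m × Fin m))),
        Wrong f (ι s) (ι t) (emb ι (G : Set (Fin m × Fin m)) ∪ R)) := by
    refine le_trans (prob_mono (fun _ => hp0) (fun _ => hp1) ?_)
      (prob_or_le (fun _ => hp0) (fun _ => hp1))
    intro R hR
    by_cases hx : ∃ G ∈ (Finset.univ : Finset (Finset (Fin m × Fin m))),
        Wrong f (ι s) (ι t) (emb ι (G : Set (Fin m × Fin m)) ∪ R)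
    · exact Or.inr hx
    · exact Or.inl ⟨hR, hx⟩
  have h5 : 0 < prob (fun _ : Fin n × Fin n => c / (n : ℝ)) (fun R => (∀ e ∈ B, e ∉ R) ∧
        ¬ ∃ G ∈ (Finset.univ : Finset (Finset (Fin m × Fin m))),
          Wrong f (ι s) (ι t) (emb ι (G : Set (Fin m × Fin m)) ∪ R)) := by
    linarith
  obtain ⟨R, hR1, hR2⟩ := exists_of_prob_pos h5
  have hR : ∀ x y : Fin m, x ≠ y → ¬ Reachable (R : Set (Fin n × Fin n)) (ι x) (ι y) := by
    intro x y hxy hreach
    rcases Relation.ReflTransGen.cases_head hreach with h6 | ⟨z, h6, -⟩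
    · exact hxy (hι h6)
    · exact hR1 (ι x, z) (Finset.mem_image.2 ⟨(x, z), Finset.mem_univ _, rfl⟩) h6
  refine ⟨fun G => f (emb ι G ∪ (R : Set (Fin n × Fin n))), ?_, ?_⟩
  · rw [pow_mul, ← hn]
    exact BP.comap hf (emb_projection hι _)
  · intro G
    have h6 : ¬ Wrong f (ι s) (ι t) (emb ι G ∪ (R : Set (Fin n × Fin n))) := by
      intro hw
      apply hR2
      refine ⟨G.toFinset, Finset.mem_univ _, ?_⟩
      rw [Set.coe_toFinset]
      exact hw
    unfold Wrong at h6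
    rw [not_not] at h6
    exact h6.trans (emb_reachable hι _ hR G s t)

end Pool.Agent.Lib.NTh
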