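import Pool.Agent.Lib.NTh.BPBasic

/-!
Module NTh.NetClos: monotone switching networks with `m` states: majorities, substitutions,
formulas (difficulty: 2 h).

The proofs of `works_or`, `works_and` in `Pe46137X/FNet.lean` can be copied (there also lengths of walks
are bounded, which is not needed here).

Proofs.
* For a monotone network `Connects G Gᶜ` is the equivalence generated by `wire` and the `pos e`, `e ∈ G`.
* `Net.or`, `Net.and`: disjoint union of the states (`Sum`, transported to `Fin (a + b)` by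
  `finSumFinEquiv`; a network with states in any type of cardinality `m` gives one with states `Fin m`);
  `or`: wires source-source and sink-sink, `and`: wire from the sink of the first to the source of the
  second.  Rejection: exhibit a set of states closed under closed contacts.
* `Net.maj`: `Maj f g h = (f ∧ (g ∨ h)) ∨ (g ∧ h)`, five networks.
* `Net.comap`: the network with `wire' v w = wire v w ∨ ∃ e, (∀ G, e ∈ Φ G) ∧ pos e v w` and
  `pos' e' v w = ∃ e, (∀ G, e ∈ Φ G ↔ e' ∈ G) ∧ pos e v w`.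
* `Net.mono`: add isolated states (`Fin.castLE`).
* `Net.of_formula`: by induction on `F`: `F.Eval` is constant, or `Net (2 * F.leaves) F.Eval` and
  `1 ≤ F.leaves` (literal: two states).  A constant has a network with two states.
-/

namespace Pool.Agent.Lib.NTh

open Pool.Agent.Lib.Pe46137 Pool.Agent.Lib.Pe46137X

variable {E E' V : Type}

/-- `f` is decided by a monotone switching network with `m` states -/
def Net (m : ℕ) (f : Set E → Prop) : Prop :=
  ∃ N : SwitchingNetwork E (Fin m), IsMonotone N ∧ ∀ G, (N.Connects G Gᶜ ↔ f G)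

namespace NetClosAux

/-- a set of states closed under all closed contacts -/
theorem eqv_closed {W : Type*} {r : W → W → Prop} (A : Set W) (hA : ∀ v w, r v w → (v ∈ A ↔ w ∈ A))
    {v w : W} (h : Relation.EqvGen r v w) : v ∈ A ↔ w ∈ A := by
  induction h with
  | rel x y h => exact hA x y h
  | refl x => exact Iff.rfl
  | symm x y _ ih => exact ih.symm
  | trans x y z _ _ ih1 ih2 => exact ih1.trans ih2

theorem eqv_iff {W : Type*} {r : W → W → Prop} {v w : W} (h : r v w) (s : W) :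
    Relation.EqvGen r s v ↔ Relation.EqvGen r s w :=
  ⟨fun h' => h'.trans _ _ _ (Relation.EqvGen.rel _ _ h),
    fun h' => h'.trans _ _ _ ((Relation.EqvGen.rel _ _ h).symm _ _)⟩

theorem eqv_map {W W' : Type*} {r : W → W → Prop} {r' : W' → W' → Prop} (φ : W → W')
    (h : ∀ a b, r a b → r' (φ a) (φ b)) {x y : W} (hxy : Relation.EqvGen r x y) :
    Relation.EqvGen r' (φ x) (φ y) := by
  induction hxy with
  | rel x y h' => exact .rel _ _ (h x y h')
  | refl x => exact .refl _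
  | symm x y _ ih => exact ih.symm _ _
  | trans x y z _ _ ih1 ih2 => exact ih1.trans _ _ _ ih2

/-- the network is monotone and decides `f` -/
def Dec {W : Type} (N : SwitchingNetwork E W) (f : Set E → Prop) : Prop :=
  IsMonotone N ∧ ∀ G, (N.Connects G Gᶜ ↔ f G)

/-- transport of a network along a map of the states -/
def mapNet {W W' : Type} (φ : W → W') (N : SwitchingNetwork E W) : SwitchingNetwork E W' where
  source := φ N.source
  sink := φ N.sink
  wire v w := ∃ x y, φ x = v ∧ φ y = w ∧ N.wire x y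
  pos e v w := ∃ x y, φ x = v ∧ φ y = w ∧ N.pos e x y
  neg e v w := ∃ x y, φ x = v ∧ φ y = w ∧ N.neg e x y

theorem mapNet_closed {W W' : Type} {φ : W → W'} {N : SwitchingNetwork E W} {P F : Set E}
    {v w : W'} : (mapNet φ N).Closed P F v w ↔ ∃ x y, φ x = v ∧ φ y = w ∧ N.Closed P F x y := by
  constructor
  · rintro (⟨x, y, h1, h2, h⟩ | ⟨e, he, x, y, h1, h2, h⟩ | ⟨e, he, x, y, h1, h2, h⟩)
    · exact ⟨x, y, h1, h2, Or.inl h⟩
    · exact ⟨x, y, h1, h2, Or.inr (Or.inl ⟨e, he, h⟩)⟩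
    · exact ⟨x, y, h1, h2, Or.inr (Or.inr ⟨e, he, h⟩)⟩
  · rintro ⟨x, y, h1, h2, h | ⟨e, he, h⟩ | ⟨e, he, h⟩⟩
    · exact Or.inl ⟨x, y, h1, h2, h⟩
    · exact Or.inr (Or.inl ⟨e, he, x, y, h1, h2, h⟩)
    · exact Or.inr (Or.inr ⟨e, he, x, y, h1, h2, h⟩)

theorem dec_map {W W' : Type} {φ : W → W'} (hφ : Function.Injective φ) {N : SwitchingNetwork E W}
    {f : Set E → Prop} (h : Dec N f) : Dec (mapNet φ N) f := by
  refine ⟨?_, fun G => ⟨fun hc => ?_, fun hf => ?_⟩⟩
  · rintro e v w ⟨x, y, _, _, h3⟩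
    exact h.1 e _ _ h3
  · refine (h.2 G).1 ?_
    have hc' : Relation.EqvGen ((mapNet φ N).Closed G Gᶜ) (φ N.source) (φ N.sink) := hc
    have h1 := eqv_closed (r := (mapNet φ N).Closed G Gᶜ)
      {w | ∃ x, φ x = w ∧ Relation.EqvGen (N.Closed G Gᶜ) N.source x} (fun v w hvw => ?_) hc'
    · obtain ⟨x, hx, h2⟩ := h1.1 ⟨_, rfl, Relation.EqvGen.refl _⟩
      rw [hφ hx] at h2
      exact h2
    · obtain ⟨x, y, rfl, rfl, hxy⟩ := mapNet_closed.1 hvw
      constructor
      · rintro ⟨z, hz, h2⟩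
        rw [hφ hz] at h2
        exact ⟨y, rfl, (eqv_iff hxy _).1 h2⟩
      · rintro ⟨z, hz, h2⟩
        rw [hφ hz] at h2
        exact ⟨x, rfl, (eqv_iff hxy _).2 h2⟩
  · have h1 : Relation.EqvGen (N.Closed G Gᶜ) N.source N.sink := (h.2 G).2 hf
    exact eqv_map φ (fun a b hab => mapNet_closed.2 ⟨a, b, rfl, rfl, hab⟩) h1

/-- contacts of a disjoint union, with extra permanently closed contacts -/
def sumNet {W W' : Type} (N : SwitchingNetwork E W) (N' : SwitchingNetwork E W')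
    (c : W ⊕ W' → W ⊕ W' → Prop) (a b : W ⊕ W') : SwitchingNetwork E (W ⊕ W') where
  source := a
  sink := b
  wire v w := c v w ∨ (∃ x y, v = Sum.inl x ∧ w = Sum.inl y ∧ N.wire x y) ∨
    ∃ x y, v = Sum.inr x ∧ w = Sum.inr y ∧ N'.wire x y
  pos e v w := (∃ x y, v = Sum.inl x ∧ w = Sum.inl y ∧ N.pos e x y) ∨
    ∃ x y, v = Sum.inr x ∧ w = Sum.inr y ∧ N'.pos e x y
  neg e v w := (∃ x y, v = Sum.inl x ∧ w = Sum.inl y ∧ N.neg e x y) ∨
    ∃ x y, v = Sum.inr x ∧ w = Sum.inr y ∧ N'.neg e x y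

variable {W W' : Type} {N : SwitchingNetwork E W} {N' : SwitchingNetwork E W'}
  {c : W ⊕ W' → W ⊕ W' → Prop} {a b : W ⊕ W'} {P F : Set E}

theorem sumNet_closed {v w : W ⊕ W'} : (sumNet N N' c a b).Closed P F v w ↔
    c v w ∨ (∃ x y, v = Sum.inl x ∧ w = Sum.inl y ∧ N.Closed P F x y) ∨
      ∃ x y, v = Sum.inr x ∧ w = Sum.inr y ∧ N'.Closed P F x y := by
  constructor
  · rintro ((h | ⟨x, y, h1, h2, h3⟩ | ⟨x, y, h1, h2, h3⟩) |
      ⟨e, he, ⟨x, y, h1, h2, h3⟩ | ⟨x, y, h1, h2, h3⟩⟩ |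
      ⟨e, he, ⟨x, y, h1, h2, h3⟩ | ⟨x, y, h1, h2, h3⟩⟩)
    · exact Or.inl h
    · exact Or.inr (Or.inl ⟨x, y, h1, h2, Or.inl h3⟩)
    · exact Or.inr (Or.inr ⟨x, y, h1, h2, Or.inl h3⟩)
    · exact Or.inr (Or.inl ⟨x, y, h1, h2, Or.inr (Or.inl ⟨e, he, h3⟩)⟩)
    · exact Or.inr (Or.inr ⟨x, y, h1, h2, Or.inr (Or.inl ⟨e, he, h3⟩)⟩)
    · exact Or.inr (Or.inl ⟨x, y, h1, h2, Or.inr (Or.inr ⟨e, he, h3⟩)⟩)
    · exact Or.inr (Or.inr ⟨x, y, h1, h2, Or.inr (Or.inr ⟨e, he, h3⟩)⟩)
  · rintro (h | ⟨x, y, h1, h2, h3⟩ | ⟨x, y, h1, h2, h3⟩)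
    · exact Or.inl (Or.inl h)
    · rcases h3 with h3 | ⟨e, he, h3⟩ | ⟨e, he, h3⟩
      · exact Or.inl (Or.inr (Or.inl ⟨x, y, h1, h2, h3⟩))
      · exact Or.inr (Or.inl ⟨e, he, Or.inl ⟨x, y, h1, h2, h3⟩⟩)
      · exact Or.inr (Or.inr ⟨e, he, Or.inl ⟨x, y, h1, h2, h3⟩⟩)
    · rcases h3 with h3 | ⟨e, he, h3⟩ | ⟨e, he, h3⟩
      · exact Or.inl (Or.inr (Or.inr ⟨x, y, h1, h2, h3⟩))
      · exact Or.inr (Or.inl ⟨e, he, Or.inr ⟨x, y, h1, h2, h3⟩⟩)
      · exact Or.inr (Or.inr ⟨e, he, Or.inr ⟨x, y, h1, h2, h3⟩⟩)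

theorem sumNet_monotone (h : IsMonotone N) (h' : IsMonotone N') :
    IsMonotone (sumNet N N' c a b) := by
  rintro e v w (⟨x, y, _, _, h3⟩ | ⟨x, y, _, _, h3⟩)
  · exact h e _ _ h3
  · exact h' e _ _ h3

theorem sumNet_inl {x y : W} (h : Relation.EqvGen (N.Closed P F) x y) :
    Relation.EqvGen ((sumNet N N' c a b).Closed P F) (Sum.inl x) (Sum.inl y) :=
  eqv_map Sum.inl (fun v w h => sumNet_closed.2 (Or.inr (Or.inl ⟨v, w, rfl, rfl, h⟩))) h

theorem sumNet_inr {x y : W'} (h : Relation.EqvGen (N'.Closed P F) x y) :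
    Relation.EqvGen ((sumNet N N' c a b).Closed P F) (Sum.inr x) (Sum.inr y) :=
  eqv_map Sum.inr (fun v w h => sumNet_closed.2 (Or.inr (Or.inr ⟨v, w, rfl, rfl, h⟩))) h

theorem dec_or {f g : Set E → Prop} (hf : Dec N f) (hg : Dec N' g) :
    ∃ N'' : SwitchingNetwork E (W ⊕ W'), Dec N'' (fun G => f G ∨ g G) := by
  refine ⟨sumNet N N' (fun v w =>
    (v = Sum.inl N.source ∧ w = Sum.inr N'.source) ∨ (v = Sum.inl N.sink ∧ w = Sum.inr N'.sink))
    (Sum.inl N.source) (Sum.inl N.sink), sumNet_monotone hf.1 hg.1, fun G => ⟨fun h => ?_,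
    fun h => ?_⟩⟩
  · by_contra hc
    rw [not_or] at hc
    have n1 : ¬ Relation.EqvGen (N.Closed G Gᶜ) N.source N.sink := fun h' => hc.1 ((hf.2 G).1 h')
    have n2 : ¬ Relation.EqvGen (N'.Closed G Gᶜ) N'.source N'.sink :=
      fun h' => hc.2 ((hg.2 G).1 h')
    have := eqv_closed {v | (∃ x, v = Sum.inl x ∧ Relation.EqvGen (N.Closed G Gᶜ) N.source x) ∨
      (∃ x, v = Sum.inr x ∧ Relation.EqvGen (N'.Closed G Gᶜ) N'.source x)} (fun v w hvw => ?_) h
    · simp only [sumNet, Set.mem_ofPred_eq, Sum.inl.injEq, exists_eq_left',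
        reduceCtorEq, false_and, exists_false, or_false] at this
      exact n1 (this.mp (Relation.EqvGen.refl _))
    · rw [sumNet_closed] at hvw
      rcases hvw with (⟨rfl, rfl⟩ | ⟨rfl, rfl⟩) | ⟨x, y, rfl, rfl, h⟩ | ⟨x, y, rfl, rfl, h⟩
      · simp [Relation.EqvGen.refl]
      · simp [n1, n2]
      · simp [eqv_iff h]
      · simp [eqv_iff h]
  · rcases h with h | h
    · exact sumNet_inl ((hf.2 G).2 h)
    · refine (Relation.EqvGen.trans _ _ _ (.rel _ _ (sumNet_closed.2 (Or.inl (Or.inl ⟨rfl, rfl⟩))))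
        ((sumNet_inr ((hg.2 G).2 h)).trans _ _ _ ?_))
      exact (Relation.EqvGen.rel _ _
        (sumNet_closed.2 (Or.inl (Or.inr ⟨rfl, rfl⟩)))).symm _ _

theorem dec_and {f g : Set E → Prop} (hf : Dec N f) (hg : Dec N' g) :
    ∃ N'' : SwitchingNetwork E (W ⊕ W'), Dec N'' (fun G => f G ∧ g G) := by
  refine ⟨sumNet N N' (fun v w =>
    (v = Sum.inl N.sink ∧ w = Sum.inr N'.source))
    (Sum.inl N.source) (Sum.inr N'.sink), sumNet_monotone hf.1 hg.1, fun G => ⟨fun h => ?_,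
    fun h => ?_⟩⟩
  · by_contra hc
    by_cases hf' : f G
    · have hng : ¬ g G := fun h => hc ⟨hf', h⟩
      have n2 : ¬ Relation.EqvGen (N'.Closed G Gᶜ) N'.source N'.sink :=
        fun h' => hng ((hg.2 G).1 h')
      have := eqv_closed {v | (∃ x, v = Sum.inl x) ∨
        (∃ x, v = Sum.inr x ∧ Relation.EqvGen (N'.Closed G Gᶜ) N'.source x)} (fun v w hvw => ?_) h
      · simp only [sumNet, Set.mem_ofPred_eq, Sum.inl.injEq, exists_eq',
          reduceCtorEq, false_and,
          exists_false, or_false, true_iff, false_or, Sum.inr.injEq, exists_eq_left'] at this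
        exact n2 this
      · rw [sumNet_closed] at hvw
        rcases hvw with ⟨rfl, rfl⟩ | ⟨x, y, rfl, rfl, h⟩ | ⟨x, y, rfl, rfl, h⟩
        · simp [Relation.EqvGen.refl]
        · simp
        · simp [eqv_iff h]
    · have n1 : ¬ Relation.EqvGen (N.Closed G Gᶜ) N.source N.sink := fun h' => hf' ((hf.2 G).1 h')
      have := eqv_closed {v | (∃ x, v = Sum.inl x ∧ Relation.EqvGen (N.Closed G Gᶜ) N.source x)}
        (fun v w hvw => ?_) h
      · simp only [sumNet, Set.mem_ofPred_eq, Sum.inl.injEq,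
          exists_eq_left', reduceCtorEq, false_and,
          exists_false, iff_false] at this
        exact this (Relation.EqvGen.refl _)
      · rw [sumNet_closed] at hvw
        rcases hvw with ⟨rfl, rfl⟩ | ⟨x, y, rfl, rfl, h⟩ | ⟨x, y, rfl, rfl, h⟩
        · simp [n1]
        · simp [eqv_iff h]
        · simp
  · refine (sumNet_inl ((hf.2 G).2 h.1)).trans _ _ _ (Relation.EqvGen.trans _ _ _
      (.rel _ _ (sumNet_closed.2 (Or.inl ⟨rfl, rfl⟩))) (sumNet_inr ((hg.2 G).2 h.2)))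

theorem net_of_dec {W : Type} {m : ℕ} (e : W ≃ Fin m) {f : Set E → Prop}
    {N : SwitchingNetwork E W} (h : Dec N f) : Net m f :=
  ⟨_, dec_map e.injective h⟩

theorem net_const (p : Prop) : Net 2 (fun _ : Set E => p) := by
  refine ⟨⟨0, 1, fun _ _ => p, fun _ _ _ => False, fun _ _ _ => False⟩, fun _ _ _ h => h,
    fun G => ⟨fun h => ?_, fun hp => Relation.EqvGen.rel _ _ (Or.inl hp)⟩⟩
  by_contra hp
  have := eqv_closed (r := SwitchingNetwork.Closed _ G Gᶜ) {0} (by
    intro v w h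
    simp [SwitchingNetwork.Closed, hp] at h) h
  simp at this

theorem net_lit (e : E) : Net 2 (fun G : Set E => e ∈ G) := by
  refine ⟨⟨0, 1, fun _ _ => False, fun e' _ _ => e' = e, fun _ _ _ => False⟩, fun _ _ _ h => h,
    fun G => ⟨fun h => ?_, fun hp => Relation.EqvGen.rel _ _ (Or.inr (Or.inl ⟨e, hp, rfl⟩))⟩⟩
  by_contra hp
  have := eqv_closed (r := SwitchingNetwork.Closed _ G Gᶜ) {0} (by
    intro v w h
    simp only [SwitchingNetwork.Closed, exists_false, and_false, or_false, false_or] at h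
    obtain ⟨e', h1, h2⟩ := h
    exact absurd (h2 ▸ h1) hp) h
  simp at this

end NetClosAux

open NetClosAux

theorem Net.mono {m m' : ℕ} {f : Set E → Prop} (h : Net m f) (hm : m ≤ m') : Net m' f := by
  obtain ⟨N, hN⟩ := h
  exact ⟨_, dec_map (Fin.castLE_injective hm) hN⟩

theorem Net.and {a b : ℕ} {f g : Set E → Prop} (hf : Net a f) (hg : Net b g) :
    Net (a + b) (fun G => f G ∧ g G) := by
  obtain ⟨N, hN⟩ := hf
  obtain ⟨N', hN'⟩ := hg
  obtain ⟨N'', h⟩ := dec_and hN hN'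
  exact net_of_dec finSumFinEquiv h

theorem Net.or {a b : ℕ} {f g : Set E → Prop} (hf : Net a f) (hg : Net b g) :
    Net (a + b) (fun G => f G ∨ g G) := by
  obtain ⟨N, hN⟩ := hf
  obtain ⟨N', hN'⟩ := hg
  obtain ⟨N'', h⟩ := dec_or hN hN'
  exact net_of_dec finSumFinEquiv h

theorem Net.maj {a : ℕ} {f g h : Set E → Prop} (hf : Net a f) (hg : Net a g) (hh : Net a h) :
    Net (5 * a) (fun G => Maj (f G) (g G) (h G)) := by
  exact ((hf.and (hg.or hh)).or (hg.and hh)).mono (by omega)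

theorem Net.comap {m : ℕ} {f : Set E → Prop} (hf : Net m f) {Φ : Set E' → Set E}
    (hΦ : Projection Φ) : Net m (fun G => f (Φ G)) := by
  obtain ⟨N, hN, hN'⟩ := hf
  refine ⟨⟨N.source, N.sink, fun v w => N.wire v w ∨ ∃ e, (∀ G, e ∈ Φ G) ∧ N.pos e v w,
    fun e' v w => ∃ e, (∀ G, e ∈ Φ G ↔ e' ∈ G) ∧ N.pos e v w, fun _ _ _ => False⟩,
    fun _ _ _ h => h, fun G => ?_⟩
  refine Iff.trans ?_ (hN' (Φ G))
  refine Iff.of_eq ?_
  unfold SwitchingNetwork.Connects
  congr 1
  funext v w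
  refine propext ⟨?_, ?_⟩
  · rintro ((h | ⟨e, he, h⟩) | ⟨e', he', e, he, h⟩ | ⟨e, he, h⟩)
    · exact Or.inl h
    · exact Or.inr (Or.inl ⟨e, he G, h⟩)
    · exact Or.inr (Or.inl ⟨e, (he G).2 he', h⟩)
    · exact h.elim
  · rintro (h | ⟨e, he, h⟩ | ⟨e, he, h⟩)
    · exact Or.inl (Or.inl h)
    · rcases hΦ e with ⟨e', he'⟩ | h1 | h1
      · exact Or.inr (Or.inl ⟨e', (he' G).1 he, e, he', h⟩)
      · exact Or.inl (Or.inr ⟨e, h1, h⟩)
      · exact absurd he (h1 G)
    · exact absurd h (hN e v w)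

namespace NetClosAux

theorem formula_aux (F : Formula V) :
    (∃ p : Prop, ∀ G, F.Eval G ↔ p) ∨ (1 ≤ F.leaves ∧ Net (2 * F.leaves) F.Eval) := by
  induction F with
  | const p => exact Or.inl ⟨_, fun G => Iff.rfl⟩
  | arc a b => exact Or.inr ⟨le_rfl, net_lit _⟩
  | and F F' ih ih' =>
    rcases ih with ⟨p, hp⟩ | ⟨h1, h2⟩
    · by_cases hp' : p
      · rcases ih' with ⟨q, hq⟩ | ⟨h1', h2'⟩
        · exact Or.inl ⟨p ∧ q, fun G => and_congr (hp G) (hq G)⟩
        · refine Or.inr ⟨le_add_left h1', ?_⟩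
          have h3 : (Formula.and F F').Eval = F'.Eval := by
            funext G
            exact propext ⟨fun h => h.2, fun h => ⟨(hp G).2 hp', h⟩⟩
          rw [h3]
          exact h2'.mono (by simp only [Formula.leaves]; omega)
      · exact Or.inl ⟨False, fun G => ⟨fun h => hp' ((hp G).1 h.1), fun h => h.elim⟩⟩
    · rcases ih' with ⟨q, hq⟩ | ⟨h1', h2'⟩
      · by_cases hq' : q
        · refine Or.inr ⟨le_add_right h1, ?_⟩
          have h3 : (Formula.and F F').Eval = F.Eval := by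
            funext G
            exact propext ⟨fun h => h.1, fun h => ⟨h, (hq G).2 hq'⟩⟩
          rw [h3]
          exact h2.mono (by simp only [Formula.leaves]; omega)
        · exact Or.inl ⟨False, fun G => ⟨fun h => hq' ((hq G).1 h.2), fun h => h.elim⟩⟩
      · refine Or.inr ⟨le_add_right h1, ?_⟩
        exact (h2.and h2').mono (by simp only [Formula.leaves]; omega)
  | or F F' ih ih' =>
    rcases ih with ⟨p, hp⟩ | ⟨h1, h2⟩
    · by_cases hp' : p
      · exact Or.inl ⟨True, fun G => ⟨fun _ => trivial, fun _ => Or.inl ((hp G).2 hp')⟩⟩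
      · rcases ih' with ⟨q, hq⟩ | ⟨h1', h2'⟩
        · exact Or.inl ⟨p ∨ q, fun G => or_congr (hp G) (hq G)⟩
        · refine Or.inr ⟨le_add_left h1', ?_⟩
          have h3 : (Formula.or F F').Eval = F'.Eval := by
            funext G
            exact propext ⟨fun h => h.resolve_left fun h' => hp' ((hp G).1 h'), fun h => Or.inr h⟩
          rw [h3]
          exact h2'.mono (by simp only [Formula.leaves]; omega)
    · rcases ih' with ⟨q, hq⟩ | ⟨h1', h2'⟩
      · by_cases hq' : q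
        · exact Or.inl ⟨True, fun G => ⟨fun _ => trivial, fun _ => Or.inr ((hq G).2 hq')⟩⟩
        · refine Or.inr ⟨le_add_right h1, ?_⟩
          have h3 : (Formula.or F F').Eval = F.Eval := by
            funext G
            exact propext ⟨fun h => h.resolve_right fun h' => hq' ((hq G).1 h'), fun h => Or.inl h⟩
          rw [h3]
          exact h2.mono (by simp only [Formula.leaves]; omega)
      · refine Or.inr ⟨le_add_right h1, ?_⟩
        exact (h2.or h2').mono (by simp only [Formula.leaves]; omega)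

end NetClosAux

theorem Net.of_formula (F : Formula V) : Net (2 * F.leaves + 2) F.Eval := by
  rcases formula_aux F with ⟨p, hp⟩ | ⟨_, h⟩
  · have h3 : F.Eval = fun _ => p := funext fun G => propext (hp G)
    rw [h3]
    exact (net_const p).mono (by omega)
  · exact h.mono (by omega)

end Pool.Agent.Lib.NTh
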