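import Pool.Agent.Lib.NTh.LowerAbs
import Pool.Agent.Lib.NTh.NetClos
import Pool.Agent.Lib.Pe46137X.Final

/-!
Module NTh.LowerNet: the unconditional lower bound for monotone networks and formulas
(difficulty: 2 h).

Proof.  (a) Exact: if `Net a (fun G => Reachable G s t)` for `s ≠ t : Fin m` then
`logb 2 a ≥ (1/4) (logb 2 m)^2 - C (logb 2 m) (1 + logb 2 (logb 2 m)) ` and so
`logb 2 a ≥ (1/8) (logb 2 m)^2` for large `m`: `Pe46137X.main` with `ℓ = ⌈√m⌉` (any `ℓ` between `√m` and `2√m`),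
fourth inequality; the network `Separates` (walks of at most `ℓ` arcs give reachability), so
`networkStates s t ℓ ≤ a` (`Nat.sInf_le`).  See `mainTerm`, `errTerm` in `Pe46137X`.
(b) `lower_abstract` for the model `P k a f := Net a f` gives `r, K, N`.  Let `n` be large, `s ≠ t : Fin n`,
`m = ` the largest number with `m^r ≤ n` (so `(m+1)^r > n`, `logb 2 m ≥ logb 2 n / r - 1`), and
`ι : Fin m → Fin n` injective with `ι 0 = s`, `ι 1 = t` (exists since `2 ≤ m ≤ n`: compose `Fin.castLE` with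
a permutation of `Fin n`).  A network with `a` states as in the hypothesis gives `Net a' (Reachable G 0 1)`
with `a' ≤ n^K a`, so `logb 2 a ≥ (1/8) (logb 2 m)^2 - K logb 2 n ≥ κ' (log n)^2` for large `n`.
(c) Formulas: `Net.of_formula`: `2 leaves + 2` states; `log (2 leaves + 2) ≥ κ' (log n)^2` and `n` large give
`leaves ≥ 1` and `log leaves ≥ log (2 leaves + 2) - log 4 ≥ (κ'/2) (log n)^2`.
-/

namespace Pool.Agent.Lib.NTh

open Pool.Agent.Lib.Pe46137 Pool.Agent.Lib.Pe46137X

namespace LowerNetAux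

theorem reachable_of_within {V : Type} {G : Set (V × V)} {s t : V} {ℓ : ℕ}
    (h : Within G s t ℓ) : Reachable G s t := by
  obtain ⟨r, _, w, h0, hr, hw⟩ := h
  have : ∀ j ≤ r, Reachable G s (w j) := by
    intro j
    induction j with
    | zero => intro _; rw [h0]; exact Relation.ReflTransGen.refl
    | succ j ih => intro hj; exact (ih (by omega)).tail (hw j (by omega))
  rw [← hr]
  exact this r le_rfl

theorem states_le {V : Type} {s t : V} {ℓ a : ℕ}
    (h : Net a (fun G : Set (V × V) => Reachable G s t)) : networkStates s t ℓ ≤ a := by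
  obtain ⟨N, hN, hN2⟩ := h
  apply Nat.sInf_le
  refine ⟨N, hN, fun G hG => ?_, fun G hG hc => ?_⟩
  · exact (hN2 G).mpr (reachable_of_within hG)
  · exact hG ((hN2 G).mp hc)

theorem eventually_num (C : ℝ) (hC : 0 < C) : ∃ X : ℝ, ∀ x ≥ X,
    x ^ 2 / 8 ≤ x ^ 2 / 4 - x / 2 - C * (x + (x / 2 + 1) * Real.logb 2 x) := by
  have h2 : (0 : ℝ) < Real.log 2 := Real.log_pos (by norm_num)
  have h := Real.isLittleO_log_id_atTop.def (c := Real.log 2 / (32 * C)) (by positivity)
  obtain ⟨X0, hX0⟩ := Filter.eventually_atTop.mp h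
  refine ⟨max (max X0 2) (8 * (1 + C) * 2), fun x hx => ?_⟩
  have hx0 : X0 ≤ x := (le_max_left _ _).trans ((le_max_left _ _).trans hx)
  have hx2 : 2 ≤ x := (le_max_right _ _).trans ((le_max_left _ _).trans hx)
  have hx3 : 8 * (1 + C) * 2 ≤ x := (le_max_right _ _).trans hx
  have h3 := hX0 x hx0
  rw [Real.norm_eq_abs, Real.norm_eq_abs, id, abs_of_pos (by linarith : 0 < x)] at h3
  have h4 : Real.log x ≤ Real.log 2 / (32 * C) * x := (le_abs_self _).trans h3
  have h5 : Real.logb 2 x ≤ x / (32 * C) := by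
    rw [Real.logb, div_le_iff₀ h2]
    calc Real.log x ≤ Real.log 2 / (32 * C) * x := h4
      _ = x / (32 * C) * Real.log 2 := by ring
  have h6 : (x / 2 + 1) * Real.logb 2 x ≤ x * (x / (32 * C)) := by
    apply mul_le_mul (by linarith) h5
    · apply Real.logb_nonneg (by norm_num); linarith
    · linarith
  have h7 : C * ((x / 2 + 1) * Real.logb 2 x) ≤ x ^ 2 / 32 := by
    calc C * ((x / 2 + 1) * Real.logb 2 x) ≤ C * (x * (x / (32 * C))) :=
          mul_le_mul_of_nonneg_left h6 hC.le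
      _ = x ^ 2 / 32 := by field_simp
  nlinarith

theorem exact_lower : ∃ N : ℕ, ∀ m ≥ N, ∀ s t : Fin m, s ≠ t → ∀ a : ℕ,
    Net a (fun G : Set (Fin m × Fin m) => Reachable G s t) →
    (1 / 8) * Real.logb 2 m ^ 2 ≤ Real.logb 2 a := by
  obtain ⟨C, hC, hmain⟩ := Pe46137X.main
  obtain ⟨X, hX⟩ := eventually_num C hC
  obtain ⟨N1, hN1⟩ := exists_nat_ge ((2 : ℝ) ^ X)
  refine ⟨max N1 16, fun m hm s t hst a ha => ?_⟩
  have hm16 : 16 ≤ m := (le_max_right _ _).trans hm
  have hmN : N1 ≤ m := (le_max_left _ _).trans hm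
  have hm0 : (0 : ℝ) < m := by positivity
  set x := Real.logb 2 m with hx
  have hxX : X ≤ x := by
    rw [hx, Real.le_logb_iff_rpow_le (by norm_num) hm0]
    exact hN1.trans (by exact_mod_cast hmN)
  have hx4 : 4 ≤ x := by
    rw [hx, Real.le_logb_iff_rpow_le (by norm_num) hm0]
    norm_num
    exact_mod_cast hm16
  set ℓ := Nat.sqrt m + 1 with hℓ
  have hℓm : ℓ ≤ m := by
    have : Nat.sqrt m < m := Nat.sqrt_lt_self (by omega)
    omega
  obtain ⟨_, _, _, h4, _⟩ := hmain m s t hst ℓ (by omega) hℓm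
  have hlow : Real.sqrt m ≤ ℓ := by
    rw [Real.sqrt_le_left (by positivity)]
    have := Nat.lt_succ_sqrt m
    have h : m ≤ (Nat.sqrt m + 1) ^ 2 := by
      rw [pow_two]; exact this.le
    rw [hℓ]
    exact_mod_cast h
  have hsq1 : 1 ≤ Real.sqrt m := by
    rw [Real.one_le_sqrt]
    exact_mod_cast (by omega : 1 ≤ m)
  have hup : (ℓ : ℝ) ≤ 2 * Real.sqrt m := by
    have h : (Nat.sqrt m : ℝ) ≤ Real.sqrt m := Real.nat_sqrt_le_real_sqrt
    rw [hℓ]
    push_cast
    linarith
  have hℓ0 : (0 : ℝ) < ℓ := by positivity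
  have hsqx : Real.logb 2 (Real.sqrt m) = x / 2 := by
    rw [hx, Real.sqrt_eq_rpow, Real.logb_rpow_eq_mul_logb_of_pos hm0]
    ring
  have hy1 : x / 2 ≤ Real.logb 2 ℓ := by
    rw [← hsqx]
    exact Real.logb_le_logb_of_le (by norm_num) (by linarith) hlow
  have hy2 : Real.logb 2 ℓ ≤ x / 2 + 1 := by
    have : Real.logb 2 ℓ ≤ Real.logb 2 (2 * Real.sqrt m) :=
      Real.logb_le_logb_of_le (by norm_num) hℓ0 hup
    rw [Real.logb_mul (by norm_num) (by linarith), hsqx, Real.logb_self_eq_one (by norm_num)] at this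
    linarith
  have hmainterm : x ^ 2 / 4 - x / 2 ≤ Real.logb 2 ℓ * (x - Real.logb 2 ℓ) := by
    have e1 : x / 2 * (x / 2 - 1) ≤ Real.logb 2 ℓ * (x - Real.logb 2 ℓ) :=
      mul_le_mul hy1 (by linarith) (by linarith) (by linarith)
    nlinarith
  have herr : errTerm m ℓ ≤ x + (x / 2 + 1) * Real.logb 2 x := by
    unfold errTerm
    rw [← hx]
    have : 0 ≤ Real.logb 2 x := Real.logb_nonneg (by norm_num) (by linarith)
    have := mul_le_mul_of_nonneg_right hy2 this
    linarith
  have h5 : x ^ 2 / 8 ≤ Real.logb 2 (networkStates s t ℓ) := by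
    have e1 := hX x hxX
    have e2 := mul_le_mul_of_nonneg_left herr hC.le
    linarith
  have hpos : networkStates s t ℓ ≠ 0 := by
    intro h0
    rw [h0] at h5
    simp at h5
    nlinarith
  have h6 : Real.logb 2 (networkStates s t ℓ) ≤ Real.logb 2 a := by
    apply Real.logb_le_logb_of_le (by norm_num)
    · exact_mod_cast Nat.pos_of_ne_zero hpos
    · exact_mod_cast states_le ha
  linarith

theorem exists_root (r n : ℕ) (hr : 1 ≤ r) : ∃ m : ℕ, m ≤ n ∧ m ^ r ≤ n ∧ n < (m + 1) ^ r := by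
  set m := Nat.findGreatest (fun m => m ^ r ≤ n) n with hm
  have h0 : (0 : ℕ) ^ r ≤ n := by rw [zero_pow (by omega)]; omega
  have h1 : m ^ r ≤ n := Nat.findGreatest_spec (P := fun m => m ^ r ≤ n) (Nat.zero_le n) h0
  have h2 : m ≤ n := Nat.findGreatest_le n
  refine ⟨m, h2, h1, ?_⟩
  rcases Nat.lt_or_ge m n with h | h
  · by_contra hc
    exact Nat.findGreatest_is_greatest (P := fun m => m ^ r ≤ n) (n := n) (k := m + 1)
      (by omega) (by omega) (by omega)
  · have : m = n := le_antisymm h2 h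
    rw [this]
    calc n < n + 1 := by omega
      _ = (n + 1) ^ 1 := (pow_one _).symm
      _ ≤ (n + 1) ^ r := Nat.pow_le_pow_right (by omega) hr

theorem exists_emb {m n : ℕ} (hmn : m ≤ n) (hm : 2 ≤ m) (s t : Fin n) (hst : s ≠ t) :
    ∃ ι : Fin m → Fin n, Function.Injective ι ∧ ι ⟨0, by omega⟩ = s ∧ ι ⟨1, by omega⟩ = t := by
  classical
  set a0 : Fin n := ⟨0, by omega⟩
  set a1 : Fin n := ⟨1, by omega⟩
  have ha : a0 ≠ a1 := by
    intro h
    have := congrArg Fin.val h
    simp [a0, a1] at this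
  set σ1 := Equiv.swap a0 s
  have h1 : σ1 a0 = s := Equiv.swap_apply_left _ _
  have h2 : σ1 a1 ≠ s := by
    intro h
    exact ha (σ1.injective (h1.trans h.symm))
  set σ2 := Equiv.swap (σ1 a1) t
  refine ⟨fun x => σ2 (σ1 (Fin.castLE hmn x)), fun x y hxy => ?_, ?_, ?_⟩
  · have := σ1.injective (σ2.injective hxy)
    exact Fin.castLE_injective hmn this
  · change σ2 (σ1 a0) = s
    rw [h1]
    exact Equiv.swap_apply_of_ne_of_ne (Ne.symm h2) hst
  · change σ2 (σ1 a1) = t
    exact Equiv.swap_apply_left _ _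

theorem eventually_num2 (r K : ℝ) (hr : 1 ≤ r) (hK : 0 ≤ K) : ∃ Y : ℝ, ∀ y ≥ Y,
    y ^ 2 / (16 * r ^ 2) ≤ (1 / 8) * (y / r - 1) ^ 2 - K * y := by
  refine ⟨16 * r ^ 2 * (K + 1 / (4 * r)), fun y hy => ?_⟩
  have hr0 : 0 < r := by linarith
  have hy0 : 0 ≤ y := by
    refine le_trans ?_ hy
    positivity
  have h1 : (K + 1 / (4 * r)) * y ≤ y ^ 2 / (16 * r ^ 2) := by
    rw [le_div_iff₀ (by positivity)]
    nlinarith
  have h2 : (1 / 8) * (y / r - 1) ^ 2 = y ^ 2 / (8 * r ^ 2) - y / (4 * r) + 1 / 8 := by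
    field_simp
    ring
  have h3 : y ^ 2 / (8 * r ^ 2) = 2 * (y ^ 2 / (16 * r ^ 2)) := by
    field_simp
    ring
  have h4 : (K + 1 / (4 * r)) * y = K * y + y / (4 * r) := by
    field_simp
  rw [h2, h3]
  linarith

end LowerNetAux

open LowerNetAux

theorem lower_net {c b : ℝ} (hc : 0 ≤ c) (hb : 0 < b)
    (h : c < 1 ∧ b < 1 ∨ c = 1 ∧ b < 1 / 2) :
    ∃ κ : ℝ, 0 < κ ∧ ∃ N : ℕ, ∀ n ≥ N, ∀ s t : Fin n, s ≠ t →
      (∀ (a : ℕ) (f : Set (Fin n × Fin n) → Prop), Net a f →
        (∀ G, prob (fun _ : Fin n × Fin n => c / n) (fun R => Wrong f s t (G ∪ R)) ≤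
          1 / 2 - (n : ℝ) ^ (-b)) → κ * Real.log n ^ 2 ≤ Real.log a) ∧
      ∀ F : Formula (Fin n),
        (∀ G, prob (fun _ : Fin n × Fin n => c / n) (fun R => Wrong F.Eval s t (G ∪ R)) ≤
          1 / 2 - (n : ℝ) ^ (-b)) → κ * Real.log n ^ 2 ≤ Real.log F.leaves := by
  obtain ⟨r, K, N1, hr, hlow⟩ := lower_abstract hc hb h
    (fun k a f => Net a f) 5 (fun k a f g h hf hg hh => Net.maj hf hg hh)
    (fun k l a f Φ hf hΦ => Net.comap hf hΦ)
  obtain ⟨N2, hex⟩ := exact_lower
  obtain ⟨Y, hY⟩ := eventually_num2 r K (by exact_mod_cast hr) (by positivity)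
  have hlog2 : (0 : ℝ) < Real.log 2 := Real.log_pos (by norm_num)
  have hr0 : (0 : ℝ) < r := by exact_mod_cast hr
  set κ : ℝ := 1 / (16 * r ^ 2 * Real.log 2) with hκ
  have hκ0 : 0 < κ := by positivity
  -- `n` large enough that `κ (log n) ^ 2 ≥ 2 log 4`
  obtain ⟨N3, hN3⟩ := exists_nat_ge ((2 : ℝ) ^ Y)
  obtain ⟨N4, hN4⟩ := exists_nat_ge (Real.exp (2 * Real.log 4 / κ + 1))
  set M := max (max N1 N2) 2 with hM
  have key : ∀ n ≥ max (max N3 N4) ((M + 1) ^ r), ∀ s t : Fin n, s ≠ t →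
      ∀ (a : ℕ) (f : Set (Fin n × Fin n) → Prop), Net a f →
      (∀ G, prob (fun _ : Fin n × Fin n => c / n) (fun R => Wrong f s t (G ∪ R)) ≤
        1 / 2 - (n : ℝ) ^ (-b)) → κ * Real.log n ^ 2 ≤ Real.log a := by
    intro n hn s t hst a f hf herr
    have hn3 : N3 ≤ n := (le_max_left _ _).trans ((le_max_left _ _).trans hn)
    have hnM : (M + 1) ^ r ≤ n := (le_max_right _ _).trans hn
    obtain ⟨m, hmn, hm1, hm2⟩ := exists_root r n hr
    have hMm : M < m + 1 := by
      by_contra hc'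
      have : (m + 1) ^ r ≤ (M + 1) ^ r := Nat.pow_le_pow_left (by omega) r
      omega
    have hmN1 : N1 ≤ m := by
      have : N1 ≤ M := (le_max_left _ _).trans (le_max_left _ _)
      omega
    have hmN2 : N2 ≤ m := by
      have : N2 ≤ M := (le_max_right _ _).trans (le_max_left _ _)
      omega
    have hm22 : 2 ≤ m := by
      have : 2 ≤ M := le_max_right _ _
      omega
    obtain ⟨ι, hι, hι0, hι1⟩ := exists_emb hmn hm22 s t hst
    have hne : (⟨0, by omega⟩ : Fin m) ≠ ⟨1, by omega⟩ := by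
      intro h
      have := congrArg Fin.val h
      simp at this
    obtain ⟨a', ha', hnet⟩ := hlow m n hmN1 hm1 ι hι ⟨0, by omega⟩ ⟨1, by omega⟩ hne a f hf
      (by rw [hι0, hι1]; exact herr)
    have h1 := hex m hmN2 _ _ hne a' hnet
    have hm0 : (0 : ℝ) < m := by positivity
    have hn0 : (0 : ℝ) < n := by
      have : 0 < n := by omega
      exact_mod_cast this
    have hx1 : 1 ≤ Real.logb 2 m := by
      rw [Real.le_logb_iff_rpow_le (by norm_num) hm0]
      norm_num
      exact_mod_cast hm22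
    have ha'0 : a' ≠ 0 := by
      rintro rfl
      simp at h1
      nlinarith
    have ha0 : a ≠ 0 := by
      rintro rfl
      simp at ha'
      exact ha'0 ha'
    have ha0' : (0 : ℝ) < a := by exact_mod_cast Nat.pos_of_ne_zero ha0
    have h2 : Real.logb 2 a' ≤ K * Real.logb 2 n + Real.logb 2 a := by
      have e1 : (a' : ℝ) ≤ (n : ℝ) ^ K * a := by exact_mod_cast ha'
      have e2 : Real.logb 2 a' ≤ Real.logb 2 ((n : ℝ) ^ K * a) :=
        Real.logb_le_logb_of_le (by norm_num) (by exact_mod_cast Nat.pos_of_ne_zero ha'0) e1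
      rw [Real.logb_mul (by positivity) ha0'.ne', Real.logb_pow] at e2
      exact e2
    set y := Real.logb 2 n with hy
    have h3 : y / r - 1 ≤ Real.logb 2 m := by
      have e1 : (n : ℝ) ≤ ((2 * m : ℕ) : ℝ) ^ r := by
        have : (m + 1) ^ r ≤ (2 * m) ^ r := Nat.pow_le_pow_left (by omega) r
        exact_mod_cast hm2.le.trans this
      have e2 : y ≤ r * (1 + Real.logb 2 m) := by
        have e3 : Real.logb 2 n ≤ Real.logb 2 (((2 * m : ℕ) : ℝ) ^ r) :=
          Real.logb_le_logb_of_le (by norm_num) hn0 e1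
        rw [Real.logb_pow] at e3
        push_cast at e3
        rw [Real.logb_mul (by norm_num) hm0.ne', Real.logb_self_eq_one (by norm_num)] at e3
        exact e3
      rw [sub_le_iff_le_add, div_le_iff₀ hr0]
      linarith
    have hyY : Y ≤ y := by
      rw [hy, Real.le_logb_iff_rpow_le (by norm_num) hn0]
      exact hN3.trans (by exact_mod_cast hn3)
    have hyr : 0 ≤ y / r - 1 := by
      have e1 : ((2 : ℝ)) ^ r ≤ n := by
        have : 2 ^ r ≤ (M + 1) ^ r := Nat.pow_le_pow_left (by omega) r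
        exact_mod_cast this.trans hnM
      have e2 : (r : ℝ) ≤ y := by
        rw [hy, Real.le_logb_iff_rpow_le (by norm_num) hn0, Real.rpow_natCast]
        exact e1
      rw [sub_nonneg, le_div_iff₀ hr0]
      linarith
    have h4 : (1 / 8) * (y / r - 1) ^ 2 ≤ (1 / 8) * Real.logb 2 m ^ 2 := by
      have := pow_le_pow_left₀ hyr h3 2
      linarith
    have h5 := hY y hyY
    have h6 : y ^ 2 / (16 * r ^ 2) ≤ Real.logb 2 a := by linarith
    have h7 : Real.logb 2 a = Real.log a / Real.log 2 := rfl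
    have h8 : y = Real.log n / Real.log 2 := rfl
    rw [h7, le_div_iff₀ hlog2, h8] at h6
    have h9 : κ * Real.log n ^ 2 = (Real.log n / Real.log 2) ^ 2 / (16 * r ^ 2) * Real.log 2 := by
      rw [hκ]
      field_simp
    rw [h9]
    exact h6
  refine ⟨κ / 2, by positivity, max (max (max N3 N4) ((M + 1) ^ r)) 1, fun n hn s t hst =>
    ⟨fun a f hf herr => ?_, fun F herr => ?_⟩⟩
  · have hn' := (le_max_left _ _).trans hn
    have := key n hn' s t hst a f hf herr
    have h0 : 0 ≤ κ * Real.log n ^ 2 := by positivity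
    linarith
  · have hn' := (le_max_left _ _).trans hn
    have hn4 : N4 ≤ n := (le_max_right _ _).trans ((le_max_left _ _).trans hn')
    have h1 := key n hn' s t hst _ _ (Net.of_formula F) herr
    have hn0 : (0 : ℝ) < n := by
      have : 1 ≤ n := (le_max_right _ _).trans hn
      exact_mod_cast this
    have hlog4 : 0 < Real.log 4 := Real.log_pos (by norm_num)
    have h2 : 2 * Real.log 4 / κ + 1 ≤ Real.log n := by
      rw [Real.le_log_iff_exp_le hn0]
      exact hN4.trans (by exact_mod_cast hn4)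
    have h3 : 2 * Real.log 4 ≤ κ * Real.log n ^ 2 := by
      have e0 : 0 ≤ 2 * Real.log 4 / κ := by positivity
      have e1 : 2 * Real.log 4 / κ ≤ Real.log n ^ 2 := by nlinarith
      rw [div_le_iff₀ hκ0] at e1
      linarith
    have hL : 1 ≤ F.leaves := by
      by_contra hc'
      have : F.leaves = 0 := by omega
      rw [this] at h1
      have e1 : Real.log ((2 * 0 + 2 : ℕ) : ℝ) ≤ Real.log 4 := by
        apply Real.log_le_log <;> norm_num
      linarith
    have hL0 : (0 : ℝ) < F.leaves := by exact_mod_cast hL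
    have h4 : Real.log ((2 * F.leaves + 2 : ℕ) : ℝ) ≤ Real.log 4 + Real.log F.leaves := by
      rw [← Real.log_mul (by norm_num) hL0.ne']
      apply Real.log_le_log
      · positivity
      · have : 2 * F.leaves + 2 ≤ 4 * F.leaves := by omega
        exact_mod_cast this
    linarith

end Pool.Agent.Lib.NTh
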