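import Pool.Agent.Lib.NTh.Prob

/-!
Module NTh.ProbUnion: a fixed set plus a random set is a random set (difficulty: 0.7 h).

Proof.  Let `S` be the finset of the elements of `G`, `q' e = 1` for `e ∈ S` and `q' e = q e` otherwise.
`prob_resample` for `q'` and `S`: only `N = S` contributes (for `N ≠ S` there is a factor
`1 - q' e = 0`), so `prob q' A = prob q' (fun R => A ((R \ S) ∪ S)) = prob q' (fun R => A (G ∪ R))`.
`prob_resample` for `q` and for `q'`, both with `S`, and the event `A (G ∪ R)`, which does not depend on
the elements of `S`: `prob q' (A (G ∪ ·)) = prob q (A (G ∪ ·))` (the weights on `S` sum to one, and off `S`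
the two families agree; e.g. show that `prob q B = ∑_{R ⊆ Sᶜ} w(R) B(R)` for every event `B` that does
not depend on `S`).
-/

namespace Pool.Agent.Lib.NTh

open Pool.Agent.Lib.Pe46137 Pool.Agent.Lib.Pe46137X

namespace ProbUnionAux

open Classical in
/-- Splitting the probability according to one element. -/
theorem split {E : Type} [Fintype E] (q : E → ℝ) (a : E) (A : Set E → Prop) :
    prob q A = ∑ R ∈ ((Finset.univ : Finset E).erase a).powerset,
      ((1 - q a) * (if A (R : Set E) then 1 else 0) +
        q a * (if A (insert a (R : Set E)) then 1 else 0)) *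
      ((∏ e ∈ R, q e) * ∏ e ∈ (Finset.univ.erase a) \ R, (1 - q e)) := by
  unfold prob
  have h0 : (Finset.univ : Finset (Finset E)) =
      (insert a ((Finset.univ : Finset E).erase a)).powerset := by
    rw [Finset.insert_erase (Finset.mem_univ a), Finset.powerset_univ]
  rw [h0, Finset.sum_powerset_insert (Finset.notMem_erase a _), ← Finset.sum_add_distrib]
  refine Finset.sum_congr rfl fun R hR => ?_
  have haR : a ∉ R := fun h => Finset.notMem_erase a _ (Finset.mem_powerset.1 hR h)
  have h1 : Rᶜ = insert a ((Finset.univ.erase a) \ R) := by
    ext e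
    by_cases he : e = a
    · subst he
      simp [haR]
    · simp [he]
  have h2 : (insert a R)ᶜ = (Finset.univ.erase a) \ R := by
    ext e
    simp
  have h3 : a ∉ (Finset.univ.erase a) \ R := by simp
  rw [h1, h2, Finset.prod_insert h3, Finset.prod_insert haR, Finset.coe_insert]
  by_cases hA : A (R : Set E) <;> by_cases hB : A (insert a (R : Set E)) <;>
    simp only [hA, hB, if_true, if_false] <;> ring

open Classical in
theorem step {E : Type} [Fintype E] (q : E → ℝ) (a : E) (A : Set E → Prop) :
    prob q (fun R => A (insert a R)) = prob (fun e => if e = a then 1 else q e) A := by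
  rw [split q a, split _ a]
  refine Finset.sum_congr rfl fun R hR => ?_
  have haR : a ∉ R := fun h => Finset.notMem_erase a _ (Finset.mem_powerset.1 hR h)
  have h1 : ∏ e ∈ R, (if e = a then 1 else q e) = ∏ e ∈ R, q e := by
    refine Finset.prod_congr rfl fun e he => ?_
    have hne : e ≠ a := by
      rintro rfl
      exact haR he
    rw [if_neg hne]
  have h2 : ∏ e ∈ (Finset.univ.erase a) \ R, (1 - if e = a then (1 : ℝ) else q e) =
      ∏ e ∈ (Finset.univ.erase a) \ R, (1 - q e) := by
    refine Finset.prod_congr rfl fun e he => ?_
    rw [if_neg (Finset.ne_of_mem_erase (Finset.mem_sdiff.1 he).1)]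
  rw [h1, h2, if_pos rfl, Set.insert_idem]
  ring

open Classical in
theorem fin {E : Type} [Fintype E] (S : Finset E) : ∀ (q : E → ℝ) (A : Set E → Prop),
    prob q (fun R => A ((S : Set E) ∪ R)) = prob (fun e => if e ∈ S then 1 else q e) A := by
  induction S using Finset.induction_on with
  | empty => intro q A; simp
  | insert a S _ ih =>
    intro q A
    have h1 : (fun R : Set E => A (((insert a S : Finset E) : Set E) ∪ R)) =
        fun R => (fun R' => A (insert a R')) ((S : Set E) ∪ R) := by
      funext R
      rw [Finset.coe_insert, Set.insert_union]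
    rw [h1, ih q (fun R' => A (insert a R')), step]
    congr 1
    funext e
    by_cases he : e = a <;> simp [he]

end ProbUnionAux

open Classical in
theorem prob_union {E : Type} [Fintype E] (q : E → ℝ) (G : Set E) (A : Set E → Prop) :
    prob q (fun R => A (G ∪ R)) = prob (fun e => if e ∈ G then 1 else q e) A := by
  have h := ProbUnionAux.fin (Finset.univ.filter fun e => e ∈ G) q A
  simpa using h

end Pool.Agent.Lib.NTh
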