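import Pool.Agent.Lib.NTh.Prob
import Pool.Agent.Lib.NTh.Expl
import Pool.Agent.Lib.NTh.Algo

/-!
Module NTh.Merge: two large frontiers are joined by an arc (difficulty: 1.8 h).

Proof.  Decompose with `prob_fiber` according to `Y H = (xpl H T ({s}, ∅), xpl (rev H) T ({t}, ∅))`
(a finite type of values).  Fix a value `((D, X), (D', X'))` with `L ≤ (D \ X).card`,
`L ≤ (D' \ X').card` and let `B = (D \ X) ×ˢ (D' \ X')`.  The event `Y H = ((D, X), (D', X'))` depends
only on pairs `(v, w)` with `v ∈ X` or `w ∈ X'` (`xpl_outcome` for `H` and for `rev H`), so it does not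
depend on `B`.  If moreover `¬ Reachable H s t` then no pair of `B` is in `H` (its first vertex is
reachable from `s`, its second reaches `t`, by `xpl_reach` and `reachable_rev`).  By `prob_off`:
`prob (Y H = value ∧ ¬ Reachable) ≤ prob (Y H = value) ∏_{e ∈ B} (1 - q e) ≤ prob (Y H = value) (1-p)^(L^2)`
since `B.card ≥ L^2` and all factors are in `[0, 1 - p]`, `0 ≤ 1 - p ≤ 1`.  Sum over all values:
`∑ prob (Y H = value) = 1`.
-/

namespace Pool.Agent.Lib.NTh

open Pool.Agent.Lib.Pe46137 Pool.Agent.Lib.Pe46137X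

namespace MergeAux

/-- the outcome of the two explorations -/
noncomputable def out {n : ℕ} (T : ℕ) (s t : Fin n) (H : Set (Fin n × Fin n)) :
    (Finset (Fin n) × Finset (Fin n)) × (Finset (Fin n) × Finset (Fin n)) :=
  (xpl H T ({s}, ∅), xpl (rev H) T ({t}, ∅))

/-- the pairs of an undiscovered rectangle -/
def rect {n : ℕ} (i : (Finset (Fin n) × Finset (Fin n)) × (Finset (Fin n) × Finset (Fin n))) :
    Finset (Fin n × Fin n) := (i.1.1 \ i.1.2) ×ˢ (i.2.1 \ i.2.2)

theorem out_congr {n : ℕ} {T : ℕ} {s t : Fin n} {R R' : Set (Fin n × Fin n)}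
    {i : (Finset (Fin n) × Finset (Fin n)) × (Finset (Fin n) × Finset (Fin n))}
    (h : ∀ e, e ∉ rect i → (e ∈ R ↔ e ∈ R')) (hi : out T s t R = i) : out T s t R' = i := by
  have h1 : xpl R T ({s}, ∅) = i.1 := congrArg Prod.fst hi
  have h2 : xpl (rev R) T ({t}, ∅) = i.2 := congrArg Prod.snd hi
  have h3 : xpl R' T ({s}, ∅) = xpl R T ({s}, ∅) := by
    apply xpl_outcome
    intro v w hv
    apply h
    intro hr
    rw [h1] at hv
    exact (Finset.mem_sdiff.1 (Finset.mem_product.1 hr).1).2 hv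
  have h4 : xpl (rev R') T ({t}, ∅) = xpl (rev R) T ({t}, ∅) := by
    apply xpl_outcome
    intro v w hv
    have h5 : (w, v) ∉ rect i := by
      intro hr
      rw [h2] at hv
      exact (Finset.mem_sdiff.1 (Finset.mem_product.1 hr).2).2 hv
    exact h (w, v) h5
  rw [← hi]
  unfold out
  rw [h3, h4]

theorem off_of_not_reach {n : ℕ} {T : ℕ} {s t : Fin n} {H : Set (Fin n × Fin n)}
    {i : (Finset (Fin n) × Finset (Fin n)) × (Finset (Fin n) × Finset (Fin n))}
    (hi : out T s t H = i) (hr : ¬ Reachable H s t) : ∀ e ∈ rect i, e ∉ H := by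
  rintro ⟨x, y⟩ he hH
  have h1 : xpl H T ({s}, ∅) = i.1 := congrArg Prod.fst hi
  have h2 : xpl (rev H) T ({t}, ∅) = i.2 := congrArg Prod.snd hi
  have hx := (Finset.mem_sdiff.1 (Finset.mem_product.1 he).1).1
  have hy := (Finset.mem_sdiff.1 (Finset.mem_product.1 he).2).1
  have h3 : Reachable H s x := by
    apply xpl_reach T
    rw [h1]; exact hx
  have h4 : Reachable (rev H) t y := by
    apply xpl_reach T
    rw [h2]; exact hy
  rw [reachable_rev] at h4
  exact hr ((Relation.ReflTransGen.tail h3 hH).trans h4)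

end MergeAux

open MergeAux

theorem merge_prob {n : ℕ} {q : Fin n × Fin n → ℝ} {p : ℝ} (hp : 0 ≤ p) (hq : ∀ e, p ≤ q e)
    (hq1 : ∀ e, q e ≤ 1) (T L : ℕ) (s t : Fin n) :
    prob q (fun H => L ≤ ((xpl H T ({s}, ∅)).1 \ (xpl H T ({s}, ∅)).2).card ∧
      L ≤ ((xpl (rev H) T ({t}, ∅)).1 \ (xpl (rev H) T ({t}, ∅)).2).card ∧
      ¬ Reachable H s t) ≤ (1 - p) ^ (L ^ 2) := by
  have h0 : ∀ e, 0 ≤ q e := fun e => hp.trans (hq e)
  have hp1 : p ≤ 1 := (hq (s, t)).trans (hq1 (s, t))
  have hpow : (0 : ℝ) ≤ (1 - p) ^ (L ^ 2) := pow_nonneg (by linarith) _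
  rw [prob_fiber (out T s t)]
  have key : ∀ i, prob q (fun H => (L ≤ ((xpl H T ({s}, ∅)).1 \ (xpl H T ({s}, ∅)).2).card ∧
      L ≤ ((xpl (rev H) T ({t}, ∅)).1 \ (xpl (rev H) T ({t}, ∅)).2).card ∧
      ¬ Reachable H s t) ∧ out T s t H = i) ≤
      prob q (fun H => True ∧ out T s t H = i) * (1 - p) ^ (L ^ 2) := by
    intro i
    by_cases hL : L ≤ (i.1.1 \ i.1.2).card ∧ L ≤ (i.2.1 \ i.2.2).card
    · have h1 : prob q (fun H => (L ≤ ((xpl H T ({s}, ∅)).1 \ (xpl H T ({s}, ∅)).2).card ∧
          L ≤ ((xpl (rev H) T ({t}, ∅)).1 \ (xpl (rev H) T ({t}, ∅)).2).card ∧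
          ¬ Reachable H s t) ∧ out T s t H = i) ≤
          prob q (fun H => out T s t H = i ∧ ∀ e ∈ rect i, e ∉ H) := by
        apply prob_mono h0 hq1
        rintro H ⟨⟨-, -, hr⟩, hi⟩
        exact ⟨hi, off_of_not_reach hi hr⟩
      have h2 := prob_off (q := q) (A := fun H => out T s t H = i) (rect i)
        (fun R R' hRR => ⟨fun hi => out_congr hRR hi,
          fun hi => out_congr (fun e he => (hRR e he).symm) hi⟩)
      have h3 : prob q (fun H => True ∧ out T s t H = i) = prob q (fun H => out T s t H = i) :=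
        prob_congr (fun R => by simp)
      rw [h3]
      refine h1.trans (h2.le.trans ?_)
      apply mul_le_mul_of_nonneg_left _ (prob_nonneg h0 hq1)
      have h4 : ∏ e ∈ rect i, (1 - q e) ≤ ∏ _e ∈ rect i, (1 - p) := by
        apply Finset.prod_le_prod
        · intro e _; linarith [hq1 e]
        · intro e _; linarith [hq e]
      rw [Finset.prod_const] at h4
      refine h4.trans (pow_le_pow_of_le_one (by linarith) (by linarith) ?_)
      unfold rect
      rw [Finset.card_product, pow_two]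
      exact Nat.mul_le_mul hL.1 hL.2
    · have h1 : prob q (fun H => (L ≤ ((xpl H T ({s}, ∅)).1 \ (xpl H T ({s}, ∅)).2).card ∧
          L ≤ ((xpl (rev H) T ({t}, ∅)).1 \ (xpl (rev H) T ({t}, ∅)).2).card ∧
          ¬ Reachable H s t) ∧ out T s t H = i) = 0 := by
        rw [← prob_false (q := q)]
        apply prob_congr
        intro H
        constructor
        · rintro ⟨⟨ha, hb, -⟩, hi⟩
          apply hL
          have e1 : xpl H T ({s}, ∅) = i.1 := congrArg Prod.fst hi
          have e2 : xpl (rev H) T ({t}, ∅) = i.2 := congrArg Prod.snd hi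
          rw [e1] at ha
          rw [e2] at hb
          exact ⟨ha, hb⟩
        · intro hf; exact hf.elim
      rw [h1]
      exact mul_nonneg (prob_nonneg h0 hq1) hpow
  refine (Finset.sum_le_sum (fun i _ => key i)).trans ?_
  rw [← Finset.sum_mul, ← prob_fiber (q := q) (A := fun _ => True) (out T s t), prob_true, one_mul]

/-- probabilities for the reversed digraph -/
theorem prob_rev {n : ℕ} (q : Fin n × Fin n → ℝ) (A : Set (Fin n × Fin n) → Prop) :
    prob q (fun H => A (rev H)) = prob (fun e => q (e.2, e.1)) A :=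
  prob_equiv (Equiv.prodComm (Fin n) (Fin n)) q A

end Pool.Agent.Lib.NTh
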