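import Pool.Agent.Lib.NTh.ExplProb

/-!
Module NTh.TailTerm: two consequences of `xpl_prob_start` (difficulty: 1 h).

Proof.  `p = c / n`.  `(1 - (1-θ) p)^N ≤ exp (-(1-θ) p N)` (`Real.one_sub_le_exp_neg`; the base is
nonnegative as `p ≤ q e ≤ 1` — if `n = 0` there is no `s`).
* `term_small`: `xpl_prob_start` with `M = i`: `θ^i P ≤ exp (-(1-θ) (c/n) (n-i) i) ≤ exp (-(1-θ) c (1-δ) i)`
  because `n - i ≥ (1-δ) n`; so `P ≤ exp (i (-log θ) - (1-θ) c (1-δ) i) ≤ exp (-κ i)`.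
* `frontier_small`: `M = T + L ≤ (δ + ε) n ≤ n`: when the run is alive at `T` the second component has
  `T` elements and is contained in the first (`xpl_subset`), so frontier `< L` gives first component
  `≤ T + L`; `P ≤ exp ((T+L) (-log θ) - (1-θ) c (1-δ-ε) T) ≤ exp (L (-log θ) - κ T)`.
-/

namespace Pool.Agent.Lib.NTh

open Pool.Agent.Lib.Pe46137 Pool.Agent.Lib.Pe46137X

namespace TailTermAux

theorem base_bound {n : ℕ} {c θ ρ : ℝ} (hn : 0 < n) (hc : 0 ≤ c) (hθ : 0 < θ) (hθ1 : θ < 1)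
    (hp : c / n ≤ 1) (M i : ℕ) (hM : ρ * n ≤ (n : ℝ) - M) :
    ((1 - (1 - θ) * (c / n)) ^ (n - M)) ^ i ≤ Real.exp (-((1 - θ) * c * ρ) * i) := by
  have hn' : (0 : ℝ) < n := by exact_mod_cast hn
  have hp0 : 0 ≤ c / n := div_nonneg hc hn'.le
  have h1 : 0 ≤ 1 - (1 - θ) * (c / n) := by nlinarith
  have h2 : 1 - (1 - θ) * (c / n) ≤ Real.exp (-((1 - θ) * (c / n))) :=
    Real.one_sub_le_exp_neg _
  have h3 : ((1 - (1 - θ) * (c / n)) ^ (n - M)) ^ i ≤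
      ((Real.exp (-((1 - θ) * (c / n)))) ^ (n - M)) ^ i := by
    apply pow_le_pow_left₀ (pow_nonneg h1 _)
    exact pow_le_pow_left₀ h1 h2 _
  refine h3.trans ?_
  rw [← Real.exp_nat_mul, ← Real.exp_nat_mul, Real.exp_le_exp]
  have h4 : (n : ℝ) - M ≤ ((n - M : ℕ) : ℝ) := by
    have h5 : n ≤ (n - M) + M := by omega
    have h6 : (n : ℝ) ≤ ((n - M : ℕ) : ℝ) + M := by exact_mod_cast h5
    linarith
  have h5 : c * ρ ≤ ((n - M : ℕ) : ℝ) * (c / n) := by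
    have h6 : ρ * n * (c / n) ≤ ((n - M : ℕ) : ℝ) * (c / n) :=
      mul_le_mul_of_nonneg_right (hM.trans h4) hp0
    have h7 : ρ * n * (c / n) = c * ρ := by field_simp
    rwa [h7] at h6
  have h8 : (1 - θ) * (c * ρ) * i ≤ (1 - θ) * (((n - M : ℕ) : ℝ) * (c / n)) * i := by
    have h9 : 0 ≤ 1 - θ := by linarith
    gcongr
  nlinarith

theorem final_bound {θ P A B : ℝ} {M : ℕ} (hθ : 0 < θ) (h : θ ^ M * P ≤ Real.exp A)
    (hAB : A + M * (-Real.log θ) ≤ B) : P ≤ Real.exp B := by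
  have h1 : θ ^ M = Real.exp (M * Real.log θ) := by
    rw [Real.exp_nat_mul, Real.exp_log hθ]
  rw [h1] at h
  have h2 : P ≤ Real.exp (-(M * Real.log θ)) * Real.exp A := by
    have h3 : P = Real.exp (-(M * Real.log θ)) * (Real.exp (M * Real.log θ) * P) := by
      rw [← mul_assoc, ← Real.exp_add]
      simp
    rw [h3]
    exact mul_le_mul_of_nonneg_left h (Real.exp_pos _).le
  refine h2.trans ?_
  rw [← Real.exp_add, Real.exp_le_exp]
  linarith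

end TailTermAux

open TailTermAux

theorem term_small {n : ℕ} {q : Fin n × Fin n → ℝ} {c θ δ κ : ℝ} (hc : 0 ≤ c)
    (hq : ∀ e, c / n ≤ q e) (hq1 : ∀ e, q e ≤ 1) (hθ : 0 < θ) (hθ1 : θ < 1) (hδ1 : δ ≤ 1)
    (hpar : -Real.log θ + κ ≤ (1 - θ) * c * (1 - δ)) (s : Fin n) (i : ℕ) (hi : (i : ℝ) ≤ δ * n) :
    prob q (fun H => (xpl H i ({s}, ∅)).2.card = i ∧ (xpl H i ({s}, ∅)).1.card = i) ≤
      Real.exp (-κ * i) := by
  have hn : 0 < n := lt_of_le_of_lt (Nat.zero_le _) s.2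
  have hn' : (0 : ℝ) < n := by exact_mod_cast hn
  have hp0 : 0 ≤ c / n := div_nonneg hc hn'.le
  have hq0 : ∀ e, 0 ≤ q e := fun e => hp0.trans (hq e)
  have hp1 : c / n ≤ 1 := (hq (s, s)).trans (hq1 (s, s))
  have h1 : prob q (fun H => (xpl H i ({s}, ∅)).2.card = i ∧ (xpl H i ({s}, ∅)).1.card = i) ≤
      prob q (fun H => (xpl H i ({s}, ∅)).2.card = i ∧ (xpl H i ({s}, ∅)).1.card ≤ i) :=
    prob_mono hq0 hq1 (fun H h => ⟨h.1, h.2.le⟩)
  refine h1.trans ?_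
  have h2 := xpl_prob_start hp0 hq hq1 hθ hθ1.le i i s
  have h3 := base_bound (ρ := 1 - δ) hn hc hθ hθ1 hp1 i i (by linarith)
  refine final_bound hθ (h2.trans h3) ?_
  have hi0 : (0 : ℝ) ≤ i := Nat.cast_nonneg i
  nlinarith

theorem frontier_small {n : ℕ} {q : Fin n × Fin n → ℝ} {c θ δ ε κ : ℝ} (hc : 0 ≤ c)
    (hq : ∀ e, c / n ≤ q e) (hq1 : ∀ e, q e ≤ 1) (hθ : 0 < θ) (hθ1 : θ < 1) (hδε : δ + ε ≤ 1)
    (hpar : -Real.log θ + κ ≤ (1 - θ) * c * (1 - δ - ε)) (s : Fin n) (T L : ℕ)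
    (hT : (T : ℝ) ≤ δ * n) (hL : (L : ℝ) ≤ ε * n) :
    prob q (fun H => (xpl H T ({s}, ∅)).2.card = T ∧
      ((xpl H T ({s}, ∅)).1 \ (xpl H T ({s}, ∅)).2).card < L) ≤
      Real.exp (L * (-Real.log θ) - κ * T) := by
  have hn : 0 < n := lt_of_le_of_lt (Nat.zero_le _) s.2
  have hn' : (0 : ℝ) < n := by exact_mod_cast hn
  have hp0 : 0 ≤ c / n := div_nonneg hc hn'.le
  have hq0 : ∀ e, 0 ≤ q e := fun e => hp0.trans (hq e)
  have hp1 : c / n ≤ 1 := (hq (s, s)).trans (hq1 (s, s))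
  have h1 : prob q (fun H => (xpl H T ({s}, ∅)).2.card = T ∧
      ((xpl H T ({s}, ∅)).1 \ (xpl H T ({s}, ∅)).2).card < L) ≤
      prob q (fun H => (xpl H T ({s}, ∅)).2.card = T ∧
        (xpl H T ({s}, ∅)).1.card ≤ T + L) := by
    refine prob_mono hq0 hq1 (fun H h => ⟨h.1, ?_⟩)
    have hsub : (xpl H T ({s}, ∅)).2 ⊆ (xpl H T ({s}, ∅)).1 :=
      xpl_subset (Finset.empty_subset _) T
    have h2 := Finset.card_sdiff_add_card_eq_card hsub
    have h3 := h.1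
    have h4 := h.2
    omega
  refine h1.trans ?_
  have h2 := xpl_prob_start hp0 hq hq1 hθ hθ1.le (T + L) T s
  have h3 := base_bound (ρ := 1 - δ - ε) hn hc hθ hθ1 hp1 (T + L) T
    (by push_cast; linarith)
  refine final_bound hθ (h2.trans h3) ?_
  have hi0 : (0 : ℝ) ≤ T := Nat.cast_nonneg T
  push_cast
  nlinarith

end Pool.Agent.Lib.NTh
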