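import Pool.Agent.Lib.NTh.TailNum
import Pool.Agent.Lib.NTh.TailTerm
import Pool.Agent.Lib.NTh.Merge

/-!
Module NTh.Tail: above the threshold the program errs with exponentially small probability in `k`
(difficulty: 1.8 h).

Proof.  `Wrong (ReachOrBig k s t) s t H` means: more than `k` vertices are reachable from `s`, more than
`k` vertices reach `t`, and `¬ Reachable H s t`.  Let `θ, δ, ε, κ` be as in `tail_params`,
`T = ⌊δ n⌋₊`, `L = ⌊ε n⌋₊`.  By `xpl_alive` and `xpl_cases` (with `k + 1` in place of `k`), for `H`, `s` and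
for `rev H`, `t` (`reachable_rev`): the event is contained in the union of
(A) for `H, s`: some `i` with `k + 1 ≤ i < T` has second and first component of size `i`,
(A') the same for `rev H, t`,
(B) for `H, s`: alive at `T` and frontier `< L`, (B') the same for `rev H, t`,
(M) both frontiers at time `T` have `≥ L` elements and `¬ Reachable H s t`.
(A) `≤ ∑_{i ≥ k+1} exp (-κ i) ≤ exp (-κ k) / (1 - exp (-κ))` (`term_small`, `prob_exists_le`; the
condition for `δ` follows from the one for `δ + ε`).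
(B) `≤ exp (ε n (-log θ) - κ (δ n - 1)) ≤ exp κ * exp (-κ δ n / 2)`.
(M) `≤ (1 - c/n)^(L^2) ≤ exp (-(c/n) L^2) ≤ exp (2 c ε) * exp (-c ε^2 n)` (`L ≥ ε n - 1`).
The primed events: `prob_rev` (the reversed family `q (e.2, e.1)` satisfies the same bounds).
If `k ≥ n` the event is empty (a set of vertices has at most `n` elements), otherwise
`exp (-κ' n) ≤ exp (-κ' k)`.  So `κ_final = min (κ, κ δ / 2, c ε^2)` and a suitable `C`.
-/

namespace Pool.Agent.Lib.NTh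

open Pool.Agent.Lib.Pe46137 Pool.Agent.Lib.Pe46137X

namespace TailAux

theorem wrong_imp {n k : ℕ} {s t : Fin n} {H : Set (Fin n × Fin n)}
    (h : Wrong (ReachOrBig k s t) s t H) :
    k < {x | Reachable H s x}.ncard ∧ k < {x | Reachable H x t}.ncard ∧ ¬ Reachable H s t := by
  unfold Wrong ReachOrBig at h
  tauto

theorem ncard_le {n : ℕ} (A : Set (Fin n)) : A.ncard ≤ n := by
  have h := Set.ncard_le_ncard (Set.subset_univ A) (Set.toFinite _)
  rw [Set.ncard_univ, Nat.card_fin] at h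
  exact h

/-- the run dies between `k + 1` and `T` -/
def EA {n : ℕ} (k T : ℕ) (s : Fin n) (H : Set (Fin n × Fin n)) : Prop :=
  ∃ i ∈ Finset.Ico (k + 1) T, (xpl H i ({s}, ∅)).2.card = i ∧ (xpl H i ({s}, ∅)).1.card = i

/-- alive at time `T`, but the frontier is small -/
def EB {n : ℕ} (T L : ℕ) (s : Fin n) (H : Set (Fin n × Fin n)) : Prop :=
  (xpl H T ({s}, ∅)).2.card = T ∧ ((xpl H T ({s}, ∅)).1 \ (xpl H T ({s}, ∅)).2).card < L

theorem alive_or {n k T : ℕ} {s : Fin n} {H : Set (Fin n × Fin n)}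
    (h : k < {x | Reachable H s x}.ncard) :
    EA k T s H ∨ (xpl H T ({s}, ∅)).2.card = T := by
  rcases xpl_cases (xpl_alive h) T with h1 | ⟨i, hi1, hi2, hi3, hi4⟩
  · exact Or.inr h1
  · exact Or.inl ⟨i, Finset.mem_Ico.2 ⟨hi1, hi2⟩, hi3, hi4⟩

theorem event {n k T L : ℕ} {s t : Fin n} {H : Set (Fin n × Fin n)}
    (h : Wrong (ReachOrBig k s t) s t H) :
    (EA k T s H ∨ EB T L s H) ∨ ((EA k T t (rev H) ∨ EB T L t (rev H)) ∨
      (L ≤ ((xpl H T ({s}, ∅)).1 \ (xpl H T ({s}, ∅)).2).card ∧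
      L ≤ ((xpl (rev H) T ({t}, ∅)).1 \ (xpl (rev H) T ({t}, ∅)).2).card ∧
      ¬ Reachable H s t)) := by
  obtain ⟨h1, h2, h3⟩ := wrong_imp h
  have h2' : k < {x | Reachable (rev H) t x}.ncard := by
    have e : {x | Reachable (rev H) t x} = {x | Reachable H x t} :=
      Set.ext fun x => reachable_rev H t x
    rw [e]
    exact h2
  rcases alive_or (T := T) h1 with ha | ha
  · exact Or.inl (Or.inl ha)
  rcases alive_or (T := T) h2' with hb | hb
  · exact Or.inr (Or.inl (Or.inl hb))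
  by_cases hc : ((xpl H T ({s}, ∅)).1 \ (xpl H T ({s}, ∅)).2).card < L
  · exact Or.inl (Or.inr ⟨ha, hc⟩)
  by_cases hd : ((xpl (rev H) T ({t}, ∅)).1 \ (xpl (rev H) T ({t}, ∅)).2).card < L
  · exact Or.inr (Or.inl (Or.inr ⟨hb, hd⟩))
  exact Or.inr (Or.inr ⟨not_lt.1 hc, not_lt.1 hd, h3⟩)

theorem one_side {n : ℕ} {q : Fin n × Fin n → ℝ} {c θ δ ε κ : ℝ} (hc : 0 ≤ c)
    (hq : ∀ e, c / n ≤ q e) (hq0 : ∀ e, 0 ≤ q e) (hq1 : ∀ e, q e ≤ 1) (hθ : 0 < θ) (hθ1 : θ < 1)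
    (hδ : 0 < δ) (hε : 0 < ε)
    (hκ : 0 < κ) (hδε : δ + ε < 1) (hpar : -Real.log θ + κ ≤ (1 - θ) * c * (1 - δ - ε))
    (hεl : ε * (-Real.log θ) ≤ κ * δ / 2) (s : Fin n) (k : ℕ) :
    prob q (fun H => EA k ⌊δ * n⌋₊ s H ∨ EB ⌊δ * n⌋₊ ⌊ε * n⌋₊ s H) ≤
      Real.exp (-κ * k) / (1 - Real.exp (-κ)) + Real.exp κ * Real.exp (-(κ * δ / 2) * n) := by
  have hlog : 0 < -Real.log θ := by
    have := Real.log_neg hθ hθ1
    linarith
  have hn0 : (0 : ℝ) ≤ n := Nat.cast_nonneg n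
  have hT : ((⌊δ * n⌋₊ : ℕ) : ℝ) ≤ δ * n := Nat.floor_le (by positivity)
  have hT' : δ * n < (⌊δ * n⌋₊ : ℕ) + 1 := Nat.lt_floor_add_one _
  have hL : ((⌊ε * n⌋₊ : ℕ) : ℝ) ≤ ε * n := Nat.floor_le (by positivity)
  have hpar' : -Real.log θ + κ ≤ (1 - θ) * c * (1 - δ) := by
    refine hpar.trans ?_
    have h1 : 0 ≤ (1 - θ) * c := mul_nonneg (by linarith) hc
    have h2 := mul_nonneg h1 hε.le
    nlinarith
  have hr0 : 0 < Real.exp (-κ) := Real.exp_pos _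
  have hr1 : Real.exp (-κ) < 1 := Real.exp_lt_one_iff.2 (by linarith)
  have hpow : ∀ i : ℕ, Real.exp (-κ * i) = Real.exp (-κ) ^ i := by
    intro i
    rw [← Real.exp_nat_mul]
    congr 1
    ring
  refine (prob_or_le hq0 hq1).trans (add_le_add ?_ ?_)
  · unfold EA
    refine (prob_exists_le _ _ hq0 hq1).trans ?_
    have h1 : ∀ i ∈ Finset.Ico (k + 1) ⌊δ * n⌋₊,
        prob q (fun H => (xpl H i ({s}, ∅)).2.card = i ∧ (xpl H i ({s}, ∅)).1.card = i) ≤
          Real.exp (-κ) ^ i := by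
      intro i hi
      have hi' := (Finset.mem_Ico.1 hi).2
      have hi2 : (i : ℝ) ≤ δ * n := by
        have : (i : ℝ) ≤ (⌊δ * n⌋₊ : ℕ) := by exact_mod_cast hi'.le
        linarith
      have := term_small hc hq hq1 hθ hθ1 (by linarith) hpar' s i hi2
      rw [hpow] at this
      exact this
    refine (Finset.sum_le_sum h1).trans ?_
    refine (geom_sum_Ico_le_of_lt_one hr0.le hr1).trans ?_
    rw [hpow]
    refine div_le_div_of_nonneg_right ?_ (by linarith)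
    rw [pow_succ]
    have hk : 0 ≤ Real.exp (-κ) ^ k := by positivity
    nlinarith
  · have h1 := frontier_small hc hq hq1 hθ hθ1 hδε.le hpar s ⌊δ * n⌋₊ ⌊ε * n⌋₊ hT hL
    refine le_trans h1 ?_
    rw [← Real.exp_add]
    apply Real.exp_le_exp.2
    have h2 : ((⌊ε * n⌋₊ : ℕ) : ℝ) * (-Real.log θ) ≤ (ε * n) * (-Real.log θ) :=
      mul_le_mul_of_nonneg_right hL hlog.le
    have h3 : (ε * (-Real.log θ)) * n ≤ (κ * δ / 2) * n := mul_le_mul_of_nonneg_right hεl hn0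
    have h4 : κ * (δ * n - 1) ≤ κ * ((⌊δ * n⌋₊ : ℕ) : ℝ) :=
      mul_le_mul_of_nonneg_left (by linarith) hκ.le
    nlinarith

theorem merge_small {n : ℕ} {q : Fin n × Fin n → ℝ} {c ε : ℝ} (hc : 0 ≤ c) (hε : 0 < ε)
    (hq : ∀ e, c / n ≤ q e) (hq1 : ∀ e, q e ≤ 1) (T : ℕ) (s t : Fin n) :
    prob q (fun H => ⌊ε * n⌋₊ ≤ ((xpl H T ({s}, ∅)).1 \ (xpl H T ({s}, ∅)).2).card ∧
      ⌊ε * n⌋₊ ≤ ((xpl (rev H) T ({t}, ∅)).1 \ (xpl (rev H) T ({t}, ∅)).2).card ∧
      ¬ Reachable H s t) ≤ Real.exp (2 * c * ε) * Real.exp (-(c * ε ^ 2) * n) := by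
  have hn : 0 < n := s.pos
  have hnr : (0 : ℝ) < n := by exact_mod_cast hn
  have hp : 0 ≤ c / n := by positivity
  have hp1 : c / n ≤ 1 := (hq (s, t)).trans (hq1 (s, t))
  refine (merge_prob hp hq hq1 T ⌊ε * n⌋₊ s t).trans ?_
  have h1 : (1 - c / n) ≤ Real.exp (-(c / n)) := by
    have := Real.add_one_le_exp (-(c / n))
    linarith
  refine (pow_le_pow_left₀ (by linarith) h1 _).trans ?_
  rw [← Real.exp_nat_mul, ← Real.exp_add]
  apply Real.exp_le_exp.2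
  set L : ℝ := ((⌊ε * n⌋₊ : ℕ) : ℝ) with hL
  have hL0 : 0 ≤ L := Nat.cast_nonneg _
  have hL1 : ε * n - 1 < L := by
    have := Nat.lt_floor_add_one (ε * (n : ℝ))
    linarith
  have hLL : (ε * n) ^ 2 - 2 * (ε * n) ≤ L ^ 2 := by
    rcases le_total (ε * n) 1 with h | h
    · have h0 : 0 ≤ ε * n := by positivity
      have h5 : 0 ≤ L ^ 2 := by positivity
      nlinarith
    · nlinarith
  have hcast : ((⌊ε * n⌋₊ ^ 2 : ℕ) : ℝ) = L ^ 2 := by
    rw [hL]
    push_cast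
    ring
  rw [hcast]
  have h6 : c / n * ((ε * n) ^ 2 - 2 * (ε * n)) ≤ c / n * L ^ 2 :=
    mul_le_mul_of_nonneg_left hLL hp
  have h7 : c / n * ((ε * n) ^ 2 - 2 * (ε * n)) = c * ε ^ 2 * n - 2 * c * ε := by
    field_simp
  rw [h7] at h6
  nlinarith

end TailAux

open TailAux in
theorem tail (c : ℝ) (hc : 1 < c) : ∃ κ C : ℝ, 0 < κ ∧ 0 < C ∧ ∃ N : ℕ, ∀ n ≥ N,
    ∀ (s t : Fin n) (k : ℕ) (q : Fin n × Fin n → ℝ), (∀ e, c / n ≤ q e) → (∀ e, q e ≤ 1) →
    prob q (Wrong (ReachOrBig k s t) s t) ≤ C * Real.exp (-κ * k) := by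
  obtain ⟨θ, δ, ε, κ, hθ, hθ1, hδ, hε, hδε, hκ, hpar, hεl⟩ := tail_params c hc
  have hc0 : 0 ≤ c := by linarith
  have hr1 : Real.exp (-κ) < 1 := Real.exp_lt_one_iff.2 (by linarith)
  set D : ℝ := 1 - Real.exp (-κ) with hD
  have hD0 : 0 < D := by linarith
  set κf : ℝ := min κ (min (κ * δ / 2) (c * ε ^ 2)) with hκf
  have hκf0 : 0 < κf := lt_min hκ (lt_min (by positivity) (by positivity))
  have f1 : κf ≤ κ := min_le_left _ _
  have f2 : κf ≤ κ * δ / 2 := (min_le_right _ _).trans (min_le_left _ _)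
  have f3 : κf ≤ c * ε ^ 2 := (min_le_right _ _).trans (min_le_right _ _)
  refine ⟨κf, 2 * (1 / D + Real.exp κ) + Real.exp (2 * c * ε), hκf0, by positivity, 0, ?_⟩
  intro n _ s t k q hq hq1
  have hn : 0 < n := s.pos
  have hnr : (0 : ℝ) < n := by exact_mod_cast hn
  have hq0 : ∀ e, 0 ≤ q e := fun e => le_trans (by positivity) (hq e)
  by_cases hkn : n ≤ k
  · have h0 : prob q (Wrong (ReachOrBig k s t) s t) = 0 := by
      rw [← prob_false (q := q)]
      refine prob_congr fun R => ⟨fun h => ?_, fun h => h.elim⟩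
      have h1 := (wrong_imp h).1
      have h2 := ncard_le {x | Reachable R s x}
      omega
    rw [h0]
    positivity
  · have hkn' : (k : ℝ) ≤ n := by exact_mod_cast (not_le.1 hkn).le
    have hk0 : (0 : ℝ) ≤ k := Nat.cast_nonneg k
    have g1 : Real.exp (-κ * k) ≤ Real.exp (-κf * k) := by
      apply Real.exp_le_exp.2
      have := mul_le_mul_of_nonneg_right f1 hk0
      linarith
    have g2 : Real.exp (-(κ * δ / 2) * n) ≤ Real.exp (-κf * k) := by
      apply Real.exp_le_exp.2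
      have h1 := mul_le_mul_of_nonneg_right f2 hnr.le
      have h2 := mul_le_mul_of_nonneg_left hkn' hκf0.le
      linarith
    have g3 : Real.exp (-(c * ε ^ 2) * n) ≤ Real.exp (-κf * k) := by
      apply Real.exp_le_exp.2
      have h1 := mul_le_mul_of_nonneg_right f3 hnr.le
      have h2 := mul_le_mul_of_nonneg_left hkn' hκf0.le
      linarith
    set y : ℝ := Real.exp (-κf * k) with hy
    have hy0 : 0 < y := Real.exp_pos _
    have hside : ∀ (q' : Fin n × Fin n → ℝ), (∀ e, c / n ≤ q' e) → (∀ e, q' e ≤ 1) →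
        ∀ s' : Fin n, prob q' (fun H => EA k ⌊δ * n⌋₊ s' H ∨ EB ⌊δ * n⌋₊ ⌊ε * n⌋₊ s' H) ≤
          (1 / D + Real.exp κ) * y := by
      intro q' h1 h2 s'
      have h3 : ∀ e, 0 ≤ q' e := fun e => le_trans (by positivity) (h1 e)
      refine (one_side hc0 h1 h3 h2 hθ hθ1 hδ hε hκ hδε hpar hεl s' k).trans ?_
      rw [add_mul]
      refine add_le_add ?_ ?_
      · rw [← hD, one_div, inv_mul_eq_div]
        exact div_le_div_of_nonneg_right g1 hD0.le
      · exact mul_le_mul_of_nonneg_left g2 (Real.exp_pos _).le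
    have hA := hside q hq hq1 s
    have hB : prob q (fun H => EA k ⌊δ * n⌋₊ t (rev H) ∨ EB ⌊δ * n⌋₊ ⌊ε * n⌋₊ t (rev H)) ≤
        (1 / D + Real.exp κ) * y := by
      have h1 := prob_rev q (fun H => EA k ⌊δ * n⌋₊ t H ∨ EB ⌊δ * n⌋₊ ⌊ε * n⌋₊ t H)
      have h2 := hside (fun e => q (e.2, e.1)) (fun e => hq _) (fun e => hq1 _) t
      rw [← h1] at h2
      exact h2
    have hM := merge_small (q := q) hc0 hε hq hq1 ⌊δ * n⌋₊ s t
    have hM' : Real.exp (2 * c * ε) * Real.exp (-(c * ε ^ 2) * n) ≤ Real.exp (2 * c * ε) * y :=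
      mul_le_mul_of_nonneg_left g3 (Real.exp_pos _).le
    have h1 : prob q (Wrong (ReachOrBig k s t) s t) ≤ _ :=
      prob_mono hq0 hq1 (fun R hR => event (T := ⌊δ * n⌋₊) (L := ⌊ε * n⌋₊) hR)
    refine h1.trans ?_
    refine (prob_or_le hq0 hq1).trans ?_
    have h2 := prob_or_le (q := q)
      (A := fun H => EA k ⌊δ * n⌋₊ t (rev H) ∨ EB ⌊δ * n⌋₊ ⌊ε * n⌋₊ t (rev H))
      (B := fun H => ⌊ε * n⌋₊ ≤ ((xpl H ⌊δ * n⌋₊ ({s}, ∅)).1 \ (xpl H ⌊δ * n⌋₊ ({s}, ∅)).2).card ∧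
        ⌊ε * n⌋₊ ≤ ((xpl (rev H) ⌊δ * n⌋₊ ({t}, ∅)).1 \
          (xpl (rev H) ⌊δ * n⌋₊ ({t}, ∅)).2).card ∧ ¬ Reachable H s t) hq0 hq1
    have h3 : (2 * (1 / D + Real.exp κ) + Real.exp (2 * c * ε)) * y =
        (1 / D + Real.exp κ) * y + ((1 / D + Real.exp κ) * y + Real.exp (2 * c * ε) * y) := by
      ring
    rw [h3]
    refine add_le_add hA (h2.trans (add_le_add hB (hM.trans hM')))

end Pool.Agent.Lib.NTh
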