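import Pool.Agent.Lib.NTh.AlgoSize
import Pool.Agent.Lib.NTh.FormUp
import Pool.Agent.Lib.NTh.Tail
import Pool.Agent.Lib.NTh.LowerBP
import Pool.Agent.Lib.NTh.LowerNet
import Pool.Agent.Lib.NTh.ProbUnion

/-!
Assembly of the noise theorem.
-/

namespace Pool.Agent.Lib.NTh

open Pool.Agent.Lib.Pe46137 Pool.Agent.Lib.Pe46137X

theorem upper (c A : ℝ) (hc : 1 < c) : ∃ K N : ℕ, ∀ n ≥ N, ∀ s t : Fin n, s ≠ t →
    ∃ f, BP (n ^ K) f ∧ ∀ q : Fin n × Fin n → ℝ, (∀ e, c / n ≤ q e ∧ q e ≤ 1) →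
      prob q (Wrong f s t) ≤ (n : ℝ) ^ (-A) := by
  obtain ⟨κ, C, hκ, hC, N1, h1⟩ := tail c hc
  obtain ⟨K', N2, h2⟩ := algo_poly ((A + 1) / κ)
  obtain ⟨N3, hN3⟩ := exists_nat_ge C
  refine ⟨K', max (max N1 N2) (max N3 1), fun n hn s t hst =>
    ⟨_, h2 n (by omega) s t hst, fun q hq => ?_⟩⟩
  have hn1 : 1 ≤ n := by omega
  have hn0 : (0 : ℝ) < n := by exact_mod_cast hn1
  have hCn : C ≤ n := hN3.trans (by exact_mod_cast (by omega : N3 ≤ n))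
  refine (h1 n (by omega) s t _ q (fun e => (hq e).1) (fun e => (hq e).2)).trans ?_
  set k := ⌈(A + 1) / κ * Real.log n⌉₊ with hk
  have hk1 : (A + 1) / κ * Real.log n ≤ k := Nat.le_ceil _
  have hk2 : (A + 1) * Real.log n ≤ κ * k := by
    have := mul_le_mul_of_nonneg_left hk1 hκ.le
    calc (A + 1) * Real.log n = κ * ((A + 1) / κ * Real.log n) := by
          field_simp
      _ ≤ κ * k := this
  calc C * Real.exp (-κ * k) ≤ n * Real.exp (-((A + 1) * Real.log n)) := by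
        apply mul_le_mul hCn _ (Real.exp_nonneg _) hn0.le
        apply Real.exp_le_exp.mpr
        nlinarith
    _ = n * (n : ℝ) ^ (-(A + 1)) := by
        rw [Real.rpow_def_of_pos hn0]
        ring_nf
    _ = (n : ℝ) ^ (-A) := by
        rw [show -A = 1 + -(A + 1) by ring, Real.rpow_add hn0, Real.rpow_one]

theorem upper_formula (c ε : ℝ) (hc : 1 < c) (hε : 0 < ε) : ∃ K N : ℕ, ∀ n ≥ N,
    ∀ s t : Fin n, s ≠ t → ∃ F : Formula (Fin n), F.leaves ≤ n ^ K ∧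
      ∀ q : Fin n × Fin n → ℝ, (∀ e, c / n ≤ q e ∧ q e ≤ 1) →
        prob q (Wrong F.Eval s t) ≤ ε := by
  obtain ⟨κ, C, hκ, hC, N1, h1⟩ := tail c hc
  obtain ⟨k, hk⟩ := exists_nat_ge (Real.log (C / ε) / κ)
  obtain ⟨K', N2, h2⟩ := formula_poly k
  refine ⟨K', max N1 N2, fun n hn s t hst => ?_⟩
  obtain ⟨F, hF, hF2⟩ := h2 n (by omega) s t hst
  refine ⟨F, hF, fun q hq => ?_⟩
  have e1 : prob q (Wrong F.Eval s t) = prob q (Wrong (ReachOrBig k s t) s t) :=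
    prob_congr (fun R => by unfold Wrong; rw [hF2])
  rw [e1]
  refine (h1 n (by omega) s t k q (fun e => (hq e).1) (fun e => (hq e).2)).trans ?_
  have h3 : Real.log (C / ε) ≤ κ * k := by
    rw [div_le_iff₀ hκ] at hk
    linarith
  have h4 : Real.exp (-κ * k) ≤ ε / C := by
    rw [← Real.exp_log (div_pos hε hC)]
    apply Real.exp_le_exp.mpr
    rw [Real.log_div hε.ne' hC.ne']
    rw [Real.log_div hC.ne' hε.ne'] at h3
    linarith
  calc C * Real.exp (-κ * k) ≤ C * (ε / C) := mul_le_mul_of_nonneg_left h4 hC.le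
    _ = ε := by field_simp

/-- a digraph with noise `c` is a random digraph with independent arcs of probability at least
`c / n` -/
theorem noise_of_product {c : ℝ} {n : ℕ} (hcn : c / n ≤ 1) {A : Set (Fin n × Fin n) → Prop} {η : ℝ}
    (h : ∀ q : Fin n × Fin n → ℝ, (∀ e, c / n ≤ q e ∧ q e ≤ 1) → prob q A ≤ η)
    (G : Set (Fin n × Fin n)) :
    prob (fun _ : Fin n × Fin n => c / n) (fun R => A (G ∪ R)) ≤ η := by
  classical
  rw [prob_union]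
  apply h
  intro e
  split
  · exact ⟨hcn, le_rfl⟩
  · exact ⟨le_rfl, hcn⟩

theorem div_le_one_of_ge {c : ℝ} {N n : ℕ} (hN : c ≤ N) (hn : N ≤ n) (hn1 : 1 ≤ n) :
    c / n ≤ 1 := by
  have hn0 : (0 : ℝ) < n := by exact_mod_cast hn1
  rw [div_le_one hn0]
  exact hN.trans (by exact_mod_cast hn)

theorem eventually_half (b : ℝ) (hb : 0 < b) : ∃ N : ℕ, ∀ n ≥ N, 0 ≤ 1 / 2 - (n : ℝ) ^ (-b) := by
  have h := (tendsto_rpow_neg_atTop hb).comp tendsto_natCast_atTop_atTop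
  have h2 := h.eventually (gt_mem_nhds (show (0 : ℝ) < 1 / 2 by norm_num))
  obtain ⟨N, hN⟩ := Filter.eventually_atTop.mp h2
  exact ⟨N, fun n hn => by
    have := hN n hn
    simp only [Function.comp_apply] at this
    linarith⟩

/-- The noise theorem. -/
theorem main :
    (∀ c b : ℝ, 0 ≤ c → 0 < b → (c < 1 ∧ b < 1 ∨ c = 1 ∧ b < 1 / 2) →
      (Easy c (fun n => 1 / 2 - (n : ℝ) ^ (-b)) ↔ Exact)) ∧
    (∀ c A : ℝ, 1 < c → Easy c (fun n => (n : ℝ) ^ (-A)) ∧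
      ∃ K N : ℕ, ∀ n ≥ N, ∀ s t : Fin n, s ≠ t → ∃ f, BP (n ^ K) f ∧
        ∀ q : Fin n × Fin n → ℝ, (∀ e, c / n ≤ q e ∧ q e ≤ 1) →
          prob q (Wrong f s t) ≤ (n : ℝ) ^ (-A)) ∧
    (∀ c a : ℝ, 0 ≤ c → 0 < a → (Easy c (fun n => Real.exp (-(n : ℝ) ^ a)) ↔ Exact)) ∧
    (∀ c b : ℝ, 0 ≤ c → 0 < b → (c < 1 ∧ b < 1 ∨ c = 1 ∧ b < 1 / 2) →
      ∃ κ : ℝ, 0 < κ ∧ ∃ N : ℕ, ∀ n ≥ N, ∀ s t : Fin n, s ≠ t →
        (∀ (m : ℕ) (T : SwitchingNetwork (Fin n × Fin n) (Fin m)), IsMonotone T →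
          (∀ G, prob (fun _ : Fin n × Fin n => c / n)
            (fun R => Wrong (fun H => T.Connects H Hᶜ) s t (G ∪ R)) ≤ 1 / 2 - (n : ℝ) ^ (-b)) →
          κ * Real.log n ^ 2 ≤ Real.log m) ∧
        ∀ F : Formula (Fin n),
          (∀ G, prob (fun _ : Fin n × Fin n => c / n)
            (fun R => Wrong F.Eval s t (G ∪ R)) ≤ 1 / 2 - (n : ℝ) ^ (-b)) →
          κ * Real.log n ^ 2 ≤ Real.log F.leaves) ∧
    (∀ c ε : ℝ, 1 < c → 0 < ε → ∃ K N : ℕ, ∀ n ≥ N, ∀ s t : Fin n, s ≠ t →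
      ∃ F : Formula (Fin n), F.leaves ≤ n ^ K ∧
        ∀ G, prob (fun _ : Fin n × Fin n => c / n)
          (fun R => Wrong F.Eval s t (G ∪ R)) ≤ ε) := by
  refine ⟨fun c b hc hb h => ⟨exact_of_easy hc hb h, easy_of_exact c _ (eventually_half b hb)⟩,
    fun c A hc => ⟨?_, upper c A hc⟩,
    fun c a hc ha => ⟨exact_of_easy_exp hc ha,
      easy_of_exact c _ ⟨0, fun n _ => (Real.exp_pos _).le⟩⟩,
    fun c b hc hb h => ?_, fun c ε hc hε => ?_⟩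
  · obtain ⟨K, N, h⟩ := upper c A hc
    obtain ⟨N', hN'⟩ := exists_nat_ge c
    refine ⟨K, max N (max N' 1), fun n hn s t hst => ?_⟩
    obtain ⟨f, hf, hf2⟩ := h n (by omega) s t hst
    exact ⟨f, hf, fun G => noise_of_product (div_le_one_of_ge hN' (by omega) (by omega))
      (A := Wrong f s t) hf2 G⟩
  · obtain ⟨κ, hκ, N, hN⟩ := lower_net hc hb h
    refine ⟨κ, hκ, N, fun n hn s t hst => ⟨fun m T hT hG => ?_, (hN n hn s t hst).2⟩⟩
    exact (hN n hn s t hst).1 m (fun H => T.Connects H Hᶜ) ⟨T, hT, fun G => Iff.rfl⟩ hG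
  · obtain ⟨K, N, h⟩ := upper_formula c ε hc hε
    obtain ⟨N', hN'⟩ := exists_nat_ge c
    refine ⟨K, max N (max N' 1), fun n hn s t hst => ?_⟩
    obtain ⟨F, hF, hF2⟩ := h n (by omega) s t hst
    exact ⟨F, hF, fun G => noise_of_product (div_le_one_of_ge hN' (by omega) (by omega))
      (A := Wrong F.Eval s t) hF2 G⟩

end Pool.Agent.Lib.NTh
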