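import Pool.Agent.Lib.NTh.CritEmb
import Pool.Agent.Lib.NTh.Amplify

/-!
Module NTh.LowerAbs: at and below the critical noise, weakly correct on average implies exactly
correct on smaller digraphs, for every model of computation with two closure properties
(difficulty: 1.8 h).

`P k a f` reads: `f`, a property of digraphs on `Fin k`, has size at most `a`; the model is closed under
majorities of three (factor `B`) and under substitution of variables and constants (`Projection`).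

Proof.  Let `r, N` be as in `noise_crit`.  Let `N ≤ m`, `m^r ≤ n`, `s ≠ t : Fin m`, `ι : Fin m → Fin n`
injective, `f` of size `≤ a` with `prob (Wrong f (ι s) (ι t) (G ∪ R)) ≤ 1/2 - n^(-b)` for all `G`.  For a
digraph `G` on `Fin m` put `F R G = f (emb ι G ∪ R)`: it has size `≤ a` (`emb_projection`), and by the
union bound (`prob_or_le`, `noise_crit`)
`prob (¬ (F R G ↔ Reachable G s t)) ≤ 1/2 - n^(-b) + n^(-b)/2 = 1/2 - n^(-b)/2`.
`amplify_prob` with `X = Set (Fin m × Fin m)`, `δ = n^(-b)/2`, `J1 = 3 * Nat.clog 2 n`,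
`J2 = 2 * Nat.clog 2 m + 2`:
* `(11/8)^3 ≥ 2`, so `(11/8)^J1 ≥ 2^(clog n) ≥ n`, and `n * n^(-b) / 2 ≥ 1/4` as `b ≤ 1`
  (for `1/4 ≤ ...`: `n^(1-b) ≥ 1`).
* `2^J2 ≥ 4 m^2`, `card X = 2^(m^2)`, `2^(m^2) (3/4)^(4 m^2) = (2 * (81/256))^(m^2) ≤ 1 < 3`.
Size: `B^(J1+J2) * a ≤ n^K * a` for `n ≥ 2` with `K` depending on `B` only: `Nat.clog 2 n ≤ 2 log2 n`,
`m ≤ n` (`r ≥ 1`), so `B^(J1+J2) ≤ (B^10)^(clog 2 n + 1)` and `B^(..) ≤ n^K`; take `N ≥ 2`.
-/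

namespace Pool.Agent.Lib.NTh

open Pool.Agent.Lib.Pe46137 Pool.Agent.Lib.Pe46137X

namespace LowerAbsAux

theorem two_pow_clog_le {n : ℕ} (hn : 2 ≤ n) : 2 ^ Nat.clog 2 n ≤ n ^ 2 := by
  have h1 : Nat.clog 2 n ≤ Nat.log 2 n + 1 := Nat.clog_le_of_le_pow (Nat.lt_pow_succ_log_self (by norm_num) n).le
  have h2 : 2 ^ Nat.log 2 n ≤ n := Nat.pow_log_le_self 2 (by omega)
  calc 2 ^ Nat.clog 2 n ≤ 2 ^ (Nat.log 2 n + 1) := Nat.pow_le_pow_right (by norm_num) h1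
    _ = 2 ^ Nat.log 2 n * 2 := pow_succ _ _
    _ ≤ n * n := Nat.mul_le_mul h2 hn
    _ = n ^ 2 := (sq n).symm

theorem size_bound (B : ℕ) {m n : ℕ} (hn : 2 ≤ n) (hm : m ≤ n) :
    B ^ (3 * Nat.clog 2 n + (2 * Nat.clog 2 m + 2)) ≤ n ^ (14 * B) := by
  have hc : 1 ≤ Nat.clog 2 n := Nat.clog_pos (by norm_num) hn
  have hmn : Nat.clog 2 m ≤ Nat.clog 2 n := Nat.clog_mono_right 2 hm
  have hJ : 3 * Nat.clog 2 n + (2 * Nat.clog 2 m + 2) ≤ 7 * Nat.clog 2 n := by omega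
  calc B ^ (3 * Nat.clog 2 n + (2 * Nat.clog 2 m + 2))
      ≤ (2 ^ B) ^ (3 * Nat.clog 2 n + (2 * Nat.clog 2 m + 2)) :=
        Nat.pow_le_pow_left (Nat.lt_two_pow_self).le _
    _ ≤ (2 ^ B) ^ (7 * Nat.clog 2 n) :=
        Nat.pow_le_pow_right (Nat.pos_of_ne_zero (by positivity)) hJ
    _ = (2 ^ Nat.clog 2 n) ^ (7 * B) := by
        rw [← pow_mul, ← pow_mul]
        congr 1
        ring
    _ ≤ (n ^ 2) ^ (7 * B) := Nat.pow_le_pow_left (two_pow_clog_le hn) _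
    _ = n ^ (14 * B) := by
        rw [← pow_mul]
        congr 1
        ring

theorem delta_bound {n : ℕ} (hn : 2 ≤ n) {b : ℝ} (hb1 : b < 1) :
    1 / 4 ≤ (11 / 8 : ℝ) ^ (3 * Nat.clog 2 n) * ((1 / 2) * (n : ℝ) ^ (-b)) := by
  have hn0 : (0 : ℝ) < n := by
    have : 0 < n := by omega
    exact_mod_cast this
  have hn1 : (1 : ℝ) ≤ n := by
    have : 1 ≤ n := by omega
    exact_mod_cast this
  have h1 : (n : ℝ) ≤ (11 / 8 : ℝ) ^ (3 * Nat.clog 2 n) := by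
    have h2 : n ≤ 2 ^ Nat.clog 2 n := Nat.le_pow_clog (by norm_num) n
    calc (n : ℝ) ≤ ((2 ^ Nat.clog 2 n : ℕ) : ℝ) := by exact_mod_cast h2
      _ = (2 : ℝ) ^ Nat.clog 2 n := by push_cast; rfl
      _ ≤ ((11 / 8 : ℝ) ^ 3) ^ Nat.clog 2 n := pow_le_pow_left₀ (by norm_num) (by norm_num) _
      _ = _ := by rw [pow_mul]
  have h3 : (1 : ℝ) ≤ n * (n : ℝ) ^ (-b) := by
    have h4 : (n : ℝ) * (n : ℝ) ^ (-b) = (n : ℝ) ^ (1 + -b) := by
      rw [Real.rpow_add hn0, Real.rpow_one]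
    rw [h4]
    exact Real.one_le_rpow hn1 (by linarith)
  have h5 : (0 : ℝ) ≤ (n : ℝ) ^ (-b) := Real.rpow_nonneg hn0.le _
  have h6 : (n : ℝ) * (n : ℝ) ^ (-b) ≤ (11 / 8 : ℝ) ^ (3 * Nat.clog 2 n) * (n : ℝ) ^ (-b) :=
    mul_le_mul_of_nonneg_right h1 h5
  linarith

theorem card_bound (m : ℕ) :
    (Fintype.card (Set (Fin m × Fin m)) : ℝ) * (3 / 4) ^ (2 ^ (2 * Nat.clog 2 m + 2)) < 3 := by
  rw [Fintype.card_set, Fintype.card_prod, Fintype.card_fin]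
  have h1 : m ≤ 2 ^ Nat.clog 2 m := Nat.le_pow_clog (by norm_num) m
  have h2 : 4 * (m * m) ≤ 2 ^ (2 * Nat.clog 2 m + 2) := by
    calc 4 * (m * m) ≤ 4 * (2 ^ Nat.clog 2 m * 2 ^ Nat.clog 2 m) :=
          Nat.mul_le_mul_left _ (Nat.mul_le_mul h1 h1)
      _ = 2 ^ (2 * Nat.clog 2 m + 2) := by
          rw [pow_add, two_mul, pow_add]
          ring
  have h3 : (3 / 4 : ℝ) ^ (2 ^ (2 * Nat.clog 2 m + 2)) ≤ (3 / 4 : ℝ) ^ (4 * (m * m)) :=
    pow_le_pow_of_le_one (by norm_num) (by norm_num) h2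
  have h4 : ((2 ^ (m * m) : ℕ) : ℝ) * (3 / 4 : ℝ) ^ (4 * (m * m)) ≤ 1 := by
    push_cast
    rw [pow_mul (3 / 4 : ℝ) 4 (m * m), ← mul_pow]
    exact pow_le_one₀ (by norm_num) (by norm_num)
  have h5 : (0 : ℝ) ≤ ((2 ^ (m * m) : ℕ) : ℝ) := Nat.cast_nonneg _
  have h6 := mul_le_mul_of_nonneg_left h3 h5
  linarith

end LowerAbsAux

theorem lower_abstract {c b : ℝ} (hc : 0 ≤ c) (hb : 0 < b)
    (h : c < 1 ∧ b < 1 ∨ c = 1 ∧ b < 1 / 2)
    (P : ∀ k : ℕ, ℕ → (Set (Fin k × Fin k) → Prop) → Prop) (B : ℕ)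
    (hmaj : ∀ (k a : ℕ) (f g h : Set (Fin k × Fin k) → Prop), P k a f → P k a g → P k a h →
      P k (B * a) (fun G => Maj (f G) (g G) (h G)))
    (hproj : ∀ (k l a : ℕ) (f : Set (Fin k × Fin k) → Prop)
      (Φ : Set (Fin l × Fin l) → Set (Fin k × Fin k)), P k a f → Projection Φ →
      P l a (fun G => f (Φ G))) :
    ∃ r K N : ℕ, 1 ≤ r ∧ ∀ m n : ℕ, N ≤ m → m ^ r ≤ n →
      ∀ ι : Fin m → Fin n, Function.Injective ι → ∀ s t : Fin m, s ≠ t →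
      ∀ (a : ℕ) (f : Set (Fin n × Fin n) → Prop), P n a f →
      (∀ G : Set (Fin n × Fin n), prob (fun _ : Fin n × Fin n => c / n)
        (fun R => Wrong f (ι s) (ι t) (G ∪ R)) ≤ 1 / 2 - (n : ℝ) ^ (-b)) →
      ∃ a' : ℕ, a' ≤ n ^ K * a ∧ P m a' (fun G => Reachable G s t) := by
  classical
  obtain ⟨r, N, hr, hN, hcrit⟩ := noise_crit hc hb h
  have hb1 : b < 1 := by rcases h with h | h <;> linarith [h.2]
  have hc1 : c ≤ 1 := by rcases h with h | h <;> linarith [h.1]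
  refine ⟨r, 14 * B, max N 2, hr, ?_⟩
  intro m n hm hn ι hι s t hst a f hf herr
  have hm1 : N ≤ m := le_trans (le_max_left _ _) hm
  have hm2 : 2 ≤ m := le_trans (le_max_right _ _) hm
  have hmn : m ≤ n := le_trans (Nat.le_self_pow (by omega) m) hn
  have hn2 : 2 ≤ n := le_trans hm2 hmn
  have hn0 : (0 : ℝ) < n := by
    have : 0 < n := by omega
    exact_mod_cast this
  have hn1 : (1 : ℝ) ≤ n := by
    have : 1 ≤ n := by omega
    exact_mod_cast this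
  have hq : ∀ _e : Fin n × Fin n, 0 ≤ c / (n : ℝ) := fun _ => div_nonneg hc hn0.le
  have hq1 : ∀ _e : Fin n × Fin n, c / (n : ℝ) ≤ 1 := fun _ => by
    rw [div_le_one hn0]
    linarith
  have hpow : (0 : ℝ) < (n : ℝ) ^ (-b) := Real.rpow_pos_of_pos hn0 _
  have hpow1 : (n : ℝ) ^ (-b) ≤ 1 := Real.rpow_le_one_of_one_le_of_nonpos hn1 (by linarith)
  refine ⟨B ^ (3 * Nat.clog 2 n + (2 * Nat.clog 2 m + 2)) * a,
    Nat.mul_le_mul_right _ (LowerAbsAux.size_bound B hn2 hmn), ?_⟩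
  refine amplify_prob (E := Fin n × Fin n) (X := Set (Fin m × Fin m)) (fun a g => P m a g) B
    (fun a f g h h1 h2 h3 => hmaj m a f g h h1 h2 h3) (q := fun _ => c / (n : ℝ)) hq hq1
    (fun R G => f (emb ι G ∪ R)) a (fun R => hproj n m a f _ hf (emb_projection hι R))
    (fun G => Reachable G s t) ((1 / 2) * (n : ℝ) ^ (-b)) (by positivity) (by linarith) ?_ _ _
    (LowerAbsAux.delta_bound hn2 hb1) (LowerAbsAux.card_bound m)
  intro G
  have e1 := herr (emb ι G)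
  have e2 := hcrit m n hm1 hn ι hι G s t
  have e3 : prob (fun _ : Fin n × Fin n => c / (n : ℝ))
      (fun R => ¬ (f (emb ι G ∪ R) ↔ Reachable G s t)) ≤
      prob (fun _ : Fin n × Fin n => c / (n : ℝ))
        (fun R => Wrong f (ι s) (ι t) (emb ι G ∪ R) ∨
          ¬ (Reachable (emb ι G ∪ R) (ι s) (ι t) ↔ Reachable G s t)) := by
    apply prob_mono hq hq1
    intro R hR
    unfold Wrong
    by_contra hcon
    rw [not_or, not_not, not_not] at hcon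
    exact hR (hcon.1.trans hcon.2)
  have e4 := prob_or_le (q := fun _ : Fin n × Fin n => c / (n : ℝ))
    (A := fun R => Wrong f (ι s) (ι t) (emb ι G ∪ R))
    (B := fun R => ¬ (Reachable (emb ι G ∪ R) (ι s) (ι t) ↔ Reachable G s t)) hq hq1
  linarith

end Pool.Agent.Lib.NTh
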