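import Pool.Agent.Lib.NTh.Defs

/-!
Module NTh.Prob: elementary facts on `prob` (difficulty: 2 h).

`prob q A = ∑ R : Finset E, if A R then ∏_{e ∈ R} q e * ∏_{e ∉ R} (1 - q e) else 0`.

Proofs.
* `prob_true`: `∑_R ∏_{e ∈ R} q e ∏_{e ∉ R} (1 - q e) = ∏_e (q e + (1 - q e)) = 1` (`Finset.prod_add`).
* `prob_resample`: a set `R` is the same as the pair `(R \ B, R ∩ B)`; the weight is the product of the
  weights on the complement of `B` and on `B`, and the weights on `B` sum to `1`:
  both sides equal `∑_{S ⊆ Bᶜ} ∑_{N ⊆ B} w(S) w(N) [A (S ∪ N)]`.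
* `prob_off`: `prob_resample` for `A R ∧ ∀ e ∈ B, e ∉ R`: only `N = ∅` contributes, and
  `A (R \ B) ↔ A R`.
* `prob_subset`: `prob_resample` with `B = S`: only `N = S` contributes.
* `prob_equiv`: reindex the sum by `Finset.map e` (an equivalence `Finset E ≃ Finset E'`).
* `prob_fiber`: exchange sums.
-/

namespace Pool.Agent.Lib.NTh

open Pool.Agent.Lib.Pe46137 Pool.Agent.Lib.Pe46137X

variable {E E' : Type} [Fintype E] [Fintype E'] {q : E → ℝ} {A B : Set E → Prop}

namespace ProbAux

open Classical in
/-- the weight of a set -/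
noncomputable def wt {E : Type} [Fintype E] (q : E → ℝ) (R : Finset E) : ℝ :=
  (∏ e ∈ R, q e) * ∏ e ∈ Rᶜ, (1 - q e)

open Classical in
theorem prob_def (q : E → ℝ) (A : Set E → Prop) :
    prob q A = ∑ R : Finset E, if A (R : Set E) then wt q R else 0 := rfl

theorem wt_nonneg (h0 : ∀ e, 0 ≤ q e) (h1 : ∀ e, q e ≤ 1) (R : Finset E) : 0 ≤ wt q R :=
  mul_nonneg (Finset.prod_nonneg fun e _ => h0 e)
    (Finset.prod_nonneg fun e _ => sub_nonneg.2 (h1 e))

open Classical in
theorem wt_ite (q : E → ℝ) (R : Finset E) :
    wt q R = ∏ e, if e ∈ R then q e else 1 - q e := by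
  unfold wt
  rw [← Finset.prod_mul_prod_compl R (fun e => if e ∈ R then q e else 1 - q e)]
  congr 1
  · exact Finset.prod_congr rfl fun e he => (if_pos he).symm
  · exact Finset.prod_congr rfl fun e he => (if_neg (Finset.mem_compl.1 he)).symm

end ProbAux

open ProbAux

theorem prob_congr (h : ∀ R, A R ↔ B R) : prob q A = prob q B := by
  have : A = B := funext fun R => propext (h R)
  rw [this]

theorem prob_nonneg (h0 : ∀ e, 0 ≤ q e) (h1 : ∀ e, q e ≤ 1) : 0 ≤ prob q A := by
  classical
  rw [prob_def]
  refine Finset.sum_nonneg fun R _ => ?_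
  split_ifs
  · exact wt_nonneg h0 h1 R
  · exact le_rfl

theorem prob_true : prob q (fun _ => True) = 1 := by
  classical
  rw [prob_def]
  have h := Finset.prod_add q (fun e => 1 - q e) (Finset.univ : Finset E)
  have h1 : ∏ i : E, (q i + (1 - q i)) = 1 := by
    refine Finset.prod_eq_one fun i _ => by ring
  rw [h1] at h
  rw [h, Finset.powerset_univ]
  refine Finset.sum_congr rfl fun R _ => ?_
  rw [if_pos trivial]
  unfold wt
  rw [Finset.compl_eq_univ_sdiff]

theorem prob_false : prob q (fun _ => False) = 0 := by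
  classical
  rw [prob_def]
  exact Finset.sum_eq_zero fun R _ => if_neg id

theorem prob_mono (h0 : ∀ e, 0 ≤ q e) (h1 : ∀ e, q e ≤ 1) (h : ∀ R, A R → B R) :
    prob q A ≤ prob q B := by
  classical
  rw [prob_def, prob_def]
  refine Finset.sum_le_sum fun R _ => ?_
  by_cases hA : A (R : Set E)
  · rw [if_pos hA, if_pos (h _ hA)]
  · rw [if_neg hA]
    split_ifs
    · exact wt_nonneg h0 h1 R
    · exact le_rfl

theorem prob_le_one (h0 : ∀ e, 0 ≤ q e) (h1 : ∀ e, q e ≤ 1) : prob q A ≤ 1 := by
  rw [← prob_true (q := q)]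
  exact prob_mono h0 h1 fun _ _ => trivial

theorem prob_not : prob q (fun R => ¬ A R) = 1 - prob q A := by
  classical
  rw [eq_sub_iff_add_eq, ← prob_true (q := q), prob_def, prob_def, prob_def,
    ← Finset.sum_add_distrib]
  refine Finset.sum_congr rfl fun R _ => ?_
  by_cases hA : A (R : Set E)
  · simp [hA]
  · simp [hA]

theorem prob_or_le (h0 : ∀ e, 0 ≤ q e) (h1 : ∀ e, q e ≤ 1) :
    prob q (fun R => A R ∨ B R) ≤ prob q A + prob q B := by
  classical
  rw [prob_def, prob_def, prob_def, ← Finset.sum_add_distrib]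
  refine Finset.sum_le_sum fun R _ => ?_
  have hw := wt_nonneg h0 h1 R
  by_cases hA : A (R : Set E) <;> by_cases hB : B (R : Set E) <;> simp [hA, hB, hw]

theorem prob_exists_le {ι : Type} (s : Finset ι) (F : ι → Set E → Prop) (h0 : ∀ e, 0 ≤ q e)
    (h1 : ∀ e, q e ≤ 1) : prob q (fun R => ∃ i ∈ s, F i R) ≤ ∑ i ∈ s, prob q (F i) := by
  classical
  induction s using Finset.induction_on with
  | empty =>
    rw [Finset.sum_empty, ← prob_false (q := q)]
    exact le_of_eq (prob_congr fun R => ⟨fun ⟨i, hi, _⟩ => absurd hi (by simp), fun h => h.elim⟩)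
  | insert a s ha ih =>
    rw [Finset.sum_insert ha]
    have h2 : prob q (fun R => ∃ i ∈ insert a s, F i R) =
        prob q (fun R => F a R ∨ ∃ i ∈ s, F i R) := by
      refine prob_congr fun R => ?_
      constructor
      · rintro ⟨i, hi, h⟩
        rcases Finset.mem_insert.1 hi with rfl | hi
        · exact Or.inl h
        · exact Or.inr ⟨i, hi, h⟩
      · rintro (h | ⟨i, hi, h⟩)
        · exact ⟨a, Finset.mem_insert_self _ _, h⟩
        · exact ⟨i, Finset.mem_insert_of_mem hi, h⟩
    rw [h2]
    exact (prob_or_le h0 h1).trans (by linarith)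

/-- decomposition according to the value of `X` -/
theorem prob_fiber {ι : Type} [Fintype ι] (X : Set E → ι) :
    prob q A = ∑ i : ι, prob q (fun R => A R ∧ X R = i) := by
  classical
  simp only [prob_def]
  rw [Finset.sum_comm]
  refine Finset.sum_congr rfl fun R _ => ?_
  by_cases hA : A (R : Set E)
  · rw [if_pos hA]
    rw [Finset.sum_eq_single (X (R : Set E))]
    · rw [if_pos ⟨hA, rfl⟩]
    · intro i _ hi
      exact if_neg fun h => hi h.2.symm
    · intro h
      exact absurd (Finset.mem_univ _) h
  · rw [if_neg hA]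
    exact (Finset.sum_eq_zero fun i _ => if_neg fun h => hA h.1).symm

theorem exists_of_prob_pos (h : 0 < prob q A) : ∃ R : Finset E, A (R : Set E) := by
  classical
  by_contra hcon
  push Not at hcon
  rw [prob_def, Finset.sum_eq_zero fun R _ => if_neg (hcon R)] at h
  exact lt_irrefl _ h

theorem prob_equiv (e : E ≃ E') (q' : E' → ℝ) (A : Set E → Prop) :
    prob q' (fun R : Set E' => A (e ⁻¹' R)) = prob (fun x => q' (e x)) A := by
  classical
  rw [prob_def, prob_def, ← Equiv.sum_comp (Equiv.finsetCongr e)]
  refine Finset.sum_congr rfl fun R _ => ?_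
  have h1 : e ⁻¹' ((Equiv.finsetCongr e R : Finset E') : Set E') = (R : Set E) := by
    ext x
    simp [Equiv.finsetCongr]
  have h2 : wt q' (Equiv.finsetCongr e R) = wt (fun x => q' (e x)) R := by
    rw [wt_ite, wt_ite, ← Equiv.prod_comp e]
    refine Finset.prod_congr rfl fun x _ => ?_
    have h3 : e x ∈ Equiv.finsetCongr e R ↔ x ∈ R := by simp [Equiv.finsetCongr]
    by_cases hx : x ∈ R
    · rw [if_pos (h3.2 hx), if_pos hx]
    · rw [if_neg (fun h => hx (h3.1 h)), if_neg hx]
  rw [h1, h2]

namespace ProbAux

open Classical in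
/-- the weight of a set without the element `a` -/
noncomputable def wo (q : E → ℝ) (a : E) (R : Finset E) : ℝ :=
  ∏ e ∈ Finset.univ.erase a, if e ∈ R then q e else 1 - q e

theorem wt_not_mem (q : E → ℝ) (a : E) (R : Finset E) (h : a ∉ R) :
    wt q R = (1 - q a) * wo q a R := by
  classical
  rw [wt_ite, ← Finset.mul_prod_erase _ _ (Finset.mem_univ a), if_neg h]
  unfold wo
  congr!

open Classical in
theorem wt_insert (q : E → ℝ) (a : E) (R : Finset E) :
    wt q (insert a R) = q a * wo q a R := by
  rw [wt_ite, ← Finset.mul_prod_erase _ _ (Finset.mem_univ a),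
    if_pos (Finset.mem_insert_self a R)]
  congr 1
  unfold wo
  refine Finset.prod_congr rfl fun e he => ?_
  have hne : e ≠ a := (Finset.mem_erase.1 he).1
  by_cases hR : e ∈ R
  · rw [if_pos hR, if_pos (Finset.mem_insert_of_mem hR)]
  · rw [if_neg hR, if_neg (fun h' => (Finset.mem_insert.1 h').elim hne hR)]

open Classical in
theorem prob_split (q : E → ℝ) (a : E) :
    ∃ c : Finset E → ℝ, ∀ A : Set E → Prop, prob q A =
      (1 - q a) * (∑ R : {R : Finset E // a ∉ R},
        c R.1 * (if A (R.1 : Set E) then 1 else 0)) +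
      q a * (∑ R : {R : Finset E // a ∉ R},
        c R.1 * (if A (insert a (R.1 : Set E)) then 1 else 0)) := by
  refine ⟨wo q a, fun A => ?_⟩
  have h1 : ∀ F : Finset E → ℝ, ∑ R : Finset E, F R =
      ∑ R : {R : Finset E // a ∉ R}, F R.1 + ∑ R : {R : Finset E // a ∉ R}, F (insert a R.1) := by
    intro F
    have h2 : (Finset.univ : Finset (Finset E)) = (insert a (Finset.univ.erase a)).powerset := by
      rw [Finset.insert_erase (Finset.mem_univ a), Finset.powerset_univ]
    rw [h2, Finset.sum_powerset_insert (Finset.notMem_erase a _)]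
    have h3 : ∀ G : Finset E → ℝ, ∑ t ∈ (Finset.univ.erase a).powerset, G t =
        ∑ R : {R : Finset E // a ∉ R}, G R.1 := by
      intro G
      refine Finset.sum_subtype _ (fun R => ?_) G
      rw [Finset.mem_powerset]
      constructor
      · intro h h'
        exact (Finset.mem_erase.1 (h h')).1 rfl
      · intro h x hx
        refine Finset.mem_erase.2 ⟨?_, Finset.mem_univ _⟩
        rintro rfl
        exact h hx
    rw [h3, h3 (fun t => F (insert a t))]
  rw [prob_def, h1, Finset.mul_sum, Finset.mul_sum]
  congr 1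
  · refine Finset.sum_congr rfl fun R _ => ?_
    rw [wt_not_mem q a R.1 R.2]
    split_ifs <;> ring
  · refine Finset.sum_congr rfl fun R _ => ?_
    rw [wt_insert q a R.1, Finset.coe_insert]
    split_ifs <;> ring

theorem prob_one (q : E → ℝ) (A : Set E → Prop) (a : E) :
    prob q A = q a * prob q (fun R => A (insert a R)) +
      (1 - q a) * prob q (fun R => A (R \ {a})) := by
  classical
  obtain ⟨c, hc⟩ := prob_split q a
  rw [hc A, hc (fun R => A (insert a R)), hc (fun R => A (R \ {a}))]
  have h1 : ∀ R : {R : Finset E // a ∉ R}, insert a (insert a (R.1 : Set E)) =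
      insert a (R.1 : Set E) := fun R => Set.insert_idem a _
  have h2 : ∀ R : {R : Finset E // a ∉ R}, ((R.1 : Set E) \ {a}) = (R.1 : Set E) := by
    intro R
    exact Set.sdiff_singleton_eq_self (by simpa using R.2)
  have h3 : ∀ R : {R : Finset E // a ∉ R}, (insert a (R.1 : Set E) \ {a}) = (R.1 : Set E) := by
    intro R
    rw [Set.insert_sdiff_of_mem _ (Set.mem_singleton a)]
    exact h2 R
  simp only [h1, h2, h3]
  ring

end ProbAux

theorem prob_resample [DecidableEq E] (S : Finset E) (A : Set E → Prop) :
    prob q A = ∑ N ∈ S.powerset, ((∏ e ∈ N, q e) * ∏ e ∈ S \ N, (1 - q e)) *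
      prob q (fun R => A ((R \ (S : Set E)) ∪ (N : Set E))) := by
  induction S using Finset.induction_on generalizing A with
  | empty =>
    rw [Finset.powerset_empty, Finset.sum_singleton]
    simp
  | insert a S ha ih =>
    rw [Finset.sum_powerset_insert ha, prob_one q A a, ih (fun R => A (insert a R)),
      ih (fun R => A (R \ {a})), add_comm, Finset.mul_sum, Finset.mul_sum]
    congr 1
    · refine Finset.sum_congr rfl fun N hN => ?_
      have hN' : N ⊆ S := Finset.mem_powerset.1 hN
      have haN : a ∉ N := fun h => ha (hN' h)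
      have h1 : insert a S \ N = insert a (S \ N) := Finset.insert_sdiff_of_notMem S haN
      have h2 : a ∉ S \ N := fun h => ha (Finset.mem_sdiff.1 h).1
      rw [h1, Finset.prod_insert h2]
      have h3 : prob q (fun R => A (((R \ (S : Set E)) ∪ (N : Set E)) \ {a})) =
          prob q (fun R => A ((R \ ((insert a S : Finset E) : Set E)) ∪ (N : Set E))) := by
        refine prob_congr fun R => ?_
        have h4 : ((R \ (S : Set E)) ∪ (N : Set E)) \ {a} =
            (R \ ((insert a S : Finset E) : Set E)) ∪ (N : Set E) := by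
          ext x
          simp only [Set.mem_sdiff, Set.mem_union, Set.mem_singleton_iff, Finset.coe_insert,
            Set.mem_insert_iff, Finset.mem_coe]
          constructor
          · rintro ⟨h | h, hx⟩
            · exact Or.inl ⟨h.1, fun h' => h'.elim hx h.2⟩
            · exact Or.inr h
          · rintro (h | h)
            · exact ⟨Or.inl ⟨h.1, fun h' => h.2 (Or.inr h')⟩, fun h' => h.2 (Or.inl h')⟩
            · refine ⟨Or.inr h, ?_⟩
              rintro rfl
              exact haN h
        rw [h4]
      rw [h3]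
      ring
    · refine Finset.sum_congr rfl fun N hN => ?_
      have hN' : N ⊆ S := Finset.mem_powerset.1 hN
      have haN : a ∉ N := fun h => ha (hN' h)
      have h1 : insert a S \ insert a N = S \ N := by
        ext x
        simp only [Finset.mem_sdiff, Finset.mem_insert]
        constructor
        · rintro ⟨h | h, h'⟩
          · exact absurd (Or.inl h) h'
          · exact ⟨h, fun h'' => h' (Or.inr h'')⟩
        · rintro ⟨h, h'⟩
          refine ⟨Or.inr h, ?_⟩
          rintro (rfl | h'')
          · exact ha h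
          · exact h' h''
      rw [h1, Finset.prod_insert haN]
      have h3 : prob q (fun R => A (insert a ((R \ (S : Set E)) ∪ (N : Set E)))) =
          prob q (fun R => A ((R \ ((insert a S : Finset E) : Set E)) ∪
            ((insert a N : Finset E) : Set E))) := by
        refine prob_congr fun R => ?_
        have h4 : insert a ((R \ (S : Set E)) ∪ (N : Set E)) =
            (R \ ((insert a S : Finset E) : Set E)) ∪ ((insert a N : Finset E) : Set E) := by
          ext x
          simp only [Set.mem_sdiff, Set.mem_union, Finset.coe_insert,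
            Set.mem_insert_iff, Finset.mem_coe]
          by_cases hx : x = a
          · simp [hx]
          · simp [hx]
        rw [h4]
      rw [h3]
      ring

/-- if `A` does not depend on the elements of `S`, then it is independent of the event that the random
set contains no element of `S` -/
theorem prob_off (S : Finset E) (hA : ∀ R R' : Set E, (∀ e, e ∉ S → (e ∈ R ↔ e ∈ R')) → (A R ↔ A R')) :
    prob q (fun R => A R ∧ ∀ e ∈ S, e ∉ R) = prob q A * ∏ e ∈ S, (1 - q e) := by
  classical
  rw [prob_resample S, Finset.sum_eq_single ∅]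
  · rw [Finset.prod_empty, one_mul, Finset.sdiff_empty, mul_comm]
    congr 1
    refine prob_congr fun R => ?_
    constructor
    · rintro ⟨h, _⟩
      refine (hA _ _ fun e he => ?_).1 h
      simp [he]
    · intro h
      refine ⟨(hA _ _ fun e he => ?_).1 h, ?_⟩
      · simp [he]
      · intro e he
        simp [he]
  · intro N hN hne
    obtain ⟨x, hx⟩ := Finset.nonempty_iff_ne_empty.2 hne
    have hxS : x ∈ S := Finset.mem_powerset.1 hN hx
    have h0 : prob q (fun R => A ((R \ (S : Set E)) ∪ (N : Set E)) ∧
        ∀ e ∈ S, e ∉ (R \ (S : Set E)) ∪ (N : Set E)) = prob q (fun _ => False) := by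
      refine prob_congr fun R => ⟨fun h => ?_, fun h => h.elim⟩
      exact h.2 x hxS (Or.inr (Finset.mem_coe.2 hx))
    rw [h0, prob_false, mul_zero]
  · intro h
    exact absurd (Finset.empty_mem_powerset S) h

theorem prob_subset (S : Finset E) : prob q (fun R => (S : Set E) ⊆ R) = ∏ e ∈ S, q e := by
  classical
  rw [prob_resample S, Finset.sum_eq_single S]
  · rw [Finset.sdiff_self, Finset.prod_empty, mul_one]
    have h0 : prob q (fun R => (S : Set E) ⊆ (R \ (S : Set E)) ∪ (S : Set E)) =
        prob q (fun _ => True) := by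
      refine prob_congr fun R => ⟨fun _ => trivial, fun _ => ?_⟩
      exact Set.subset_union_right
    rw [h0, prob_true, mul_one]
  · intro N hN hne
    have hN' := Finset.mem_powerset.1 hN
    have h0 : prob q (fun R => (S : Set E) ⊆ (R \ (S : Set E)) ∪ (N : Set E)) =
        prob q (fun _ => False) := by
      refine prob_congr fun R => ⟨fun h => ?_, fun h => h.elim⟩
      apply hne
      refine Finset.Subset.antisymm hN' fun x hx => ?_
      rcases h (Finset.mem_coe.2 hx) with h1 | h1
      · exact absurd (Finset.mem_coe.2 hx) h1.2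
      · exact Finset.mem_coe.1 h1
    rw [h0, prob_false, mul_zero]
  · intro h
    exact absurd (Finset.mem_powerset_self S) h

end Pool.Agent.Lib.NTh
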