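import Mathlib

/-!
Module NTh.TailNum: choice of the parameters (difficulty: 0.8 h).

Proof.  Put `a = min (1/2) ((c-1)/(2(c+1)))`, `θ = 1 - a`, `κ = a (c-1)/8`, and choose `δ, ε > 0` small.
`-log θ ≤ a / (1-a)` (`Real.one_sub_inv_le_log_of_pos`: `1 - 1/θ ≤ log θ`).  As `a ≤ (c-1)/(c+1)`,
`1/(1-a) ≤ (c+1)/2`.  With `δ + ε ≤ min(1/2, (c-1)/(8c))` one has `c (1-δ-ε) ≥ c - (c-1)/8`, so
`(1-θ) c (1-δ-ε) - (-log θ) ≥ a (c - (c-1)/8 - (c+1)/2) = a (c-1) (1/2 - 1/8) ≥ κ`.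
Take `δ = min (1/4) ((c-1)/(16c))` and then `ε = min δ (κ δ / (2 (-log θ) + 1) )` (any `ε` with
`ε (-log θ) ≤ κ δ / 2`; note `-log θ > 0`).
-/

namespace Pool.Agent.Lib.NTh

theorem tail_params (c : ℝ) (hc : 1 < c) : ∃ θ δ ε κ : ℝ, 0 < θ ∧ θ < 1 ∧ 0 < δ ∧ 0 < ε ∧
    δ + ε < 1 ∧ 0 < κ ∧ -Real.log θ + κ ≤ (1 - θ) * c * (1 - δ - ε) ∧
    ε * (-Real.log θ) ≤ κ * δ / 2 := by
  have hc0 : 0 < c := by linarith
  have hc1 : 0 < c - 1 := by linarith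
  have hc2 : 0 < c + 1 := by linarith
  obtain ⟨a, ha⟩ : ∃ a : ℝ, a = min (1/2) ((c-1)/(2*(c+1))) := ⟨_, rfl⟩
  have ha0 : 0 < a := by
    rw [ha]
    exact lt_min (by norm_num) (by positivity)
  have ha1 : a ≤ 1/2 := by rw [ha]; exact min_le_left _ _
  have ha2 : a ≤ (c-1)/(2*(c+1)) := by rw [ha]; exact min_le_right _ _
  have ha3 : a * (2*(c+1)) ≤ c - 1 := by
    rwa [le_div_iff₀ (by positivity)] at ha2
  have hθ0 : 0 < 1 - a := by linarith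
  have hθ1 : 1 - a < 1 := by linarith
  obtain ⟨L, hL⟩ : ∃ L : ℝ, L = -Real.log (1 - a) := ⟨_, rfl⟩
  have hL0 : 0 < L := by
    rw [hL]
    have := Real.log_neg hθ0 hθ1
    linarith
  have hLa : L ≤ a * ((c+1)/2) := by
    have h1 : 1 - (1 - a)⁻¹ ≤ Real.log (1 - a) := Real.one_sub_inv_le_log_of_pos hθ0
    have h2 : L ≤ (1 - a)⁻¹ - 1 := by rw [hL]; linarith
    have h3 : (1 - a)⁻¹ - 1 = a / (1 - a) := by
      field_simp
      ring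
    rw [h3] at h2
    refine h2.trans ?_
    rw [div_le_iff₀ hθ0]
    have h4 : 1 ≤ ((c+1)/2) * (1 - a) := by nlinarith
    calc a = a * 1 := by ring
      _ ≤ a * (((c+1)/2) * (1 - a)) := mul_le_mul_of_nonneg_left h4 ha0.le
      _ = a * ((c+1)/2) * (1 - a) := by ring
  obtain ⟨κ, hκ⟩ : ∃ κ : ℝ, κ = a * (c-1)/8 := ⟨_, rfl⟩
  have hκ0 : 0 < κ := by rw [hκ]; positivity
  obtain ⟨δ, hδ⟩ : ∃ δ : ℝ, δ = min (1/4) ((c-1)/(16*c)) := ⟨_, rfl⟩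
  have hδ0 : 0 < δ := by
    rw [hδ]
    exact lt_min (by norm_num) (by positivity)
  have hδ1 : δ ≤ 1/4 := by rw [hδ]; exact min_le_left _ _
  have hδ2 : δ * (16*c) ≤ c - 1 := by
    have h : δ ≤ (c-1)/(16*c) := by rw [hδ]; exact min_le_right _ _
    rwa [le_div_iff₀ (by positivity)] at h
  obtain ⟨ε, hε⟩ : ∃ ε : ℝ, ε = min δ (κ * δ / (2 * L + 1)) := ⟨_, rfl⟩
  have hε0 : 0 < ε := by
    rw [hε]
    exact lt_min hδ0 (by positivity)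
  have hε1 : ε ≤ δ := by rw [hε]; exact min_le_left _ _
  have hε2 : ε * (2 * L + 1) ≤ κ * δ := by
    have h : ε ≤ κ * δ / (2 * L + 1) := by rw [hε]; exact min_le_right _ _
    rwa [le_div_iff₀ (by positivity)] at h
  refine ⟨1 - a, δ, ε, κ, hθ0, hθ1, hδ0, hε0, by linarith, hκ0, ?_, ?_⟩
  · rw [← hL]
    have h1 : (1 - (1 - a)) * c * (1 - δ - ε) = a * (c * (1 - δ - ε)) := by ring
    rw [h1]
    have h2 : c - (c-1)/8 ≤ c * (1 - δ - ε) := by nlinarith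
    have h3 : a * (c - (c-1)/8) ≤ a * (c * (1 - δ - ε)) := mul_le_mul_of_nonneg_left h2 ha0.le
    have h4 : a * ((c+1)/2 + (c-1)/8) ≤ a * (c - (c-1)/8) :=
      mul_le_mul_of_nonneg_left (by linarith) ha0.le
    rw [hκ]
    nlinarith
  · rw [← hL]
    nlinarith

end Pool.Agent.Lib.NTh
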